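import Pool.Agent.H574Leontev.Weights

set_option autoImplicit false
open Filter Topology MeasureTheory Set

namespace Pool.Agent.H574Leontev

lemma tendsto_cube_div (C : ℝ) : Tendsto (fun x : ℝ => C * (x ^ 3 + 1) / x ^ 4) atTop (𝓝 0) := by
  have h1 : Tendsto (fun x : ℝ => x⁻¹) atTop (𝓝 0) := tendsto_inv_atTop_zero
  have h2 : Tendsto (fun x : ℝ => C * (x⁻¹ + x⁻¹ ^ 4)) atTop (𝓝 (C * (0 + 0 ^ 4))) :=
    (h1.add (h1.pow 4)).const_mul C
  rw [show C * (0 + (0 : ℝ) ^ 4) = 0 by ring] at h2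
  refine h2.congr' ?_
  filter_upwards [eventually_gt_atTop 0] with x hx
  field_simp

lemma phi_upper_ev (a : ℕ) (κ : ℝ) (hκ : 0 < κ) (hκ2 : κ ≤ 1 / 2) (e : ℂ) (he : ‖e‖ = 1)
    (ε : ℝ) (hε : 0 < ε) :
    ∀ᶠ x : ℝ in atTop, ∀ z : ℂ, ‖z - (x : ℂ) ^ 3 * e‖ ≤ 1 →
      ‖phi (Mw a) z‖ ≤ Real.exp (x ^ 4 * (pw a x * QQ κ e + ε)) := by
  have h1 := asym_trunc κ hκ hκ2 e he (Mw a) (pw a) (Mw_Wt a)
  have h2 := tendsto_cube_div (2 / κ ^ 2 * SS (Mw a))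
  filter_upwards [h1.eventually_lt_const (half_pos hε), h2.eventually_lt_const (half_pos hε),
    eventually_gt_atTop 0] with x hx1 hx2 hx0 z hz
  refine (phi_upper (Mw a) (Mw_le a) κ hκ hκ2 e he x hx0.le z hz).trans ?_
  rw [Real.exp_le_exp]
  have hx4 : 0 < x ^ 4 := by positivity
  have e1 : ∑' k, bs κ e (Mw a) x k = x ^ 4 * ((∑' k, bs κ e (Mw a) x k) / x ^ 4) := by field_simp
  have e2 : 2 / κ ^ 2 * (x ^ 3 + 1) * SS (Mw a)
      = x ^ 4 * (2 / κ ^ 2 * SS (Mw a) * (x ^ 3 + 1) / x ^ 4) := by field_simp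
  rw [e1, e2, ← mul_add]
  apply mul_le_mul_of_nonneg_left _ hx4.le
  linarith

lemma phi_lower_ev (a : ℕ) (κ : ℝ) (hκ : 0 < κ) (hκ2 : κ ≤ 1 / 2) (e : ℂ) (he : ‖e‖ = 1)
    (hsep : ∀ s : ℝ, 0 ≤ s → κ ≤ ‖1 - (s : ℂ) * e‖) (ε : ℝ) (hε : 0 < ε) :
    ∀ᶠ x : ℝ in atTop,
      Real.exp (x ^ 4 * (pw a x * QQ κ e - ε)) ≤ ‖phi (Mw a) ((x : ℂ) ^ 3 * e)‖ := by
  have h1 := asym_trunc κ hκ hκ2 e he (Mw a) (pw a) (Mw_Wt a)
  filter_upwards [h1.eventually_const_lt (neg_lt_zero.mpr hε), eventually_gt_atTop 0] with x hx1 hx0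
  rw [phi_exact (Mw a) (Mw_le a) κ hκ hκ2 e he hsep x hx0.le, Real.exp_le_exp]
  have hx4 : 0 < x ^ 4 := by positivity
  have e1 : ∑' k, bs κ e (Mw a) x k = x ^ 4 * ((∑' k, bs κ e (Mw a) x k) / x ^ 4) := by field_simp
  rw [e1]
  apply mul_le_mul_of_nonneg_left _ hx4.le
  linarith

lemma sep_of_im (κ : ℝ) (e : ℂ) (he : ‖e‖ = 1) (h : κ ≤ |e.im|) (hκ : 0 ≤ κ) (s : ℝ) :
    κ ≤ ‖1 - (s : ℂ) * e‖ := by
  have h1 : e.re ^ 2 + e.im ^ 2 = 1 := by
    have := Complex.sq_norm_sub_sq_re e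
    rw [he] at this
    linarith
  rw [Complex.norm_eq_sqrt_sq_add_sq]
  apply Real.le_sqrt_of_sq_le
  have e1 : (1 - (s : ℂ) * e).re = 1 - s * e.re := by simp
  have e2 : (1 - (s : ℂ) * e).im = -(s * e.im) := by simp
  rw [e1, e2]
  have h2 : κ ^ 2 ≤ e.im ^ 2 := by
    rw [← sq_abs e.im]; gcongr
  have h3 : (1 - s * e.re) ^ 2 + (-(s * e.im)) ^ 2 = (s - e.re) ^ 2 + (1 - e.re ^ 2) := by
    have : e.im ^ 2 = 1 - e.re ^ 2 := by linarith
    calc (1 - s * e.re) ^ 2 + (-(s * e.im)) ^ 2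
        = 1 - 2 * s * e.re + s ^ 2 * (e.re ^ 2 + e.im ^ 2) := by ring
      _ = _ := by rw [h1]; ring
  rw [h3]
  nlinarith [sq_nonneg (s - e.re)]

lemma sep_neg_one (κ : ℝ) (hκ2 : κ ≤ 1 / 2) (s : ℝ) (hs : 0 ≤ s) : κ ≤ ‖1 - (s : ℂ) * (-1)‖ := by
  rw [show (1 : ℂ) - (s : ℂ) * (-1) = ((1 + s : ℝ) : ℂ) by push_cast; ring, Complex.norm_real,
    Real.norm_of_nonneg (by positivity)]
  linarith

/-- the function on ray number `b` -/
noncomputable def FF (b : ℕ) (u : ℂ) : ℂ :=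
  phi (Mw b) u * phi (Mw (b + 1)) (-Complex.I * u) * phi (Mw (b + 2)) (-u)
    * phi (Mw (b + 3)) (Complex.I * u)

lemma FF_rot (b : ℕ) (u : ℂ) : FF b (Complex.I * u) = FF (b + 1) u := by
  unfold FF
  have e1 : -Complex.I * (Complex.I * u) = u := by
    rw [← mul_assoc, neg_mul, Complex.I_mul_I]; ring
  have e2 : Complex.I * (Complex.I * u) = -u := by
    rw [← mul_assoc, Complex.I_mul_I]; ring
  have e3 : -(Complex.I * u) = -Complex.I * u := by ring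
  rw [e1, e2, e3, show b + 1 + 3 = b + 4 by ring, Mw_periodic, show b + 1 + 1 = b + 2 by ring,
    show b + 1 + 2 = b + 3 by ring]
  ring

lemma FF_pow (b : ℕ) (u : ℂ) : FF 0 (Complex.I ^ b * u) = FF b u := by
  induction b generalizing u with
  | zero => simp
  | succ n ih =>
    rw [pow_succ, mul_assoc, ih, FF_rot]

lemma FF_differentiable (b : ℕ) : Differentiable ℂ (FF b) := by
  unfold FF
  have h : ∀ a, Differentiable ℂ (phi (Mw a)) := fun a => phi_differentiable _ (Mw_le a)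
  exact (((h b).mul ((h (b + 1)).comp (differentiable_id.const_mul _))).mul
    ((h (b + 2)).comp differentiable_id.neg)).mul ((h (b + 3)).comp (differentiable_id.const_mul _))

/-- upper bound near the ray -/
theorem FF_upper (b : ℕ) (ε : ℝ) (hε : 0 < ε) :
    ∀ᶠ x : ℝ in atTop, ∀ z : ℂ, ‖z - (x : ℂ) ^ 3‖ ≤ 1 →
      ‖FF b z‖ ≤ Real.exp (x ^ 4 * (H1 + (H2 - H1) * pw (b + 2) x + ε)) := by
  obtain ⟨κ, hκ, hκ2, hκQ⟩ := exists_trunc (ε / 8) (by positivity)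
  rw [Q0_eq] at hκQ
  have hε8 : 0 < ε / 8 := by positivity
  have u0 := phi_upper_ev b κ hκ hκ2 1 (by simp) (ε / 8) hε8
  have u1 := phi_upper_ev (b + 1) κ hκ hκ2 (-Complex.I) (by simp) (ε / 8) hε8
  have u2 := phi_upper_ev (b + 2) (1 / 2) (by norm_num) le_rfl (-1) (by simp) (ε / 8) hε8
  have u3 := phi_upper_ev (b + 3) κ hκ hκ2 Complex.I (by simp) (ε / 8) hε8
  filter_upwards [u0, u1, u2, u3, eventually_gt_atTop 0] with x h0 h1 h2 h3 hx0 z hz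
  have g0 := h0 z (by rwa [mul_one])
  have g1 := h1 (-Complex.I * z) (by
    rw [show -Complex.I * z - (x : ℂ) ^ 3 * -Complex.I = -Complex.I * (z - (x : ℂ) ^ 3) by ring,
      norm_mul, norm_neg, Complex.norm_I, one_mul]; exact hz)
  have g2 := h2 (-z) (by
    rw [show -z - (x : ℂ) ^ 3 * (-1) = -(z - (x : ℂ) ^ 3) by ring, norm_neg]; exact hz)
  have g3 := h3 (Complex.I * z) (by
    rw [show Complex.I * z - (x : ℂ) ^ 3 * Complex.I = Complex.I * (z - (x : ℂ) ^ 3) by ring,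
      norm_mul, Complex.norm_I, one_mul]; exact hz)
  rw [QQ_I κ hκ2 (-Complex.I) (Or.inr rfl)] at g1
  rw [QQ_I κ hκ2 Complex.I (Or.inl rfl)] at g3
  have hx4 : 0 < x ^ 4 := by positivity
  have p0 := pw_nonneg b x
  have p0' := pw_le_one b x
  have hs := pw_sum b x
  unfold FF
  rw [norm_mul, norm_mul, norm_mul]
  calc ‖phi (Mw b) z‖ * ‖phi (Mw (b + 1)) (-Complex.I * z)‖ * ‖phi (Mw (b + 2)) (-z)‖
        * ‖phi (Mw (b + 3)) (Complex.I * z)‖
      ≤ Real.exp (x ^ 4 * (pw b x * QQ κ 1 + ε / 8))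
        * Real.exp (x ^ 4 * (pw (b + 1) x * H1 + ε / 8))
        * Real.exp (x ^ 4 * (pw (b + 2) x * QQ (1 / 2) (-1) + ε / 8))
        * Real.exp (x ^ 4 * (pw (b + 3) x * H1 + ε / 8)) := by gcongr
    _ = Real.exp (x ^ 4 * (pw b x * QQ κ 1 + pw (b + 1) x * H1 + pw (b + 2) x * QQ (1 / 2) (-1)
        + pw (b + 3) x * H1 + ε / 2)) := by
        rw [← Real.exp_add, ← Real.exp_add, ← Real.exp_add]; congr 1; ring
    _ ≤ Real.exp (x ^ 4 * (H1 + (H2 - H1) * pw (b + 2) x + ε)) := by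
        rw [Real.exp_le_exp]
        apply mul_le_mul_of_nonneg_left _ hx4.le
        have e1 : pw b x * QQ κ 1 ≤ pw b x * H1 + ε / 8 := by
          have : pw b x * QQ κ 1 ≤ pw b x * (H1 + ε / 8) := by
            apply mul_le_mul_of_nonneg_left _ p0
            unfold H1; exact hκQ
          nlinarith
        have e2 : QQ (1 / 2) (-1) = H2 := rfl
        rw [e2]
        have e3 : pw b x = 1 - pw (b + 1) x - pw (b + 2) x - pw (b + 3) x := by linarith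
        have e4 : pw b x * H1 + pw (b + 1) x * H1 + pw (b + 2) x * H2 + pw (b + 3) x * H1
            = H1 + (H2 - H1) * pw (b + 2) x := by rw [e3]; ring
        linarith

/-- upper bound of the derivative on the ray -/
theorem FF_deriv_upper (b : ℕ) (ε : ℝ) (hε : 0 < ε) :
    ∀ᶠ x : ℝ in atTop, ‖deriv (FF b) ((x : ℂ) ^ 3)‖ ≤ Real.exp (x ^ 4 * (H1 + ε)) := by
  filter_upwards [FF_upper b ε hε, eventually_gt_atTop 0] with x hx hx0
  have h1 := Complex.norm_deriv_le_of_forall_mem_sphere_norm_le (c := (x : ℂ) ^ 3) (R := 1)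
    (C := Real.exp (x ^ 4 * (H1 + ε))) (f := FF b) one_pos (FF_differentiable b).diffContOnCl ?_
  · rwa [div_one] at h1
  · intro z hz
    have hz1 : ‖z - (x : ℂ) ^ 3‖ = 1 := by
      rw [← dist_eq_norm]; exact hz
    refine (hx z hz1.le).trans ?_
    rw [Real.exp_le_exp]
    apply mul_le_mul_of_nonneg_left _ (by positivity)
    have h2 : (H2 - H1) * pw (b + 2) x ≤ 0 := by
      apply mul_nonpos_of_nonpos_of_nonneg _ (pw_nonneg _ _)
      linarith [H1_pos, H2_neg]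
    linarith

end Pool.Agent.H574Leontev
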