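import Pool.Agent.H574Leontev.Excl

set_option autoImplicit false
open Filter Topology MeasureTheory Set

namespace Pool.Agent.H574Leontev

/-- explicit antiderivative of `q0 - q1` -/
noncomputable def AD (y : ℝ) : ℝ :=
  (y ^ 3 + y ^ 2 + y + 1) * ((y - 1) * Real.log (y - 1)) + (y ^ 4 + 1 / 2) * Real.log (y ^ 2 + y + 1)
    + y + √3 * Real.arctan ((2 * y + 1) / √3)
    - 1 / 2 * (y ^ 4 - 1) * Real.log (y ^ 2 + 1)
    - (1 / 2 * y ^ 4 + 1 / 4) * Real.log (y ^ 4 - y ^ 2 + 1)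
    - √3 / 2 * Real.arctan ((2 * y ^ 2 - 1) / √3)

lemma quartic_pos (y : ℝ) : 0 < y ^ 4 - y ^ 2 + 1 := by nlinarith [sq_nonneg (y ^ 2 - 1 / 2)]
lemma quad_pos (y : ℝ) : 0 < y ^ 2 + y + 1 := by nlinarith [sq_nonneg (y + 1 / 2)]

lemma AD_continuous : Continuous AD := by
  unfold AD
  have h1 : Continuous fun y : ℝ => (y - 1) * Real.log (y - 1) :=
    Real.continuous_mul_log.comp (continuous_id.sub continuous_const)
  have h2 : Continuous fun y : ℝ => Real.log (y ^ 2 + y + 1) :=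
    Continuous.log (by fun_prop) (fun y => (quad_pos y).ne')
  have h3 : Continuous fun y : ℝ => Real.log (y ^ 2 + 1) :=
    Continuous.log (by fun_prop) (fun y => by positivity)
  have h4 : Continuous fun y : ℝ => Real.log (y ^ 4 - y ^ 2 + 1) :=
    Continuous.log (by fun_prop) (fun y => (quartic_pos y).ne')
  have h5 : Continuous fun y : ℝ => Real.arctan ((2 * y + 1) / √3) :=
    Real.continuous_arctan.comp (by fun_prop)
  have h6 : Continuous fun y : ℝ => Real.arctan ((2 * y ^ 2 - 1) / √3) :=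
    Real.continuous_arctan.comp (by fun_prop)
  fun_prop

/-- integrand of the side rays -/
noncomputable def q1 (y : ℝ) : ℝ := 2 * y ^ 3 * Real.log (1 + ((y ^ 3)⁻¹) ^ 2)

lemma qk_I (κ : ℝ) (hκ2 : κ ≤ 1 / 2) (e : ℂ) (he : e = Complex.I ∨ e = -Complex.I) (y : ℝ) :
    qk κ e y = q1 y := by
  unfold qk q1 gk
  set s : ℝ := (y ^ 3)⁻¹ with hs
  have hn : ‖1 - (s : ℂ) * e‖ = √(1 + s ^ 2) := by
    rw [Complex.norm_eq_sqrt_sq_add_sq]
    congr 1
    rcases he with rfl | rfl <;> simp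
  have hre : ((s : ℂ) * e).re = 0 := by
    rcases he with rfl | rfl <;> simp
  rw [hn, hre, max_eq_left, Real.log_sqrt (by positivity)]
  · ring
  · refine hκ2.trans ?_
    apply Real.le_sqrt_of_sq_le
    nlinarith [sq_nonneg s]

lemma sqrt3_sq : (√3 : ℝ) * √3 = 3 := Real.mul_self_sqrt (by norm_num)

lemma AD_deriv (y : ℝ) (hy : 0 < y) (hy1 : y ≠ 1) : HasDerivAt AD (q0 y - q1 y) y := by
  have hs3 : (√3 : ℝ) ≠ 0 := by positivity
  have hy1' : y - 1 ≠ 0 := sub_ne_zero.mpr hy1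
  have d1 : HasDerivAt (fun y : ℝ => y ^ 3 + y ^ 2 + y + 1) (3 * y ^ 2 + 2 * y + 1) y := by
    have := (((hasDerivAt_pow 3 y).add (hasDerivAt_pow 2 y)).add (hasDerivAt_id y)).add_const 1
    refine this.congr_deriv ?_
    norm_num
  have d2 : HasDerivAt (fun y : ℝ => (y - 1) * Real.log (y - 1)) (Real.log (y - 1) + 1) y := by
    have h1 : HasDerivAt (fun y : ℝ => y - 1) 1 y := (hasDerivAt_id y).sub_const 1
    have := h1.mul (h1.log hy1')
    refine this.congr_deriv ?_
    field_simp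
  have d3 : HasDerivAt (fun y : ℝ => y ^ 4 + 1 / 2) (4 * y ^ 3) y := by
    have := (hasDerivAt_pow 4 y).add_const (1 / 2)
    refine this.congr_deriv ?_
    norm_num
  have d4 : HasDerivAt (fun y : ℝ => Real.log (y ^ 2 + y + 1)) ((2 * y + 1) / (y ^ 2 + y + 1)) y := by
    have h1 : HasDerivAt (fun y : ℝ => y ^ 2 + y + 1) (2 * y + 1) y := by
      have := ((hasDerivAt_pow 2 y).add (hasDerivAt_id y)).add_const 1
      refine this.congr_deriv ?_
      norm_num
    exact h1.log (quad_pos y).ne'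
  have d5 : HasDerivAt (fun y : ℝ => Real.arctan ((2 * y + 1) / √3))
      (1 / (1 + ((2 * y + 1) / √3) ^ 2) * (2 / √3)) y := by
    have h1 : HasDerivAt (fun y : ℝ => (2 * y + 1) / √3) (2 / √3) y := by
      have := ((((hasDerivAt_id y).const_mul 2).add_const 1).div_const √3)
      refine this.congr_deriv ?_
      norm_num
    exact h1.arctan
  have d6 : HasDerivAt (fun y : ℝ => 1 / 2 * (y ^ 4 - 1)) (2 * y ^ 3) y := by
    have := ((hasDerivAt_pow 4 y).sub_const 1).const_mul (1 / 2 : ℝ)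
    refine this.congr_deriv ?_
    norm_num; ring
  have d7 : HasDerivAt (fun y : ℝ => Real.log (y ^ 2 + 1)) ((2 * y) / (y ^ 2 + 1)) y := by
    have h1 : HasDerivAt (fun y : ℝ => y ^ 2 + 1) (2 * y) y := by
      have := (hasDerivAt_pow 2 y).add_const 1
      refine this.congr_deriv ?_
      norm_num
    exact h1.log (by positivity)
  have d8 : HasDerivAt (fun y : ℝ => 1 / 2 * y ^ 4 + 1 / 4) (2 * y ^ 3) y := by
    have := ((hasDerivAt_pow 4 y).const_mul (1 / 2 : ℝ)).add_const (1 / 4)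
    refine this.congr_deriv ?_
    norm_num; ring
  have d9 : HasDerivAt (fun y : ℝ => Real.log (y ^ 4 - y ^ 2 + 1))
      ((4 * y ^ 3 - 2 * y) / (y ^ 4 - y ^ 2 + 1)) y := by
    have h1 : HasDerivAt (fun y : ℝ => y ^ 4 - y ^ 2 + 1) (4 * y ^ 3 - 2 * y) y := by
      have := ((hasDerivAt_pow 4 y).sub (hasDerivAt_pow 2 y)).add_const 1
      refine this.congr_deriv ?_
      norm_num
    exact h1.log (quartic_pos y).ne'
  have d10 : HasDerivAt (fun y : ℝ => Real.arctan ((2 * y ^ 2 - 1) / √3))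
      (1 / (1 + ((2 * y ^ 2 - 1) / √3) ^ 2) * (4 * y / √3)) y := by
    have h1 : HasDerivAt (fun y : ℝ => (2 * y ^ 2 - 1) / √3) (4 * y / √3) y := by
      have := ((((hasDerivAt_pow 2 y).const_mul 2).sub_const 1).div_const √3)
      refine this.congr_deriv ?_
      norm_num; ring
    exact h1.arctan
  have D := ((((((d1.mul d2).add (d3.mul d4)).add (hasDerivAt_id y)).add (d5.const_mul √3)).sub
    (d6.mul d7)).sub (d8.mul d9)).sub (d10.const_mul (√3 / 2))
  have hfun : AD = fun y : ℝ => (y ^ 3 + y ^ 2 + y + 1) * ((y - 1) * Real.log (y - 1))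
      + (y ^ 4 + 1 / 2) * Real.log (y ^ 2 + y + 1)
      + y + √3 * Real.arctan ((2 * y + 1) / √3)
      - 1 / 2 * (y ^ 4 - 1) * Real.log (y ^ 2 + 1)
      - (1 / 2 * y ^ 4 + 1 / 4) * Real.log (y ^ 4 - y ^ 2 + 1)
      - √3 / 2 * Real.arctan ((2 * y ^ 2 - 1) / √3) := rfl
  rw [hfun]
  refine D.congr_deriv ?_
  -- rational parts
  have r5 : √3 * (1 / (1 + ((2 * y + 1) / √3) ^ 2) * (2 / √3)) = 3 / 2 / (y ^ 2 + y + 1) := by
    have hq := (quad_pos y).ne'
    have h3 : ((2 * y + 1) / √3) ^ 2 = (2 * y + 1) ^ 2 / 3 := by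
      rw [div_pow, Real.sq_sqrt (by norm_num)]
    rw [h3]
    have : 1 + (2 * y + 1) ^ 2 / 3 = 4 / 3 * (y ^ 2 + y + 1) := by ring
    rw [this]
    field_simp
    norm_num
  have r10 : √3 / 2 * (1 / (1 + ((2 * y ^ 2 - 1) / √3) ^ 2) * (4 * y / √3))
      = 3 / 2 * y / (y ^ 4 - y ^ 2 + 1) := by
    have hq := (quartic_pos y).ne'
    have h3 : ((2 * y ^ 2 - 1) / √3) ^ 2 = (2 * y ^ 2 - 1) ^ 2 / 3 := by
      rw [div_pow, Real.sq_sqrt (by norm_num)]
    rw [h3]
    have : 1 + (2 * y ^ 2 - 1) ^ 2 / 3 = 4 / 3 * (y ^ 4 - y ^ 2 + 1) := by ring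
    rw [this]
    field_simp
  rw [r5, r10]
  -- log parts
  have hlog0 : q0 y = 4 * y ^ 3 * (Real.log (y - 1) + Real.log (y ^ 2 + y + 1) - 3 * Real.log y)
      + 4 := by
    unfold q0
    rw [gg_real, Real.log_abs]
    have e1 : 1 - (y ^ 3)⁻¹ = (y - 1) * (y ^ 2 + y + 1) / y ^ 3 := by field_simp; ring
    rw [e1, Real.log_div (mul_ne_zero hy1' (quad_pos y).ne') (by positivity),
      Real.log_mul hy1' (quad_pos y).ne', Real.log_pow]
    push_cast
    field_simp
  have hlog1 : q1 y = 2 * y ^ 3 * (Real.log (y ^ 2 + 1) + Real.log (y ^ 4 - y ^ 2 + 1)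
      - 6 * Real.log y) := by
    unfold q1
    have e1 : 1 + ((y ^ 3)⁻¹) ^ 2 = (y ^ 2 + 1) * (y ^ 4 - y ^ 2 + 1) / y ^ 6 := by
      field_simp; ring
    rw [e1, Real.log_div (mul_ne_zero (by positivity) (quartic_pos y).ne') (by positivity),
      Real.log_mul (by positivity) (quartic_pos y).ne', Real.log_pow]
    push_cast
    ring
  rw [hlog0, hlog1]
  have hq := (quad_pos y).ne'
  have hq4 := (quartic_pos y).ne'
  have hq2 : y ^ 2 + 1 ≠ 0 := by positivity
  have f1 : (y ^ 4 + 1 / 2) * ((2 * y + 1) / (y ^ 2 + y + 1)) + 3 / 2 / (y ^ 2 + y + 1)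
      = 2 * y ^ 3 - y ^ 2 - y + 2 := by
    rw [mul_div_assoc', ← add_div, div_eq_iff hq]; ring
  have f2 : 1 / 2 * (y ^ 4 - 1) * (2 * y / (y ^ 2 + 1)) = y ^ 3 - y := by
    rw [mul_div_assoc', div_eq_iff hq2]; ring
  have f3 : (1 / 2 * y ^ 4 + 1 / 4) * ((4 * y ^ 3 - 2 * y) / (y ^ 4 - y ^ 2 + 1))
      + 3 / 2 * y / (y ^ 4 - y ^ 2 + 1) = 2 * y ^ 3 + y := by
    rw [mul_div_assoc', ← add_div, div_eq_iff hq4]; ring
  linear_combination f1 - f2 - f3

lemma AD_zero : AD 0 = √3 * Real.pi / 4 := by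
  unfold AD
  have h1 : Real.arctan ((2 * 0 + 1) / √3) = Real.pi / 6 := by
    rw [mul_zero, zero_add, ← Real.tan_pi_div_six, Real.arctan_tan]
    · linarith [Real.pi_pos]
    · linarith [Real.pi_pos]
  have h2 : Real.arctan ((2 * 0 ^ 2 - 1) / √3) = -(Real.pi / 6) := by
    rw [show (2 * (0 : ℝ) ^ 2 - 1) / √3 = -(1 / √3) by ring, Real.arctan_neg,
      ← Real.tan_pi_div_six, Real.arctan_tan]
    · linarith [Real.pi_pos]
    · linarith [Real.pi_pos]
  rw [h1, h2]
  have h3 : Real.log (0 - 1 : ℝ) = 0 := by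
    rw [zero_sub, Real.log_neg_eq_log, Real.log_one]
  rw [h3]
  norm_num
  ring

/-- remainder -/
noncomputable def R2 (u : ℝ) : ℝ :=
  -Real.log (1 - u) + 1 / 2 * Real.log (1 + u + u ^ 2) + 1 / 2 * Real.log (1 + u ^ 2)
    - 1 / 4 * Real.log (1 - u ^ 2 + u ^ 4)

lemma R2_tendsto : Tendsto (fun T : ℝ => R2 (1 / T)) atTop (𝓝 0) := by
  have h1 : ContinuousAt R2 0 := by
    unfold R2
    have e1 : ContinuousAt (fun u : ℝ => Real.log (1 - u)) 0 :=
      ContinuousAt.log (by fun_prop) (by norm_num)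
    have e2 : ContinuousAt (fun u : ℝ => Real.log (1 + u + u ^ 2)) 0 :=
      ContinuousAt.log (by fun_prop) (by norm_num)
    have e3 : ContinuousAt (fun u : ℝ => Real.log (1 + u ^ 2)) 0 :=
      ContinuousAt.log (by fun_prop) (by norm_num)
    have e4 : ContinuousAt (fun u : ℝ => Real.log (1 - u ^ 2 + u ^ 4)) 0 :=
      ContinuousAt.log (by fun_prop) (by norm_num)
    fun_prop
  have h2 : R2 0 = 0 := by unfold R2; norm_num
  have h3 : Tendsto (fun T : ℝ => 1 / T) atTop (𝓝 0) := by simpa using tendsto_inv_atTop_zero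
  have h4 := h1.tendsto.comp h3
  rw [h2] at h4
  exact h4

lemma AD_expand (T : ℝ) (hT : 2 ≤ T) :
    AD T = √3 * Real.arctan ((2 * T + 1) / √3) - √3 / 2 * Real.arctan ((2 * T ^ 2 - 1) / √3)
      + T ^ 4 * (gg (((T ^ 3)⁻¹ : ℝ) : ℂ) - 1 / 2 * Real.log (1 + ((T ^ 3)⁻¹) ^ 2)) + R2 (1 / T) := by
  have hT0 : 0 < T := by linarith
  have hT1 : T - 1 ≠ 0 := by linarith
  have l1 : Real.log |1 - (T ^ 3)⁻¹| = Real.log (T - 1) + Real.log (T ^ 2 + T + 1) - 3 * Real.log T := by
    rw [Real.log_abs]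
    have e1 : 1 - (T ^ 3)⁻¹ = (T - 1) * (T ^ 2 + T + 1) / T ^ 3 := by field_simp; ring
    rw [e1, Real.log_div (mul_ne_zero hT1 (quad_pos T).ne') (by positivity),
      Real.log_mul hT1 (quad_pos T).ne', Real.log_pow]
    push_cast; ring
  have l2 : Real.log (1 + ((T ^ 3)⁻¹) ^ 2) = Real.log (T ^ 2 + 1) + Real.log (T ^ 4 - T ^ 2 + 1)
      - 6 * Real.log T := by
    have e1 : 1 + ((T ^ 3)⁻¹) ^ 2 = (T ^ 2 + 1) * (T ^ 4 - T ^ 2 + 1) / T ^ 6 := by
      field_simp; ring
    rw [e1, Real.log_div (mul_ne_zero (by positivity) (quartic_pos T).ne') (by positivity),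
      Real.log_mul (by positivity) (quartic_pos T).ne', Real.log_pow]
    push_cast
    ring
  have l3 : Real.log (1 - 1 / T) = Real.log (T - 1) - Real.log T := by
    rw [show 1 - 1 / T = (T - 1) / T by field_simp, Real.log_div hT1 hT0.ne']
  have l4 : Real.log (1 + 1 / T + (1 / T) ^ 2) = Real.log (T ^ 2 + T + 1) - 2 * Real.log T := by
    rw [show 1 + 1 / T + (1 / T) ^ 2 = (T ^ 2 + T + 1) / T ^ 2 by field_simp,
      Real.log_div (quad_pos T).ne' (by positivity), Real.log_pow]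
    push_cast; ring
  have l5 : Real.log (1 + (1 / T) ^ 2) = Real.log (T ^ 2 + 1) - 2 * Real.log T := by
    rw [show 1 + (1 / T) ^ 2 = (T ^ 2 + 1) / T ^ 2 by field_simp,
      Real.log_div (by positivity) (by positivity), Real.log_pow]
    push_cast; ring
  have l6 : Real.log (1 - (1 / T) ^ 2 + (1 / T) ^ 4)
      = Real.log (T ^ 4 - T ^ 2 + 1) - 4 * Real.log T := by
    rw [show 1 - (1 / T) ^ 2 + (1 / T) ^ 4 = (T ^ 4 - T ^ 2 + 1) / T ^ 4 by field_simp,
      Real.log_div (quartic_pos T).ne' (by positivity), Real.log_pow]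
    push_cast; ring
  unfold AD R2
  rw [gg_real, l1, l2, l3, l4, l5, l6]
  have e : T ^ 4 * (T ^ 3)⁻¹ = T := by field_simp
  linear_combination (-1 : ℝ) * e

lemma AD_tendsto : Tendsto AD atTop (𝓝 (√3 * Real.pi / 4)) := by
  have hs3 : (0 : ℝ) < √3 := by positivity
  have h1 : Tendsto (fun T : ℝ => Real.arctan ((2 * T + 1) / √3)) atTop (𝓝 (Real.pi / 2)) := by
    have : Tendsto (fun T : ℝ => (2 * T + 1) / √3) atTop atTop := by
      apply Tendsto.atTop_div_const hs3
      apply tendsto_atTop_add_const_right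
      exact tendsto_id.const_mul_atTop (by norm_num)
    exact (Real.tendsto_arctan_atTop.mono_right nhdsWithin_le_nhds).comp this
  have h2 : Tendsto (fun T : ℝ => Real.arctan ((2 * T ^ 2 - 1) / √3)) atTop (𝓝 (Real.pi / 2)) := by
    have : Tendsto (fun T : ℝ => (2 * T ^ 2 - 1) / √3) atTop atTop := by
      apply Tendsto.atTop_div_const hs3
      have h3 : Tendsto (fun T : ℝ => 2 * T ^ 2) atTop atTop :=
        (tendsto_pow_atTop (by norm_num)).const_mul_atTop (by norm_num)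
      have := tendsto_atTop_add_const_right atTop (-1 : ℝ) h3
      simpa [sub_eq_add_neg] using this
    exact (Real.tendsto_arctan_atTop.mono_right nhdsWithin_le_nhds).comp this
  have h3 : Tendsto (fun T : ℝ => T ^ 4 * (gg (((T ^ 3)⁻¹ : ℝ) : ℂ)
      - 1 / 2 * Real.log (1 + ((T ^ 3)⁻¹) ^ 2))) atTop (𝓝 0) := by
    have h4 : Tendsto (fun T : ℝ => 3 / 2 * (1 / T)) atTop (𝓝 0) := by
      have h5 : Tendsto (fun T : ℝ => 1 / T) atTop (𝓝 0) := by simpa using tendsto_inv_atTop_zero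
      simpa using h5.const_mul (3 / 2)
    refine squeeze_zero_norm' ?_ h4
    filter_upwards [eventually_ge_atTop 2] with T hT
    have hT0 : 0 < T := by linarith
    set v : ℝ := (T ^ 3)⁻¹ with hv
    have hv0 : 0 < v := by positivity
    have hv1 : v ≤ 1 / 2 := by
      rw [hv, inv_eq_one_div, div_le_div_iff₀ (by positivity) (by norm_num)]
      have : (2 : ℝ) ^ 3 ≤ T ^ 3 := by gcongr
      linarith
    have h6 : |gg (v : ℂ)| ≤ v ^ 2 := by
      have := abs_gg_le_sq (v : ℂ) (by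
        rw [Complex.norm_real, Real.norm_of_nonneg hv0.le]; exact hv1)
      rwa [Complex.norm_real, Real.norm_of_nonneg hv0.le] at this
    have h7 : |Real.log (1 + v ^ 2)| ≤ v ^ 2 := by
      rw [abs_of_nonneg (Real.log_nonneg (by nlinarith [sq_nonneg v]))]
      have := Real.log_le_sub_one_of_pos (x := 1 + v ^ 2) (by positivity)
      linarith
    rw [Real.norm_eq_abs, abs_mul, abs_of_pos (show 0 < T ^ 4 by positivity)]
    calc T ^ 4 * |gg (v : ℂ) - 1 / 2 * Real.log (1 + v ^ 2)|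
        ≤ T ^ 4 * (|gg (v : ℂ)| + |1 / 2 * Real.log (1 + v ^ 2)|) := by
          gcongr; exact abs_sub _ _
      _ ≤ T ^ 4 * (v ^ 2 + 1 / 2 * v ^ 2) := by
          rw [abs_mul, abs_of_pos (by norm_num : (0 : ℝ) < 1 / 2)]
          gcongr
      _ = 3 / 2 * (1 / T ^ 2) := by rw [hv]; field_simp; ring
      _ ≤ 3 / 2 * (1 / T) := by
          gcongr
          nlinarith
  have h8 := ((((h1.const_mul √3).sub (h2.const_mul (√3 / 2))).add h3).add R2_tendsto)
  have e : √3 * (Real.pi / 2) - √3 / 2 * (Real.pi / 2) + 0 + 0 = √3 * Real.pi / 4 := by ring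
  rw [e] at h8
  refine h8.congr' ?_
  filter_upwards [eventually_ge_atTop 2] with T hT
  rw [AD_expand T hT]

lemma q1_integrable : IntegrableOn q1 (Ioi 0) := by
  have h := qk_integrable (1 / 2) (by norm_num) le_rfl Complex.I (by simp)
  refine h.congr ?_
  filter_upwards with y
  exact qk_I (1 / 2) le_rfl Complex.I (Or.inl rfl) y

/-- the key identity: the two constants agree -/
theorem Q0_eq : Q0 = ∫ y in Ioi (0 : ℝ), q1 y := by
  have hint : IntegrableOn (fun y => q0 y - q1 y) (Ioi 0) := q0_integrable.sub q1_integrable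
  have h1 := intervalIntegral_tendsto_integral_Ioi (0 : ℝ) hint tendsto_id
  have h2 : Tendsto (fun T : ℝ => AD T - AD 0) atTop (𝓝 0) := by
    have := AD_tendsto.sub_const (AD 0)
    rw [AD_zero, sub_self] at this
    rw [AD_zero]
    exact this
  have h3 : ∀ᶠ T : ℝ in atTop, AD T - AD 0 = ∫ y in (0 : ℝ)..T, (q0 y - q1 y) := by
    filter_upwards [eventually_gt_atTop 0] with T hT
    refine (integral_eq_of_hasDerivAt_off_countable_of_le AD (fun y => q0 y - q1 y) hT.le
      (s := {1}) (countable_singleton 1) AD_continuous.continuousOn ?_ ?_).symm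
    · intro y hy
      exact AD_deriv y hy.1.1 (fun h => hy.2 h)
    · rw [intervalIntegrable_iff_integrableOn_Ioc_of_le hT.le]
      exact hint.mono_set Ioc_subset_Ioi_self
  have h4 := tendsto_nhds_unique (h2.congr' h3) h1
  rw [integral_sub q0_integrable q1_integrable] at h4
  unfold Q0
  linarith

/-- the common constant -/
noncomputable def H1 : ℝ := ∫ y in Ioi (0 : ℝ), q1 y

lemma QQ_I (κ : ℝ) (hκ2 : κ ≤ 1 / 2) (e : ℂ) (he : e = Complex.I ∨ e = -Complex.I) :
    QQ κ e = H1 := by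
  unfold QQ H1
  congr 1
  funext y
  exact qk_I κ hκ2 e he y

lemma q1_pos (y : ℝ) (hy : 0 < y) : 0 < q1 y := by
  unfold q1
  have : 0 < Real.log (1 + ((y ^ 3)⁻¹) ^ 2) := by
    apply Real.log_pos
    have : 0 < ((y ^ 3)⁻¹) ^ 2 := by positivity
    linarith
  positivity

lemma integral_pos_of_pos (q : ℝ → ℝ) (hq : IntegrableOn q (Ioi 0)) (h : ∀ y, 0 < y → 0 < q y) :
    0 < ∫ y in Ioi (0 : ℝ), q y := by
  rw [setIntegral_pos_iff_support_of_nonneg_ae]
  · have : Function.support q ∩ Ioi 0 = Ioi 0 := by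
      ext y
      constructor
      · exact fun hy => hy.2
      · exact fun hy => ⟨(h y hy).ne', hy⟩
    rw [this]
    simp
  · rw [EventuallyLE, ae_restrict_iff' measurableSet_Ioi]
    filter_upwards with y hy
    exact (h y hy).le
  · exact hq

lemma H1_pos : 0 < H1 := integral_pos_of_pos q1 q1_integrable q1_pos

/-- the constant of the opposite ray -/
noncomputable def H2 : ℝ := QQ (1 / 2) (-1)

lemma H2_neg : H2 < 0 := by
  have h := integral_pos_of_pos (fun y => -qk (1 / 2) (-1) y)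
    (qk_integrable (1 / 2) (by norm_num) le_rfl (-1) (by simp)).neg ?_
  · rw [integral_neg] at h
    unfold H2 QQ
    linarith
  · intro y hy
    unfold qk gk
    set s : ℝ := (y ^ 3)⁻¹ with hs
    have hs0 : 0 < s := by positivity
    have e1 : ‖1 - (s : ℂ) * (-1)‖ = 1 + s := by
      rw [show (1 : ℂ) - (s : ℂ) * (-1) = ((1 + s : ℝ) : ℂ) by push_cast; ring, Complex.norm_real,
        Real.norm_of_nonneg (by positivity)]
    have e2 : ((s : ℂ) * (-1)).re = -s := by simp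
    rw [e1, e2, max_eq_left (by linarith)]
    have h1 : Real.log (1 + s) < s := by
      have := Real.log_lt_sub_one_of_pos (x := 1 + s) (by positivity) (by linarith)
      linarith
    have h2 : 0 < 4 * y ^ 3 * (s - Real.log (1 + s)) := by
      have : 0 < s - Real.log (1 + s) := by linarith
      positivity
    linarith

end Pool.Agent.H574Leontev
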