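import Pool.Agent.H574Leontev.Kernel

set_option autoImplicit false
open Filter Topology MeasureTheory Set

namespace Pool.Agent.H574Leontev

lemma gg_real (s : ℝ) : gg (s : ℂ) = Real.log |1 - s| + s := by
  unfold gg
  rw [show (1 : ℂ) - (s : ℂ) = ((1 - s : ℝ) : ℂ) by push_cast; ring, Complex.norm_real,
    Real.norm_eq_abs, Complex.ofReal_re]

/-- block sums for the positive ray with the nearest blocks removed -/
noncomputable def bsx (M : ℕ → ℕ) (x : ℝ) (k : ℕ) : ℝ :=
  if |((k : ℝ) + 1) - x| < 1 / 2 then 0 else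
    ∑ i ∈ Finset.range (M k), gg ((x : ℂ) ^ 3 / (rho k i : ℂ))

lemma arg_real (x : ℝ) (k i : ℕ) :
    (x : ℂ) ^ 3 / (rho k i : ℂ) = ((x ^ 3 / rho k i : ℝ) : ℂ) := by push_cast; ring

/-- constant -/
noncomputable def c1 : ℝ := Real.log 24 + 3 / 2

lemma c1_pos : 0 < c1 := by
  unfold c1
  have : 0 < Real.log 24 := Real.log_pos (by norm_num)
  linarith

/-- the dominating function with logarithmic singularity -/
noncomputable def b1 (y : ℝ) : ℝ :=
  (8 * CK (1 / 2) + 80 * c1) * bb y + 8 * (Ioo (0 : ℝ) 3).indicator (fun y => |Real.log (y - 1)|) y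

lemma b1_integrable : IntegrableOn b1 (Ioi 0) := by
  unfold b1
  refine (bb_integrable.const_mul _).add ?_
  have h1 : IntervalIntegrable (fun y : ℝ => Real.log (y - 1)) volume 0 3 := by
    have := (intervalIntegral.intervalIntegrable_log' (a := 0 - 1) (b := 3 - 1)).comp_sub_right 1
    simpa using this
  have h2 : IntegrableOn (fun y : ℝ => |Real.log (y - 1)|) (Ioo 0 3) := by
    exact IntegrableOn.mono_set h1.1.abs Ioo_subset_Ioc_self
  have h3 : Integrable ((Ioo (0 : ℝ) 3).indicator (fun y => |Real.log (y - 1)|)) :=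
    h2.integrable_indicator measurableSet_Ioo
  exact (h3.const_mul 8).integrableOn

lemma bb_nonneg (y : ℝ) : 0 ≤ bb y := by unfold bb; positivity

/-- key comparison: distance of `rho` to `x^3`. -/
lemma rho_dist (x t : ℝ) (hx : 2 ≤ x) (ht : 0 < t) (i : ℕ) (hi : i < 4 * (⌊t⌋₊ + 1) ^ 3)
    (hd : 1 / 2 ≤ |((⌊t⌋₊ : ℝ) + 1) - x|) :
    |t - x| * x ^ 2 / 12 ≤ |rho ⌊t⌋₊ i - x ^ 3| := by
  set K : ℝ := (⌊t⌋₊ : ℝ) + 1 with hK
  have hK0 : 0 < K := by positivity
  have htK : t < K := Nat.lt_floor_add_one t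
  have htK2 : K - 1 ≤ t := by
    have := Nat.floor_le ht.le
    rw [hK]; linarith
  have h1 := rho_ge ⌊t⌋₊ i
  have h2 := (rho_lt ⌊t⌋₊ i hi).le
  rw [← hK] at h1 h2
  have h3 : |t - x| ≤ 3 * |K - x| := by
    have : |t - x| ≤ |K - x| + 1 := by
      have h4 : t - x = (K - x) - (K - t) := by ring
      rw [h4]
      refine (abs_sub _ _).trans ?_
      have : |K - t| ≤ 1 := by rw [abs_le]; constructor <;> linarith
      linarith
    linarith
  have h5 : |K - x| * x ^ 2 / 4 ≤ |rho ⌊t⌋₊ i - x ^ 3| := by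
    rcases le_or_gt x K with h | h
    · rw [abs_of_nonneg (by linarith : 0 ≤ K - x)]
      refine le_trans ?_ (le_abs_self _)
      have h6 : (K - x) * x ^ 2 ≤ K ^ 3 - x ^ 3 := by
        have : K ^ 3 - x ^ 3 = (K - x) * (K ^ 2 + K * x + x ^ 2) := by ring
        rw [this]
        apply mul_le_mul_of_nonneg_left _ (by linarith)
        nlinarith [mul_pos hK0 (show 0 < x by linarith)]
      have h7 : 0 ≤ (K - x) * x ^ 2 := mul_nonneg (by linarith) (by positivity)
      linarith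
    · rw [abs_of_neg (by linarith : K - x < 0)] at hd ⊢
      rw [abs_sub_comm]
      refine le_trans ?_ (le_abs_self _)
      have h6 : (x - K) * x ^ 2 ≤ x ^ 3 - K ^ 3 := by
        have : x ^ 3 - K ^ 3 = (x - K) * (x ^ 2 + K * x + K ^ 2) := by ring
        rw [this]
        apply mul_le_mul_of_nonneg_left _ (by linarith)
        nlinarith [mul_pos hK0 (show 0 < x by linarith)]
      have h7 : (1 / 2) * 4 ≤ (x - K) * x ^ 2 := by
        apply mul_le_mul (by linarith) (by nlinarith) (by norm_num) (by linarith)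
      nlinarith
  calc |t - x| * x ^ 2 / 12 ≤ 3 * |K - x| * x ^ 2 / 12 := by gcongr
    _ = |K - x| * x ^ 2 / 4 := by ring
    _ ≤ _ := h5

lemma gg_near_bound (s : ℝ) (h : |1 - s| < 1 / 2) (L : ℝ) (hL : 0 < L) (hL2 : L ≤ |1 - s|) :
    |gg (s : ℂ)| ≤ -Real.log L + 3 / 2 := by
  rw [gg_real]
  have h0 : 0 < |1 - s| := lt_of_lt_of_le hL hL2
  have h1 : Real.log |1 - s| ≤ 0 := Real.log_nonpos h0.le (by linarith)
  have h2 : Real.log L ≤ Real.log |1 - s| := Real.log_le_log hL hL2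
  have h3 := (abs_lt.mp h)
  calc |(Real.log |1 - s|) + s| ≤ |(Real.log |1 - s|)| + |s| := abs_add_le _ _
    _ ≤ -Real.log L + 3 / 2 := by
        rw [abs_of_nonpos h1, abs_of_nonneg (by linarith [h3.1, h3.2] : 0 ≤ s)]
        linarith [h3.1, h3.2]

lemma gg_far_bound (s : ℝ) (hs : 0 ≤ s) (h : 1 / 2 ≤ |1 - s|) :
    |gg (s : ℂ)| ≤ CK (1 / 2) * min s (s ^ 2) := by
  have h1 : ‖(1 : ℂ) - (s : ℂ)‖ = |1 - s| := by
    rw [show (1 : ℂ) - (s : ℂ) = ((1 - s : ℝ) : ℂ) by push_cast; ring, Complex.norm_real,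
      Real.norm_eq_abs]
  rw [← gk_eq_gg (1 / 2) (s : ℂ) (by rw [h1]; exact h)]
  have h2 := abs_gk_le (1 / 2) (by norm_num) le_rfl (s : ℂ)
  rwa [Complex.norm_real, Real.norm_of_nonneg hs] at h2

lemma bsx_dom (M : ℕ → ℕ) (hM : ∀ k, M k ≤ 4 * (k + 1) ^ 3) (x : ℝ) (hx : 2 ≤ x) :
    Dom b1 x (bsx M x) := by
  intro t ht htx
  have hx0 : 0 < x := by linarith
  set k := ⌊t⌋₊ with hk
  have htK : t < (k : ℝ) + 1 := Nat.lt_floor_add_one t
  have hC := CK_pos (1 / 2) (by norm_num) le_rfl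
  have hbb := bb_nonneg (t / x)
  have hind : 0 ≤ (Ioo (0 : ℝ) 3).indicator (fun y => |Real.log (y - 1)|) (t / x) :=
    Set.indicator_nonneg (fun y _ => abs_nonneg _) _
  have hc1 := c1_pos
  unfold bsx
  by_cases hd : |((k : ℝ) + 1) - x| < 1 / 2
  · rw [if_pos hd, abs_zero]
    unfold b1
    positivity
  rw [if_neg hd]
  push Not at hd
  -- pointwise bound
  set K3 : ℝ := ((k : ℝ) + 1) ^ 3 with hK3
  have hK30 : 0 < K3 := by positivity
  set m : ℝ := min (x ^ 3 / K3) ((x ^ 3 / K3) ^ 2) with hm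
  have hm0 : 0 ≤ m := le_min (by positivity) (by positivity)
  set B : ℝ := if K3 ≤ 2 * x ^ 3 then c1 + |Real.log (t / x - 1)| else 0 with hB
  have hB0 : 0 ≤ B := by
    rw [hB]; split_ifs
    · positivity
    · exact le_rfl
  have hterm : ∀ i, i < M k → |gg ((x : ℂ) ^ 3 / (rho k i : ℂ))| ≤ CK (1 / 2) * m + B := by
    intro i hi
    have hi' : i < 4 * (k + 1) ^ 3 := lt_of_lt_of_le hi (hM k)
    have hr0 := rho_pos k i
    have hrge := rho_ge k i
    rw [arg_real]
    set s : ℝ := x ^ 3 / rho k i with hs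
    have hs0 : 0 ≤ s := by positivity
    have hsK : s ≤ x ^ 3 / K3 := by rw [hs]; gcongr
    rcases le_or_gt (1 / 2) |1 - s| with h | h
    · have h1 := gg_far_bound s hs0 h
      have h2 : min s (s ^ 2) ≤ m := by
        rw [hm]; exact min_le_min hsK (by gcongr)
      calc |gg (s : ℂ)| ≤ CK (1 / 2) * min s (s ^ 2) := h1
        _ ≤ CK (1 / 2) * m := by gcongr
        _ ≤ _ := by linarith
    · have h3 := rho_dist x t hx ht i hi' hd
      rw [← hk] at h3
      have hs1 := abs_lt.mp h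
      have hrle : rho k i ≤ 2 * x ^ 3 := by
        have : 1 / 2 < x ^ 3 / rho k i := by rw [← hs]; linarith [hs1.1, hs1.2]
        rw [lt_div_iff₀ hr0] at this
        linarith
      have hcase : K3 ≤ 2 * x ^ 3 := hrge.trans hrle
      have hdist : |t / x - 1| / 24 ≤ |1 - s| := by
        have e1 : 1 - s = (rho k i - x ^ 3) / rho k i := by rw [hs]; field_simp
        rw [e1, abs_div, abs_of_pos hr0, le_div_iff₀ hr0]
        refine le_trans ?_ h3
        have e2 : |t / x - 1| = |t - x| / x := by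
          rw [show t / x - 1 = (t - x) / x by field_simp, abs_div, abs_of_pos hx0]
        rw [e2]
        calc |t - x| / x / 24 * rho k i ≤ |t - x| / x / 24 * (2 * x ^ 3) := by gcongr
          _ = |t - x| * x ^ 2 / 12 := by field_simp; ring
      have hB' : B = c1 + |Real.log (t / x - 1)| := by rw [hB, if_pos hcase]
      have hz : |t / x - 1| ≠ 0 := by
        intro hz
        apply htx
        have h4 : t / x - 1 = 0 := abs_eq_zero.mp hz
        field_simp at h4
        linarith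
      have hpos : 0 < |t / x - 1| / 24 := by positivity
      have h5 := gg_near_bound s h _ hpos hdist
      have h6 : -Real.log (|t / x - 1| / 24) = Real.log 24 - Real.log (t / x - 1) := by
        rw [Real.log_div hz (by norm_num), Real.log_abs]; ring
      rw [h6] at h5
      rw [hB']
      have h7 : -Real.log (t / x - 1) ≤ |Real.log (t / x - 1)| := neg_le_abs _
      have h8 : 0 ≤ CK (1 / 2) * m := by positivity
      unfold c1
      linarith
  have hsum : |∑ i ∈ Finset.range (M k), gg ((x : ℂ) ^ 3 / (rho k i : ℂ))|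
      ≤ 4 * K3 * (CK (1 / 2) * m) + 4 * K3 * B := by
    calc |∑ i ∈ Finset.range (M k), gg ((x : ℂ) ^ 3 / (rho k i : ℂ))|
        ≤ ∑ i ∈ Finset.range (M k), |gg ((x : ℂ) ^ 3 / (rho k i : ℂ))| :=
          Finset.abs_sum_le_sum_abs _ _
      _ ≤ ∑ i ∈ Finset.range (M k), (CK (1 / 2) * m + B) :=
          Finset.sum_le_sum fun i hi => hterm i (Finset.mem_range.mp hi)
      _ = (M k : ℝ) * (CK (1 / 2) * m + B) := by
          rw [Finset.sum_const, Finset.card_range, nsmul_eq_mul]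
      _ ≤ 4 * K3 * (CK (1 / 2) * m + B) := by
          have : (M k : ℝ) ≤ 4 * K3 := by rw [hK3]; exact_mod_cast hM k
          gcongr
      _ = _ := by ring
  have h1 := dom_aux (CK (1 / 2)) hC.le x t hx0 ht
  rw [← hk, ← hK3, ← hm] at h1
  have h2 : 4 * K3 * B ≤ x ^ 3 * (80 * c1 * bb (t / x)
      + 8 * (Ioo (0 : ℝ) 3).indicator (fun y => |Real.log (y - 1)|) (t / x)) := by
    by_cases hcase : K3 ≤ 2 * x ^ 3
    · have htx3 : t / x < 3 := by
        rw [div_lt_iff₀ hx0]
        by_contra hcon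
        push Not at hcon
        have h4 : 3 * x < (k : ℝ) + 1 := lt_of_le_of_lt hcon htK
        have h5 : (3 * x) ^ 3 < K3 := by rw [hK3]; gcongr
        nlinarith [pow_pos hx0 3]
      have htx0 : 0 < t / x := by positivity
      have hmem : t / x ∈ Ioo (0 : ℝ) 3 := ⟨htx0, htx3⟩
      rw [Set.indicator_of_mem hmem, hB, if_pos hcase]
      have hbb2 : 1 / 10 ≤ bb (t / x) := by
        unfold bb
        rw [inv_eq_one_div, div_le_div_iff₀ (by norm_num) (by positivity)]
        nlinarith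
      have h5 : 4 * K3 ≤ 8 * x ^ 3 := by linarith
      calc 4 * K3 * (c1 + |Real.log (t / x - 1)|)
          ≤ 8 * x ^ 3 * (c1 + |Real.log (t / x - 1)|) := by gcongr
        _ = x ^ 3 * (80 * c1 * (1 / 10) + 8 * |Real.log (t / x - 1)|) := by ring
        _ ≤ x ^ 3 * (80 * c1 * bb (t / x) + 8 * |Real.log (t / x - 1)|) := by gcongr
    · rw [hB, if_neg hcase, mul_zero]
      positivity
  calc |∑ i ∈ Finset.range (M k), gg ((x : ℂ) ^ 3 / (rho k i : ℂ))|
      ≤ 4 * K3 * (CK (1 / 2) * m) + 4 * K3 * B := hsum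
    _ ≤ x ^ 3 * (8 * CK (1 / 2) * bb (t / x)) + x ^ 3 * (80 * c1 * bb (t / x)
      + 8 * (Ioo (0 : ℝ) 3).indicator (fun y => |Real.log (y - 1)|) (t / x)) := add_le_add h1 h2
    _ = x ^ 3 * b1 (t / x) := by unfold b1; ring

/-- limit integrand on the positive ray -/
noncomputable def q0 (y : ℝ) : ℝ := 4 * y ^ 3 * gg (((y ^ 3)⁻¹ : ℝ) : ℂ)

lemma q0_eq_qk (κ y : ℝ) (h : κ ≤ |1 - (y ^ 3)⁻¹|) : q0 y = qk κ 1 y := by
  unfold q0 qk
  rw [mul_one, gk_eq_gg]
  rw [show (1 : ℂ) - (((y ^ 3)⁻¹ : ℝ) : ℂ) = ((1 - (y ^ 3)⁻¹ : ℝ) : ℂ) by push_cast; ring,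
    Complex.norm_real, Real.norm_eq_abs]
  exact h

lemma abs_q0_le (y : ℝ) (hy : 0 < y) (hy1 : y ≠ 1) : |q0 y| ≤ b1 y := by
  have hC := CK_pos (1 / 2) (by norm_num) le_rfl
  have hbb := bb_nonneg y
  have hc1 := c1_pos
  have hind : 0 ≤ (Ioo (0 : ℝ) 3).indicator (fun y => |Real.log (y - 1)|) y :=
    Set.indicator_nonneg (fun y _ => abs_nonneg _) _
  rcases le_or_gt (1 / 2) |1 - (y ^ 3)⁻¹| with h | h
  · rw [q0_eq_qk (1 / 2) y h]
    refine (abs_qk_le (1 / 2) (by norm_num) le_rfl 1 (by simp) y hy).trans ?_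
    unfold b1
    have : 0 ≤ 80 * c1 * bb y := by positivity
    nlinarith
  · have h3 := abs_lt.mp h
    have hy3 : 0 < y ^ 3 := by positivity
    have h4 : y ^ 3 < 2 := by
      have : 1 / 2 < (y ^ 3)⁻¹ := by linarith [h3.2]
      rw [inv_eq_one_div, lt_div_iff₀ hy3] at this
      linarith
    have hy3' : y < 3 := by
      by_contra hcon
      push Not at hcon
      have : (3 : ℝ) ^ 3 ≤ y ^ 3 := by gcongr
      linarith
    have hpos : 0 < |y - 1| / 24 := by
      have : y - 1 ≠ 0 := sub_ne_zero.mpr hy1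
      positivity
    have hdist : |y - 1| / 24 ≤ |1 - (y ^ 3)⁻¹| := by
      have e1 : 1 - (y ^ 3)⁻¹ = (y - 1) * (y ^ 2 + y + 1) / y ^ 3 := by field_simp; ring
      rw [e1, abs_div, abs_mul, abs_of_pos hy3, abs_of_pos (show 0 < y ^ 2 + y + 1 by positivity),
        le_div_iff₀ hy3]
      have : 0 ≤ |y - 1| := abs_nonneg _
      calc |y - 1| / 24 * y ^ 3 ≤ |y - 1| / 24 * 2 := by gcongr
        _ ≤ |y - 1| * 1 := by linarith
        _ ≤ |y - 1| * (y ^ 2 + y + 1) := by gcongr; nlinarith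
    have h5 := gg_near_bound _ h _ hpos hdist
    have hz : |y - 1| ≠ 0 := by positivity
    have h6 : -Real.log (|y - 1| / 24) = Real.log 24 - Real.log (y - 1) := by
      rw [Real.log_div hz (by norm_num), Real.log_abs]; ring
    rw [h6] at h5
    have h7 : -Real.log (y - 1) ≤ |Real.log (y - 1)| := neg_le_abs _
    have h8 : |gg (((y ^ 3)⁻¹ : ℝ) : ℂ)| ≤ c1 + |Real.log (y - 1)| := by unfold c1; linarith
    unfold q0 b1
    rw [Set.indicator_of_mem (show y ∈ Ioo (0 : ℝ) 3 from ⟨hy, hy3'⟩), abs_mul,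
      abs_of_pos (show 0 < 4 * y ^ 3 by positivity)]
    have hbb2 : 1 / 10 ≤ bb y := by
      unfold bb
      rw [inv_eq_one_div, div_le_div_iff₀ (by norm_num) (by positivity)]
      nlinarith
    calc 4 * y ^ 3 * |gg (((y ^ 3)⁻¹ : ℝ) : ℂ)| ≤ 4 * 2 * (c1 + |Real.log (y - 1)|) := by gcongr
      _ = 80 * c1 * (1 / 10) + 8 * |Real.log (y - 1)| := by ring
      _ ≤ (8 * CK (1 / 2) + 80 * c1) * bb y + 8 * |Real.log (y - 1)| := by
          have : 80 * c1 * (1 / 10) ≤ 80 * c1 * bb y := by gcongr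
          have h9 : 0 ≤ 8 * CK (1 / 2) * bb y := by positivity
          nlinarith

lemma q0_measurable : Measurable q0 := by
  unfold q0 gg
  apply Measurable.mul (by fun_prop)
  apply Measurable.add
  · apply Real.measurable_log.comp
    fun_prop
  · fun_prop

lemma q0_integrable : IntegrableOn q0 (Ioi 0) := by
  refine b1_integrable.mono' q0_measurable.aestronglyMeasurable ?_
  rw [ae_restrict_iff' measurableSet_Ioi]
  filter_upwards [ae_ne_real 1] with y hy1 hy
  rw [Real.norm_eq_abs]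
  exact abs_q0_le y hy hy1

/-- the constant for the positive ray -/
noncomputable def Q0 : ℝ := ∫ y in Ioi (0 : ℝ), q0 y

theorem asym_excl (M : ℕ → ℕ) (w : ℝ → ℝ) (hMw : Wt M w) :
    Tendsto (fun x : ℝ => (∑' k, bsx M x k) / x ^ 4 - w x * Q0) atTop (𝓝 0) := by
  unfold Q0
  refine riemann_sum (fun x k => bsx M x k) w q0 b1 hMw.hw b1_integrable q0_integrable ?_ ?_
  · filter_upwards [eventually_ge_atTop 2] with x hx
    exact bsx_dom M hMw.hM x hx
  · intro y hy hy1
    have hs : 0 < |1 - (y ^ 3)⁻¹| := by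
      rw [abs_pos, sub_ne_zero]
      intro h
      have h1 : y ^ 3 = 1 := by
        have : y ^ 3 ≠ 0 := by positivity
        field_simp at h
        linarith
      apply hy1
      have h2 : (y - 1) * (y ^ 2 + y + 1) = 0 := by nlinarith
      rcases mul_eq_zero.mp h2 with h3 | h3
      · linarith
      · nlinarith [sq_nonneg y]
    set κ : ℝ := min (1 / 2) (|1 - (y ^ 3)⁻¹| / 2) with hκdef
    have hκ : 0 < κ := lt_min (by norm_num) (by positivity)
    have hκ3 : κ ≤ |1 - (y ^ 3)⁻¹| / 2 := min_le_right _ _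
    have h1 := bs_tendsto κ hκ 1 (by simp) M w hMw y hy
    refine h1.congr' ?_
    have hfar : ∀ᶠ x : ℝ in atTop, 1 / 2 ≤ |((⌊x * y⌋₊ : ℝ) + 1) - x| := by
      have h2 := tendsto_floor_div y hy
      have h3 : Tendsto (fun x : ℝ => |((⌊x * y⌋₊ : ℝ) + 1) / x - 1|) atTop (𝓝 |y - 1|) :=
        (h2.sub_const 1).abs
      have hy1' : 0 < |y - 1| := abs_pos.mpr (sub_ne_zero.mpr hy1)
      filter_upwards [h3.eventually_const_lt (half_lt_self hy1'),
        eventually_ge_atTop (1 / |y - 1|), eventually_gt_atTop 0] with x hx1 hx2 hx0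
      have e1 : ((⌊x * y⌋₊ : ℝ) + 1) / x - 1 = (((⌊x * y⌋₊ : ℝ) + 1) - x) / x := by field_simp
      rw [e1, abs_div, abs_of_pos hx0, lt_div_iff₀ hx0] at hx1
      have : 1 ≤ x * |y - 1| := by
        rw [div_le_iff₀ hy1'] at hx2; exact hx2
      linarith
    filter_upwards [hfar, arg_close y hy κ hκ] with x hx1 hx2
    have e1 : bsx M x ⌊x * y⌋₊ = bs κ 1 M x ⌊x * y⌋₊ := by
      unfold bsx bs
      rw [if_neg (not_lt.mpr hx1)]
      refine Finset.sum_congr rfl fun i hi => ?_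
      have hi' : i < 4 * (⌊x * y⌋₊ + 1) ^ 3 :=
        lt_of_lt_of_le (Finset.mem_range.mp hi) (hMw.hM _)
      rw [mul_one, gk_eq_gg]
      rw [arg_real, show (1 : ℂ) - ((x ^ 3 / rho ⌊x * y⌋₊ i : ℝ) : ℂ)
        = ((1 - x ^ 3 / rho ⌊x * y⌋₊ i : ℝ) : ℂ) by push_cast; ring, Complex.norm_real,
        Real.norm_eq_abs]
      have h5 := hx2 i hi'
      have h6 : |1 - (y ^ 3)⁻¹| ≤ |1 - x ^ 3 / rho ⌊x * y⌋₊ i| + |x ^ 3 / rho ⌊x * y⌋₊ i - (y ^ 3)⁻¹| := by
        refine le_trans (le_of_eq ?_) (abs_add_le _ _)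
        ring_nf
      linarith
    have e2 : q0 y = 4 * y ^ 3 * gk κ (((y ^ 3)⁻¹ : ℝ) * 1) := by
      rw [q0_eq_qk κ y (by linarith)]; rfl
    rw [e1, e2]

/-- the truncated constants approach `Q0` -/
theorem exists_trunc (ε : ℝ) (hε : 0 < ε) : ∃ κ : ℝ, 0 < κ ∧ κ ≤ 1 / 2 ∧ QQ κ 1 ≤ Q0 + ε := by
  have key : Tendsto (fun n : ℕ => ∫ y in Ioi (0 : ℝ), qk (1 / ((n : ℝ) + 2)) 1 y) atTop
      (𝓝 (∫ y in Ioi (0 : ℝ), q0 y)) := by
    refine tendsto_integral_of_dominated_convergence (fun y => |q0 y| + |qk (1 / 2) 1 y|)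
      (fun n => (qk_measurable _ (by positivity) 1).aestronglyMeasurable) ?_ ?_ ?_
    · exact q0_integrable.abs.add (qk_integrable (1 / 2) (by norm_num) le_rfl 1 (by simp)).abs
    · intro n
      rw [ae_restrict_iff' measurableSet_Ioi]
      filter_upwards [ae_ne_real 1] with y hy1 hy
      have hy : 0 < y := hy
      rw [Real.norm_eq_abs]
      have hne : (((y ^ 3)⁻¹ : ℝ) : ℂ) ≠ 1 := by
        intro h
        have h' : (y ^ 3)⁻¹ = 1 := by exact_mod_cast h
        have h1 : y ^ 3 = 1 := by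
          have : y ^ 3 ≠ 0 := by positivity
          field_simp at h'
          linarith
        apply hy1
        have h2 : (y - 1) * (y ^ 2 + y + 1) = 0 := by nlinarith
        rcases mul_eq_zero.mp h2 with h3 | h3
        · linarith
        · nlinarith [sq_nonneg y]
      have h1 : q0 y ≤ qk (1 / ((n : ℝ) + 2)) 1 y := by
        unfold q0 qk
        rw [mul_one]
        gcongr
        exact gg_le_gk _ _ hne
      have h2 : qk (1 / ((n : ℝ) + 2)) 1 y ≤ qk (1 / 2) 1 y := by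
        unfold qk gk
        have h3 : (1 : ℝ) / ((n : ℝ) + 2) ≤ 1 / 2 := by
          have : (0 : ℝ) ≤ n := Nat.cast_nonneg n
          gcongr; linarith
        have h4 : Real.log (max ‖1 - (((y ^ 3)⁻¹ : ℝ) : ℂ) * 1‖ (1 / ((n : ℝ) + 2)))
            ≤ Real.log (max ‖1 - (((y ^ 3)⁻¹ : ℝ) : ℂ) * 1‖ (1 / 2)) := by
          apply Real.log_le_log
          · exact lt_of_lt_of_le (by positivity) (le_max_right _ _)
          · exact max_le_max le_rfl h3
        gcongr
      rw [abs_le]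
      constructor
      · linarith [neg_abs_le (q0 y), abs_nonneg (qk (1 / 2) 1 y)]
      · linarith [le_abs_self (qk (1 / 2) 1 y), abs_nonneg (q0 y)]
    · rw [ae_restrict_iff' measurableSet_Ioi]
      filter_upwards [ae_ne_real 1] with y hy1 hy
      have hy : 0 < y := hy
      have hs : 0 < |1 - (y ^ 3)⁻¹| := by
        rw [abs_pos, sub_ne_zero]
        intro h
        have h1 : y ^ 3 = 1 := by
          have : y ^ 3 ≠ 0 := by positivity
          field_simp at h
          linarith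
        apply hy1
        have h2 : (y - 1) * (y ^ 2 + y + 1) = 0 := by nlinarith
        rcases mul_eq_zero.mp h2 with h3 | h3
        · linarith
        · nlinarith [sq_nonneg y]
      refine tendsto_const_nhds.congr' ?_
      have h1 : Tendsto (fun n : ℕ => 1 / ((n : ℝ) + 2)) atTop (𝓝 0) := by
        have := tendsto_one_div_add_atTop_nhds_zero_nat (𝕜 := ℝ)
        refine squeeze_zero (fun n => by positivity) (fun n => ?_) this
        gcongr; norm_num
      filter_upwards [h1.eventually_lt_const hs] with n hn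
      exact q0_eq_qk _ y hn.le
  have h2 := key.eventually_lt_const (show (∫ y in Ioi (0 : ℝ), q0 y) < Q0 + ε by
    unfold Q0; linarith)
  obtain ⟨n, hn⟩ := h2.exists
  refine ⟨1 / ((n : ℝ) + 2), by positivity, ?_, ?_⟩
  · have : (0 : ℝ) ≤ n := Nat.cast_nonneg n
    gcongr; linarith
  · unfold QQ; exact hn.le

end Pool.Agent.H574Leontev
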