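import Pool.Agent.H574Leontev.Pos

set_option autoImplicit false
open Filter Topology MeasureTheory Set

namespace Pool.Agent.H574Leontev

/-- the growth property at exponent `4/3` -/
def IsInd (F : ℝ → ℝ) (H : ℝ) : Prop :=
  ∀ ε : ℝ, 0 < ε → (∀ᶠ r : ℝ in atTop, F r ≤ Real.exp ((H + ε) * r ^ ((4 : ℝ) / 3))) ∧
    (∃ᶠ r : ℝ in atTop, Real.exp ((H - ε) * r ^ ((4 : ℝ) / 3)) ≤ F r)

lemma IsInd.le_of_frequently {F : ℝ → ℝ} {H c : ℝ} (h : IsInd F H)
    (hc : ∃ᶠ r : ℝ in atTop, Real.exp (c * r ^ ((4 : ℝ) / 3)) ≤ F r) : c ≤ H := by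
  by_contra hcon
  push Not at hcon
  have h1 := (h ((c - H) / 2) (by linarith)).1
  obtain ⟨r, hr1, hr2, hr3⟩ := (hc.and_eventually (h1.and (eventually_gt_atTop 0))).exists
  have h2 := hr1.trans hr2
  rw [Real.exp_le_exp] at h2
  have h3 : 0 < r ^ ((4 : ℝ) / 3) := by positivity
  nlinarith

lemma IsInd.ge_of_eventually {F : ℝ → ℝ} {H c : ℝ} (h : IsInd F H)
    (hc : ∀ᶠ r : ℝ in atTop, F r ≤ Real.exp (c * r ^ ((4 : ℝ) / 3))) : H ≤ c := by
  by_contra hcon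
  push Not at hcon
  have h1 := (h ((H - c) / 2) (by linarith)).2
  obtain ⟨r, hr1, hr2, hr3⟩ := (h1.and_eventually (hc.and (eventually_gt_atTop 0))).exists
  have h2 := hr1.trans hr2
  rw [Real.exp_le_exp] at h2
  have h3 : 0 < r ^ ((4 : ℝ) / 3) := by positivity
  nlinarith

lemma IsInd.unique {F : ℝ → ℝ} {H H' : ℝ} (h : IsInd F H) (h' : IsInd F H') : H = H' := by
  apply le_antisymm
  · apply le_of_forall_pos_le_add
    intro ε hε
    exact h.ge_of_eventually (h' ε hε).1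
  · apply le_of_forall_pos_le_add
    intro ε hε
    exact h'.ge_of_eventually (h ε hε).1

lemma exists_ind (F : ℝ → ℝ) (C c : ℝ)
    (hU : ∀ᶠ r : ℝ in atTop, F r ≤ Real.exp (C * r ^ ((4 : ℝ) / 3)))
    (hL : ∃ᶠ r : ℝ in atTop, Real.exp (c * r ^ ((4 : ℝ) / 3)) ≤ F r) : ∃ H, IsInd F H := by
  set S : Set ℝ := {s | ∀ᶠ r : ℝ in atTop, F r ≤ Real.exp (s * r ^ ((4 : ℝ) / 3))} with hS
  have hne : S.Nonempty := ⟨C, hU⟩
  have hbd : BddBelow S := by
    refine ⟨c, fun s hs => ?_⟩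
    by_contra hcon
    push Not at hcon
    obtain ⟨r, hr1, hr2, hr3⟩ := (hL.and_eventually (hs.and (eventually_gt_atTop 0))).exists
    have h2 := hr1.trans hr2
    rw [Real.exp_le_exp] at h2
    have h3 : 0 < r ^ ((4 : ℝ) / 3) := by positivity
    nlinarith
  refine ⟨sInf S, fun ε hε => ⟨?_, ?_⟩⟩
  · obtain ⟨s, hs, hs2⟩ := exists_lt_of_csInf_lt hne (lt_add_of_pos_right (sInf S) hε)
    have hs' : ∀ᶠ r : ℝ in atTop, F r ≤ Real.exp (s * r ^ ((4 : ℝ) / 3)) := hs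
    filter_upwards [hs', eventually_gt_atTop 0] with r hr hr0
    refine hr.trans ?_
    rw [Real.exp_le_exp]
    have h3 : 0 < r ^ ((4 : ℝ) / 3) := by positivity
    gcongr
  · by_contra hcon
    rw [not_frequently] at hcon
    have : sInf S - ε ∈ S := by
      rw [hS]
      filter_upwards [hcon] with r hr
      exact (not_le.mp hr).le
    have := csInf_le hbd this
    linarith

lemma cube_rpow (x : ℝ) (hx : 0 ≤ x) : (x ^ 3) ^ ((4 : ℝ) / 3) = x ^ 4 := by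
  rw [← Real.rpow_natCast x 3, ← Real.rpow_mul hx, ← Real.rpow_natCast x 4]; norm_num

lemma eventually_cube {P : ℝ → Prop} (h : ∀ᶠ x : ℝ in atTop, P (x ^ 3)) : ∀ᶠ r : ℝ in atTop, P r := by
  have h1 : Tendsto (fun r : ℝ => r ^ ((1 : ℝ) / 3)) atTop atTop :=
    tendsto_rpow_atTop (by norm_num)
  filter_upwards [h1.eventually h, eventually_ge_atTop 0] with r hr hr0
  have : (r ^ ((1 : ℝ) / 3)) ^ 3 = r := by
    rw [← Real.rpow_natCast, ← Real.rpow_mul hr0]; norm_num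
  rwa [this] at hr

lemma frequently_cube {P : ℝ → Prop} (h : ∃ᶠ x : ℝ in atTop, P (x ^ 3)) : ∃ᶠ r : ℝ in atTop, P r :=
  (tendsto_pow_atTop (α := ℝ) (n := 3) (by norm_num)).frequently h

lemma FF_growth (b : ℕ) : ∃ C : ℝ, 1 ≤ C ∧ ∀ z : ℂ, ‖FF b z‖ ≤ Real.exp (C * ‖z‖ ^ ((4 : ℝ) / 3)) := by
  set C1 : ℝ := ∫ y in Ioi (0 : ℝ), 8 * CK (1 / 2) * bb y with hC1
  refine ⟨max 1 (4 * C1), le_max_left _ _, fun z => ?_⟩
  unfold FF
  rw [norm_mul, norm_mul, norm_mul]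
  have g0 := phi_growth (Mw b) (Mw_le b) z
  have g1 := phi_growth (Mw (b + 1)) (Mw_le (b + 1)) (-Complex.I * z)
  have g2 := phi_growth (Mw (b + 2)) (Mw_le (b + 2)) (-z)
  have g3 := phi_growth (Mw (b + 3)) (Mw_le (b + 3)) (Complex.I * z)
  rw [show ‖-Complex.I * z‖ = ‖z‖ by simp] at g1
  rw [norm_neg] at g2
  rw [show ‖Complex.I * z‖ = ‖z‖ by simp] at g3
  rw [← hC1] at g0 g1 g2 g3
  have ht : 0 ≤ ‖z‖ ^ ((4 : ℝ) / 3) := by positivity
  calc _ ≤ Real.exp (C1 * ‖z‖ ^ ((4 : ℝ) / 3)) * Real.exp (C1 * ‖z‖ ^ ((4 : ℝ) / 3))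
        * Real.exp (C1 * ‖z‖ ^ ((4 : ℝ) / 3)) * Real.exp (C1 * ‖z‖ ^ ((4 : ℝ) / 3)) := by gcongr
    _ = Real.exp (4 * C1 * ‖z‖ ^ ((4 : ℝ) / 3)) := by
        rw [← Real.exp_add, ← Real.exp_add, ← Real.exp_add]; congr 1; ring
    _ ≤ _ := by
        rw [Real.exp_le_exp]
        gcongr
        exact le_max_right _ _

lemma norm_dir (φ : ℝ) : ‖Complex.exp ((φ : ℂ) * Complex.I)‖ = 1 := Complex.norm_exp_ofReal_mul_I φ

lemma f_lower (φ : ℝ) : ∃ c : ℝ, 0 < c ∧ ∃ᶠ r : ℝ in atTop,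
    Real.exp (c * r ^ ((4 : ℝ) / 3)) ≤ ‖FF 0 ((r : ℂ) * Complex.exp ((φ : ℂ) * Complex.I))‖ := by
  obtain ⟨c, hc, hf⟩ := FF_lower _ (norm_dir φ)
  refine ⟨c, hc, frequently_cube ?_⟩
  refine (hf.and_eventually (eventually_ge_atTop 0)).mono ?_
  rintro x ⟨hx, hx0⟩
  rw [cube_rpow x hx0]
  push_cast
  exact hx

lemma f_ind (φ : ℝ) : ∃ H, IsInd (fun r : ℝ => ‖FF 0 ((r : ℂ) * Complex.exp ((φ : ℂ) * Complex.I))‖) H := by
  obtain ⟨C, hC1, hC⟩ := FF_growth 0
  obtain ⟨c, hc, hf⟩ := f_lower φ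
  refine exists_ind _ C c ?_ hf
  filter_upwards [eventually_ge_atTop 0] with r hr
  have := hC ((r : ℂ) * Complex.exp ((φ : ℂ) * Complex.I))
  rwa [norm_mul, norm_dir, mul_one, Complex.norm_real, Real.norm_of_nonneg hr] at this

lemma f_deriv_upper (φ : ℝ) : ∃ C : ℝ, ∀ᶠ r : ℝ in atTop,
    ‖deriv (FF 0) ((r : ℂ) * Complex.exp ((φ : ℂ) * Complex.I))‖ ≤ Real.exp (C * r ^ ((4 : ℝ) / 3)) := by
  obtain ⟨C, hC1, hC⟩ := FF_growth 0
  refine ⟨C * 2 ^ ((4 : ℝ) / 3), ?_⟩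
  filter_upwards [eventually_ge_atTop 1] with r hr
  set z : ℂ := (r : ℂ) * Complex.exp ((φ : ℂ) * Complex.I) with hz
  have hzn : ‖z‖ = r := by
    rw [hz, norm_mul, norm_dir, mul_one, Complex.norm_real, Real.norm_of_nonneg (by linarith)]
  have h1 := Complex.norm_deriv_le_of_forall_mem_sphere_norm_le (c := z) (R := 1)
    (C := Real.exp (C * 2 ^ ((4 : ℝ) / 3) * r ^ ((4 : ℝ) / 3))) (f := FF 0) one_pos
    (FF_differentiable 0).diffContOnCl ?_
  · rwa [div_one] at h1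
  · intro w hw
    have hw1 : ‖w - z‖ = 1 := by rw [← dist_eq_norm]; exact hw
    have hwn : ‖w‖ ≤ 2 * r := by
      calc ‖w‖ = ‖(w - z) + z‖ := by ring_nf
        _ ≤ ‖w - z‖ + ‖z‖ := norm_add_le _ _
        _ ≤ 2 * r := by rw [hw1, hzn]; linarith
    refine (hC w).trans ?_
    rw [Real.exp_le_exp, mul_assoc, ← Real.mul_rpow (by norm_num) (by linarith)]
    gcongr

lemma f_deriv_lower (φ : ℝ) : ∃ᶠ r : ℝ in atTop, Real.exp (0 * r ^ ((4 : ℝ) / 3)) ≤
    ‖deriv (FF 0) ((r : ℂ) * Complex.exp ((φ : ℂ) * Complex.I))‖ := by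
  by_contra hcon
  rw [not_frequently, eventually_atTop] at hcon
  obtain ⟨r0, hr0⟩ := hcon
  set e : ℂ := Complex.exp ((φ : ℂ) * Complex.I) with he
  have hen : ‖e‖ = 1 := norm_dir φ
  have hd : ∀ r : ℝ, HasDerivAt (fun r : ℝ => FF 0 ((r : ℂ) * e)) (deriv (FF 0) ((r : ℂ) * e) * e) r := by
    intro r
    have h1 : HasDerivAt (FF 0) (deriv (FF 0) ((r : ℂ) * e)) ((r : ℂ) * e) :=
      (FF_differentiable 0 _).hasDerivAt
    have h2 : HasDerivAt (fun r : ℝ => (r : ℂ) * e) e r := by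
      have := (Complex.ofRealCLM.hasDerivAt (x := r)).mul_const e
      simpa using this
    exact h1.comp_of_eq r h2 rfl |>.congr_deriv (by ring)
  obtain ⟨c, hc, hf⟩ := f_lower φ
  set A : ℝ := ‖FF 0 ((r0 : ℂ) * e)‖ + |r0| with hA
  have hA0 : 0 ≤ A := by positivity
  have hb : ∀ r : ℝ, r0 ≤ r → ‖FF 0 ((r : ℂ) * e)‖ ≤ A + r := by
    intro r hr
    have h1 := (convex_Ici r0).norm_image_sub_le_of_norm_hasDerivWithin_le (C := 1)
      (f := fun r : ℝ => FF 0 ((r : ℂ) * e))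
      (fun x _ => (hd x).hasDerivWithinAt) (fun x hx => by
        have := hr0 x hx
        rw [zero_mul, Real.exp_zero, not_le] at this
        rw [norm_mul, hen, mul_one]
        exact this.le) (show r0 ∈ Ici r0 from Set.mem_Ici.mpr le_rfl) (show r ∈ Ici r0 from hr)
    rw [one_mul, Real.norm_of_nonneg (by linarith)] at h1
    have h2 : ‖FF 0 ((r : ℂ) * e)‖ ≤ ‖FF 0 ((r : ℂ) * e) - FF 0 ((r0 : ℂ) * e)‖
        + ‖FF 0 ((r0 : ℂ) * e)‖ := by
      have := norm_add_le (FF 0 ((r : ℂ) * e) - FF 0 ((r0 : ℂ) * e)) (FF 0 ((r0 : ℂ) * e))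
      rwa [sub_add_cancel] at this
    have h3 := neg_abs_le r0
    rw [hA]
    linarith
  obtain ⟨r, hr1, hr2⟩ := (hf.and_eventually (eventually_ge_atTop
    (max (max r0 1) (4 / c ^ 2 * (A + 1))))).exists
  have hrr0 : r0 ≤ r := (le_max_left _ _).trans ((le_max_left _ _).trans hr2)
  have hr1' : 1 ≤ r := (le_max_right _ _).trans ((le_max_left _ _).trans hr2)
  have hr3 : 4 / c ^ 2 * (A + 1) ≤ r := (le_max_right _ _).trans hr2
  have h1 := hr1.trans (hb r hrr0)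
  have h2 : r ≤ r ^ ((4 : ℝ) / 3) := by
    calc r = r ^ (1 : ℝ) := (Real.rpow_one r).symm
      _ ≤ r ^ ((4 : ℝ) / 3) := Real.rpow_le_rpow_of_exponent_le hr1' (by norm_num)
  have h3 : Real.exp (c * r) ≤ Real.exp (c * r ^ ((4 : ℝ) / 3)) := by
    rw [Real.exp_le_exp]; gcongr
  have h4 := Real.quadratic_le_exp_of_nonneg (show 0 ≤ c * r by positivity)
  have h5 : 2 * r * (A + 1) ≤ (c * r) ^ 2 / 2 := by
    have : 2 * r * (A + 1) = c ^ 2 / 2 * r * (4 / c ^ 2 * (A + 1)) := by field_simp; ring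
    rw [this]
    calc c ^ 2 / 2 * r * (4 / c ^ 2 * (A + 1)) ≤ c ^ 2 / 2 * r * r := by gcongr
      _ = _ := by ring
  have h6 : 0 ≤ c * r := by positivity
  nlinarith

lemma f_deriv_ind (φ : ℝ) :
    ∃ H, IsInd (fun r : ℝ => ‖deriv (FF 0) ((r : ℂ) * Complex.exp ((φ : ℂ) * Complex.I))‖) H := by
  obtain ⟨C, hC⟩ := f_deriv_upper φ
  exact exists_ind _ C 0 hC (f_deriv_lower φ)

lemma deriv_rot (b : ℕ) (u : ℂ) : ‖deriv (FF b) u‖ = ‖deriv (FF 0) (Complex.I ^ b * u)‖ := by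
  have h1 : FF b = fun u => FF 0 (Complex.I ^ b * u) := by
    funext u; exact (FF_pow b u).symm
  have h2 : HasDerivAt (fun u => FF 0 (Complex.I ^ b * u))
      (deriv (FF 0) (Complex.I ^ b * u) * Complex.I ^ b) u := by
    have h3 : HasDerivAt (FF 0) (deriv (FF 0) (Complex.I ^ b * u)) (Complex.I ^ b * u) :=
      (FF_differentiable 0 _).hasDerivAt
    have h4 : HasDerivAt (fun u : ℂ => Complex.I ^ b * u) (Complex.I ^ b) u := by
      simpa using (hasDerivAt_id u).const_mul (Complex.I ^ b)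
    exact HasDerivAt.comp (h₂ := FF 0) (h := fun u : ℂ => Complex.I ^ b * u) u h3 h4
  rw [h1, h2.deriv, norm_mul]
  simp

/-- the argument of `I^b` -/
noncomputable def ang (b : ℕ) : ℝ := Complex.arg (Complex.I ^ b)

lemma exp_ang (b : ℕ) : Complex.exp ((ang b : ℂ) * Complex.I) = Complex.I ^ b := by
  have := Complex.norm_mul_exp_arg_mul_I (Complex.I ^ b)
  rw [show ‖Complex.I ^ b‖ = 1 by simp] at this
  simpa [ang] using this

lemma frequently_zero (b : ℕ) : ∃ᶠ x : ℝ in atTop, FF b ((x : ℂ) ^ 3) = 0 := by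
  rw [frequently_atTop]
  intro X
  have h := (frequently_pure b).and_eventually ((pure_window b).and
    ((eventually_ge_atTop 4).and (eventually_ge_atTop X)))
  obtain ⟨x, hc, hw, hx4, hxX⟩ := h.exists
  set k := ⌊x⌋₊ with hk
  have h1 := Nat.floor_le (show 0 ≤ x by linarith)
  have h2 := Nat.lt_floor_add_one x
  have hcos := hw hc k (by linarith) (by linarith)
  obtain ⟨p0, _, _, _⟩ := pure_weights b k hcos
  refine ⟨(k : ℝ) + 1, by linarith, ?_⟩
  rw [FF_zero_iff b _ (by positivity)]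
  refine ⟨k, 0, ?_, ?_⟩
  · unfold Mw
    rw [p0, mul_one]
    apply Nat.floor_pos.mpr
    have : (0 : ℝ) ≤ k := Nat.cast_nonneg k
    nlinarith [pow_nonneg this 2, pow_nonneg this 3]
  · unfold rho; simp

lemma deriv_ind_ray (b : ℕ) :
    IsInd (fun r : ℝ => ‖deriv (FF 0) ((r : ℂ) * Complex.exp ((ang b : ℂ) * Complex.I))‖) H1 := by
  intro ε hε
  constructor
  · apply eventually_cube
    filter_upwards [FF_deriv_upper b ε hε, eventually_ge_atTop 0] with x hx hx0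
    rw [cube_rpow x hx0, exp_ang]
    rw [deriv_rot] at hx
    push_cast
    rw [mul_comm ((x : ℂ) ^ 3), mul_comm (H1 + ε)]
    exact hx
  · apply frequently_cube
    refine ((frequently_zero b).and_eventually ((FF_deriv_lower b ε hε).and
      (eventually_ge_atTop 0))).mono ?_
    rintro x ⟨hx, hx1, hx0⟩
    rw [cube_rpow x hx0, exp_ang]
    have := hx1 hx
    rw [deriv_rot] at this
    push_cast
    rw [mul_comm ((x : ℂ) ^ 3), mul_comm (H1 - ε)]
    exact this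

lemma f_simple (z : ℂ) (h : FF 0 z = 0) : deriv (FF 0) z ≠ 0 := by
  obtain ⟨b, x, hx, hz, _⟩ := FF_zero_ray z h
  have h1 : FF b ((x : ℂ) ^ 3) = 0 := by rw [← FF_pow, ← hz, h]
  have h2 := FF_simple b x hx h1
  rw [← norm_pos_iff, deriv_rot, ← hz] at h2
  exact norm_pos_iff.mp h2

lemma f_zeros_tendsto (h' : ℝ → ℝ) (hh' : ∀ φ : ℝ, IsInd (fun r : ℝ =>
    ‖deriv (FF 0) ((r : ℂ) * Complex.exp ((φ : ℂ) * Complex.I))‖) (h' φ)) :
    Tendsto (fun z : ℂ => Real.log ‖deriv (FF 0) z‖ / ‖z‖ ^ ((4 : ℝ) / 3) - h' (Complex.arg z))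
      (cocompact ℂ ⊓ 𝓟 {z : ℂ | FF 0 z = 0}) (𝓝 0) := by
  rw [Metric.tendsto_nhds]
  intro ε hε
  have hε2 : 0 < ε / 2 := by positivity
  have hb : ∀ b : ℕ, ∀ᶠ x : ℝ in atTop, FF b ((x : ℂ) ^ 3) = 0 →
      |Real.log ‖deriv (FF 0) (Complex.I ^ b * (x : ℂ) ^ 3)‖ / x ^ 4 - H1| ≤ ε / 2 := by
    intro b
    filter_upwards [FF_deriv_upper b (ε / 2) hε2, FF_deriv_lower b (ε / 2) hε2,
      eventually_gt_atTop 0] with x h1 h2 hx0 h3
    have h2' := h2 h3
    rw [deriv_rot] at h1 h2'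
    have hpos : 0 < ‖deriv (FF 0) (Complex.I ^ b * (x : ℂ) ^ 3)‖ :=
      lt_of_lt_of_le (Real.exp_pos _) h2'
    have hx4 : 0 < x ^ 4 := by positivity
    have l1 := Real.log_le_log hpos h1
    rw [Real.log_exp] at l1
    have l2 := Real.log_le_log (Real.exp_pos _) h2'
    rw [Real.log_exp] at l2
    rw [abs_le]
    constructor
    · rw [le_sub_iff_add_le, le_div_iff₀ hx4]; linarith
    · rw [sub_le_iff_le_add, div_le_iff₀ hx4]; linarith
  have hall : ∀ᶠ x : ℝ in atTop, ∀ b : ℕ, b < 4 → FF b ((x : ℂ) ^ 3) = 0 →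
      |Real.log ‖deriv (FF 0) (Complex.I ^ b * (x : ℂ) ^ 3)‖ / x ^ 4 - H1| ≤ ε / 2 := by
    filter_upwards [hb 0, hb 1, hb 2, hb 3] with x h0 h1 h2 h3 b hb4
    interval_cases b
    · exact h0
    · exact h1
    · exact h2
    · exact h3
  rw [eventually_atTop] at hall
  obtain ⟨X, hX⟩ := hall
  rw [eventually_inf_principal]
  have hco : ∀ᶠ z : ℂ in cocompact ℂ, (max X 1) ^ 3 ≤ ‖z‖ :=
    tendsto_norm_cocompact_atTop.eventually_ge_atTop _
  filter_upwards [hco] with z hz hz0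
  obtain ⟨b, x, hx, hzx, hb4⟩ := FF_zero_ray z hz0
  have hzn : ‖z‖ = x ^ 3 := by
    rw [hzx, norm_mul, norm_pow, norm_pow, Complex.norm_I, one_pow, one_mul, Complex.norm_real,
      Real.norm_of_nonneg hx.le]
  have hXx : X ≤ x := by
    rw [hzn] at hz
    have : max X 1 ≤ x := le_of_pow_le_pow_left₀ (by norm_num) hx.le hz
    exact (le_max_left _ _).trans this
  have h1 : FF b ((x : ℂ) ^ 3) = 0 := by rw [← FF_pow, ← hzx]; exact hz0
  have h2 := hX x hXx b hb4 h1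
  rw [← hzx] at h2
  have harg : Complex.arg z = ang b := by
    rw [hzx, mul_comm, ← Complex.ofReal_pow, Complex.arg_real_mul _ (by positivity)]; rfl
  have hh1 : h' (Complex.arg z) = H1 := by
    rw [harg]
    exact (hh' (ang b)).unique (deriv_ind_ray b)
  rw [Real.dist_eq, sub_zero, hh1, hzn, cube_rpow x hx.le]
  exact lt_of_le_of_lt h2 (by linarith)

/-- no exceptional set of zero linear density works -/
lemma not_crg (h : ℝ → ℝ) (hpos : ∀ φ, 0 < h φ) :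
    ¬ ∃ c : ℕ → ℂ, ∃ s : ℕ → ℝ, (∀ j, 0 ≤ s j) ∧
        (∀ ε : ℝ, 0 < ε → ∃ R0 : ℝ, ∀ R : ℝ, R0 ≤ R → ∀ n : ℕ,
          ∑ j ∈ Finset.range n, (if ‖c j‖ < R then s j else 0) ≤ ε * R) ∧
        (∀ ε : ℝ, 0 < ε → ∃ R0 : ℝ, ∀ z : ℂ, R0 ≤ ‖z‖ →
          z ∉ ⋃ j, Metric.ball (c j) (s j) →
          |Real.log ‖FF 0 z‖ - h (Complex.arg z) * ‖z‖ ^ ((4 : ℝ) / 3)|
            ≤ ε * ‖z‖ ^ ((4 : ℝ) / 3)) := by
  rintro ⟨c, s, hs, hsum, hout⟩
  have hH2 := H2_neg
  obtain ⟨R1, hR1⟩ := hsum (1 / 100) (by norm_num)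
  set ε1 : ℝ := min (-H2 / 4) (h Real.pi / 2) with hε1
  have hε10 : 0 < ε1 := lt_min (by linarith) (by have := hpos Real.pi; linarith)
  have hε1a : ε1 ≤ -H2 / 4 := min_le_left _ _
  have hε1b : ε1 ≤ h Real.pi / 2 := min_le_right _ _
  obtain ⟨R2, hR2⟩ := hout ε1 hε10
  obtain ⟨x, ⟨hx0, hdec⟩, hxR1, hxR2, hx1⟩ := (FF_decay.and_eventually
    ((eventually_ge_atTop (max R1 0)).and ((eventually_ge_atTop (max R2 0)).and
      (eventually_ge_atTop 1)))).exists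
  have hR1x : R1 ≤ x := (le_max_left _ _).trans hxR1
  have hR2x : R2 ≤ x := (le_max_left _ _).trans hxR2
  set R : ℝ := x ^ 3 with hR
  have hxR : x ≤ R := by rw [hR]; nlinarith [sq_nonneg x, sq_nonneg (x - 1)]
  have hRpos : 0 < R := by positivity
  have hR1' : 1 ≤ R := by linarith
  -- the segment is covered
  have hcov : ∀ r : ℝ, r ∈ Icc R (2 * R) → ∃ j, (-(r : ℂ)) ∈ Metric.ball (c j) (s j) := by
    intro r hr
    by_contra hcon
    push Not at hcon
    have hr0 : 0 < r := lt_of_lt_of_le hRpos hr.1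
    have hzn : ‖-(r : ℂ)‖ = r := by rw [norm_neg, Complex.norm_real, Real.norm_of_nonneg hr0.le]
    have h1 := hR2 (-(r : ℂ)) (by rw [hzn]; linarith [hr.1]) (by
      rw [mem_iUnion]; push Not; exact hcon)
    rw [hzn] at h1
    -- r = t^3
    set t : ℝ := r ^ ((1 : ℝ) / 3) with ht
    have ht0 : 0 < t := by positivity
    have ht3 : t ^ 3 = r := by rw [ht, ← Real.rpow_natCast, ← Real.rpow_mul hr0.le]; norm_num
    have htx : x ≤ t := by
      apply le_of_pow_le_pow_left₀ (n := 3) (by norm_num) ht0.le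
      rw [ht3]; exact hr.1
    have htx2 : t ≤ 2 * x := by
      apply le_of_pow_le_pow_left₀ (n := 3) (by norm_num) (by linarith)
      rw [ht3]
      refine hr.2.trans ?_
      rw [hR]
      nlinarith [pow_pos hx0 3]
    have h2 := hdec t htx htx2
    rw [← FF_pow 2, Complex.I_sq] at h2
    have h3 : (-1 : ℂ) * (t : ℂ) ^ 3 = -(r : ℂ) := by
      rw [← ht3]; push_cast; ring
    rw [h3] at h2
    have hr43 : r ^ ((4 : ℝ) / 3) = t ^ 4 := by rw [← ht3, cube_rpow t ht0.le]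
    rw [hr43] at h1
    have ht4 : 0 < t ^ 4 := by positivity
    have harg : Complex.arg (-(r : ℂ)) = Real.pi := by
      rw [← Complex.ofReal_neg]
      exact Complex.arg_ofReal_of_neg (by linarith)
    rw [harg] at h1
    have h6 := (abs_le.mp h1).1
    have h7 := hpos Real.pi
    rcases eq_or_lt_of_le (norm_nonneg (FF 0 (-(r : ℂ)))) with h5 | h5
    · rw [← h5, Real.log_zero] at h6
      nlinarith
    · have h4 : Real.log ‖FF 0 (-(r : ℂ))‖ ≤ t ^ 4 * (H2 / 2) := by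
        have := Real.log_le_log h5 h2
        rwa [Real.log_exp] at this
      have h8 : 0 < h Real.pi * t ^ 4 := by positivity
      nlinarith
  -- the discs meeting the segment have centres of modulus less than 4R
  have hterm : ∀ j, 4 * R ≤ ‖c j‖ → ∀ r ∈ Icc R (2 * R), (-(r : ℂ)) ∉ Metric.ball (c j) (s j) := by
    intro j hj r hr hmem
    have h1 : s j ≤ 1 / 100 * (‖c j‖ + 1) := by
      have h2 := hR1 (‖c j‖ + 1) (by linarith) (j + 1)
      have h3 : (if ‖c j‖ < ‖c j‖ + 1 then s j else 0) ≤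
          ∑ i ∈ Finset.range (j + 1), (if ‖c i‖ < ‖c j‖ + 1 then s i else 0) :=
        Finset.single_le_sum (f := fun i => if ‖c i‖ < ‖c j‖ + 1 then s i else 0)
          (fun i _ => by
            show (0 : ℝ) ≤ if ‖c i‖ < ‖c j‖ + 1 then s i else 0
            split_ifs
            · exact hs i
            · exact le_rfl) (Finset.mem_range.mpr (Nat.lt_succ_self j))
      rw [if_pos (by linarith)] at h3
      exact h3.trans h2
    rw [Metric.mem_ball, dist_eq_norm] at hmem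
    have h4 : ‖c j‖ ≤ ‖-(r : ℂ) - c j‖ + ‖(r : ℂ)‖ := by
      have := norm_sub_le (-(r : ℂ)) (-(r : ℂ) - c j)
      rw [sub_sub_cancel, norm_neg] at this
      linarith
    have hr0 : 0 < r := lt_of_lt_of_le hRpos hr.1
    rw [Complex.norm_real, Real.norm_of_nonneg hr0.le] at h4
    have := hr.2
    linarith
  -- measure estimate
  set A : ℕ → Set ℝ := fun j => {r : ℝ | r ∈ Icc R (2 * R) ∧ (-(r : ℂ)) ∈ Metric.ball (c j) (s j)}
    with hA
  have hAvol : ∀ j, volume (A j) ≤ ENNReal.ofReal (2 * (if ‖c j‖ < 4 * R then s j else 0)) := by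
    intro j
    split_ifs with hj
    · have hsub : A j ⊆ Ioo (-(c j).re - s j) (-(c j).re + s j) := by
        rintro r ⟨_, hr⟩
        rw [Metric.mem_ball, dist_eq_norm] at hr
        have h1 := lt_of_le_of_lt (Complex.abs_re_le_norm (-(r : ℂ) - c j)) hr
        rw [Complex.sub_re, Complex.neg_re, Complex.ofReal_re] at h1
        have h2 := abs_lt.mp h1
        constructor <;> linarith [h2.1, h2.2]
      refine (measure_mono hsub).trans ?_
      rw [Real.volume_Ioo]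
      apply ENNReal.ofReal_le_ofReal
      linarith
    · have : A j = ∅ := by
        rw [Set.eq_empty_iff_forall_notMem]
        rintro r ⟨hr1, hr2⟩
        exact hterm j (not_lt.mp hj) r hr1 hr2
      rw [this]; simp
  have hcov2 : Icc R (2 * R) ⊆ ⋃ j, A j := by
    intro r hr
    obtain ⟨j, hj⟩ := hcov r hr
    exact mem_iUnion.mpr ⟨j, hr, hj⟩
  have hmeas : volume (Icc R (2 * R)) ≤ ENNReal.ofReal (2 * (1 / 100 * (4 * R))) := by
    refine (measure_mono hcov2).trans ((measure_iUnion_le _).trans ?_)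
    refine ENNReal.tsum_le_of_sum_range_le fun n => ?_
    refine (Finset.sum_le_sum fun j _ => hAvol j).trans ?_
    rw [← ENNReal.ofReal_sum_of_nonneg]
    · apply ENNReal.ofReal_le_ofReal
      rw [← Finset.mul_sum]
      have := hR1 (4 * R) (by linarith) n
      linarith
    · intro j _
      split_ifs
      · have := hs j; linarith
      · norm_num
  rw [Real.volume_Icc, ENNReal.ofReal_le_ofReal_iff (by linarith)] at hmeas
  linarith

end Pool.Agent.H574Leontev
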