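import Mathlib

set_option autoImplicit false
open Filter Topology MeasureTheory Set

namespace Pool.Agent.H574Leontev

lemma hasSum_floor_integral (a : ℕ → ℝ) (h : IntegrableOn (fun t : ℝ => a ⌊t⌋₊) (Ioi 0)) :
    HasSum a (∫ t in Ioi (0 : ℝ), a ⌊t⌋₊) := by
  have hU : (⋃ n : ℕ, Ico (n : ℝ) (n + 1)) = Ici 0 := by
    ext t
    simp only [mem_iUnion, mem_Ico, mem_Ici]
    constructor
    · rintro ⟨n, h1, _⟩
      exact le_trans (Nat.cast_nonneg n) h1
    · intro ht
      exact ⟨⌊t⌋₊, Nat.floor_le ht, Nat.lt_floor_add_one t⟩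
  have h' : IntegrableOn (fun t : ℝ => a ⌊t⌋₊) (⋃ n : ℕ, Ico (n : ℝ) (n + 1)) := by
    rw [hU, integrableOn_Ici_iff_integrableOn_Ioi]; exact h
  have hd : Pairwise (Function.onFun Disjoint fun n : ℕ => Ico (n : ℝ) (n + 1)) := by
    intro m n hmn
    rw [Function.onFun, Set.disjoint_left]
    intro t ht1 ht2
    apply hmn
    have e1 : ⌊t⌋₊ = m := (Nat.floor_eq_iff (le_trans (Nat.cast_nonneg m) ht1.1)).mpr ht1
    have e2 : ⌊t⌋₊ = n := (Nat.floor_eq_iff (le_trans (Nat.cast_nonneg n) ht2.1)).mpr ht2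
    rw [← e1, ← e2]
  have key := hasSum_integral_iUnion (fun n : ℕ => measurableSet_Ico) hd h'
  rw [hU, integral_Ici_eq_integral_Ioi] at key
  have hfun : (fun n : ℕ => ∫ t in Ico (n : ℝ) (n + 1), a ⌊t⌋₊) = a := by
    funext n
    have : ∫ t in Ico (n : ℝ) (n + 1), a ⌊t⌋₊ = ∫ _ in Ico (n : ℝ) (n + 1), a n := by
      apply setIntegral_congr_fun measurableSet_Ico
      intro t ht
      have e1 : ⌊t⌋₊ = n := (Nat.floor_eq_iff (le_trans (Nat.cast_nonneg n) ht.1)).mpr ht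
      simp only [e1]
    rw [this, setIntegral_const]
    simp
  rw [hfun] at key
  exact key

lemma measurable_floor_comp (a : ℕ → ℝ) : Measurable (fun t : ℝ => a ⌊t⌋₊) :=
  (measurable_from_nat (f := a)).comp Nat.measurable_floor

/-- domination hypothesis -/
def Dom (b : ℝ → ℝ) (x : ℝ) (a : ℕ → ℝ) : Prop :=
  ∀ t : ℝ, 0 < t → t ≠ x → |a ⌊t⌋₊| ≤ x ^ 3 * b (t / x)

lemma ae_ne_real (x : ℝ) : ∀ᵐ y : ℝ ∂volume, y ≠ x := by
  simp [ae_iff]

lemma Dom.integrableOn {b : ℝ → ℝ} {x : ℝ} {a : ℕ → ℝ} (hx : 0 < x)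
    (hb : IntegrableOn b (Ioi 0)) (h : Dom b x a) :
    IntegrableOn (fun t : ℝ => a ⌊t⌋₊) (Ioi 0) := by
  have h1 : IntegrableOn (fun t : ℝ => x ^ 3 * b (t / x)) (Ioi 0) := by
    have h2 : IntegrableOn (fun t : ℝ => b (x⁻¹ * t)) (Ioi 0) := by
      rw [integrableOn_Ioi_comp_mul_left_iff _ _ (inv_pos.mpr hx), mul_zero]; exact hb
    have h3 := h2.const_mul (x ^ 3)
    refine h3.congr ?_
    filter_upwards with t
    simp only [div_eq_inv_mul]
  refine h1.mono' (measurable_floor_comp a).aestronglyMeasurable ?_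
  rw [ae_restrict_iff' measurableSet_Ioi]
  filter_upwards [ae_ne_real x] with t htx ht
  rw [Real.norm_eq_abs]
  exact h t ht htx

lemma Dom.summable {b : ℝ → ℝ} {x : ℝ} {a : ℕ → ℝ} (hx : 0 < x)
    (hb : IntegrableOn b (Ioi 0)) (h : Dom b x a) : Summable a :=
  (hasSum_floor_integral a (h.integrableOn hx hb)).summable

lemma Dom.abs {b : ℝ → ℝ} {x : ℝ} {a : ℕ → ℝ} (h : Dom b x a) : Dom b x (fun k => |a k|) := by
  intro t ht htx
  rw [abs_abs]
  exact h t ht htx

lemma integral_scale (x : ℝ) (hx : 0 < x) (f : ℝ → ℝ) :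
    ∫ t in Ioi (0 : ℝ), f t = x * ∫ y in Ioi (0 : ℝ), f (x * y) := by
  rw [integral_comp_mul_left_Ioi f 0 hx, mul_zero, smul_eq_mul, ← mul_assoc,
    mul_inv_cancel₀ hx.ne', one_mul]

lemma Dom.tsum_abs_le {b : ℝ → ℝ} {x : ℝ} {a : ℕ → ℝ} (hx : 0 < x)
    (hb : IntegrableOn b (Ioi 0)) (h : Dom b x a) :
    ∑' k, |a k| ≤ x ^ 4 * ∫ y in Ioi (0 : ℝ), b y := by
  rw [(hasSum_floor_integral _ (h.abs.integrableOn hx hb)).tsum_eq, integral_scale x hx,
    show x ^ 4 = x * x ^ 3 by ring, mul_assoc]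
  refine mul_le_mul_of_nonneg_left ?_ hx.le
  rw [← integral_const_mul]
  refine setIntegral_mono_on_ae ?_ (hb.const_mul _) measurableSet_Ioi ?_
  · have := h.abs.integrableOn hx hb
    have h2 := (integrableOn_Ioi_comp_mul_left_iff (fun t : ℝ => |a ⌊t⌋₊|) 0 hx)
    rw [mul_zero] at h2
    exact h2.mpr this
  · filter_upwards [ae_ne_real 1] with y hy1 hy
    have h1 := h (x * y) (mul_pos hx hy) (by
      intro h2
      exact hy1 (mul_left_cancel₀ hx.ne' (by rw [h2, mul_one])))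
    rw [mul_div_cancel_left₀ _ hx.ne'] at h1
    exact h1

/-- The Riemann sum lemma with slowly varying weights. -/
theorem riemann_sum (a : ℝ → ℕ → ℝ) (w q b : ℝ → ℝ) (hw : ∀ x, |w x| ≤ 1)
    (hb : IntegrableOn b (Ioi 0)) (hq : IntegrableOn q (Ioi 0))
    (hdom : ∀ᶠ x in atTop, Dom b x (a x))
    (hlim : ∀ y : ℝ, 0 < y → y ≠ 1 →
      Tendsto (fun x : ℝ => a x ⌊x * y⌋₊ / x ^ 3 - w x * q y) atTop (𝓝 0)) :
    Tendsto (fun x : ℝ => (∑' k, a x k) / x ^ 4 - w x * ∫ y in Ioi (0 : ℝ), q y) atTop (𝓝 0) := by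
  have key : Tendsto (fun x : ℝ => ∫ y in Ioi (0 : ℝ), (a x ⌊x * y⌋₊ / x ^ 3 - w x * q y))
      atTop (𝓝 (∫ _ in Ioi (0 : ℝ), (0 : ℝ))) := by
    refine tendsto_integral_filter_of_dominated_convergence (fun y => b y + |q y|) ?_ ?_ ?_ ?_
    · filter_upwards with x
      have h1 : AEStronglyMeasurable (fun y : ℝ => a x ⌊x * y⌋₊ / x ^ 3)
          (volume.restrict (Ioi 0)) :=
        (((measurable_floor_comp (a x)).comp (measurable_const_mul x)).div_const
          _).aestronglyMeasurable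
      exact h1.sub (hq.aestronglyMeasurable.const_mul (w x))
    · filter_upwards [hdom, eventually_gt_atTop 0] with x hx hx0
      rw [ae_restrict_iff' measurableSet_Ioi]
      filter_upwards [ae_ne_real 1] with y hy1 hy
      have h1 := hx (x * y) (mul_pos hx0 hy) (by
        intro h2
        exact hy1 (mul_left_cancel₀ hx0.ne' (by rw [h2, mul_one])))
      rw [mul_div_cancel_left₀ _ hx0.ne'] at h1
      rw [Real.norm_eq_abs]
      calc |a x ⌊x * y⌋₊ / x ^ 3 - w x * q y| ≤ |a x ⌊x * y⌋₊ / x ^ 3| + |w x * q y| := abs_sub _ _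
        _ ≤ b y + |q y| := by
            refine add_le_add ?_ ?_
            · rw [abs_div, abs_of_pos (show (0:ℝ) < x ^ 3 by positivity), div_le_iff₀ (by positivity)]
              linarith
            · rw [abs_mul]
              calc |w x| * |q y| ≤ 1 * |q y| := by gcongr; exact hw x
                _ = |q y| := one_mul _
    · exact hb.add hq.abs
    · rw [ae_restrict_iff' measurableSet_Ioi]
      have : ∀ᵐ y : ℝ ∂volume, y ≠ 1 := by
        simp [ae_iff]
      filter_upwards [this] with y hy1 hy0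
      exact hlim y hy0 hy1
  rw [integral_zero] at key
  refine key.congr' ?_
  filter_upwards [hdom, eventually_gt_atTop 0] with x hx hx0
  have hint := hx.integrableOn hx0 hb
  have hint2 : IntegrableOn (fun y : ℝ => a x ⌊x * y⌋₊) (Ioi 0) := by
    have h2 := (integrableOn_Ioi_comp_mul_left_iff (fun t : ℝ => a x ⌊t⌋₊) 0 hx0)
    rw [mul_zero] at h2
    exact h2.mpr hint
  rw [integral_sub (hint2.div_const _) (hq.const_mul _), integral_div, integral_const_mul,
    (hasSum_floor_integral _ hint).tsum_eq, integral_scale x hx0 (fun t => a x ⌊t⌋₊)]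
  congr 1
  rw [show x ^ 4 = x * x ^ 3 by ring, mul_div_mul_left _ _ hx0.ne']

end Pool.Agent.H574Leontev
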