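import Pool.Agent.H574Leontev.Prod
import Pool.Agent.H574Leontev.Riem

set_option autoImplicit false
open Filter Topology MeasureTheory Set

namespace Pool.Agent.H574Leontev

/-- truncated kernel -/
noncomputable def gk (κ : ℝ) (u : ℂ) : ℝ := Real.log (max ‖1 - u‖ κ) + u.re

/-- moduli of the zeros -/
noncomputable def rho (k i : ℕ) : ℝ := ((k : ℝ) + 1) ^ 3 + i / (4 * ((k : ℝ) + 1) ^ 3)

lemma rho_ge (k i : ℕ) : ((k : ℝ) + 1) ^ 3 ≤ rho k i := by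
  unfold rho
  have : (0 : ℝ) ≤ i / (4 * ((k : ℝ) + 1) ^ 3) := by positivity
  linarith

lemma rho_lt (k i : ℕ) (h : i < 4 * (k + 1) ^ 3) : rho k i < ((k : ℝ) + 1) ^ 3 + 1 := by
  unfold rho
  have h1 : (i : ℝ) < 4 * ((k : ℝ) + 1) ^ 3 := by exact_mod_cast h
  have : (i : ℝ) / (4 * ((k : ℝ) + 1) ^ 3) < 1 := by
    rw [div_lt_one (by positivity)]; exact h1
  linarith

lemma rho_pos (k i : ℕ) : 0 < rho k i := lt_of_lt_of_le (by positivity) (rho_ge k i)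

lemma one_le_rho (k i : ℕ) : 1 ≤ rho k i := by
  refine le_trans ?_ (rho_ge k i)
  have : (0 : ℝ) ≤ k := Nat.cast_nonneg k
  nlinarith [pow_nonneg this 2, pow_nonneg this 3]

lemma norm_E1_le_gk (κ : ℝ) (hκ : 0 < κ) (u : ℂ) : ‖E1 u‖ ≤ Real.exp (gk κ u) := by
  unfold E1 gk
  rw [norm_mul, Complex.norm_exp, Real.exp_add, Real.exp_log (lt_of_lt_of_le hκ (le_max_right _ _))]
  gcongr
  exact le_max_left _ _

lemma gk_eq_gg (κ : ℝ) (u : ℂ) (h : κ ≤ ‖1 - u‖) : gk κ u = gg u := by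
  unfold gk gg
  rw [max_eq_left h]

lemma gg_le_gk (κ : ℝ) (u : ℂ) (hu : u ≠ 1) : gg u ≤ gk κ u := by
  unfold gk gg
  have : 0 < ‖1 - u‖ := norm_pos_iff.mpr (sub_ne_zero.mpr (Ne.symm hu))
  have := Real.log_le_log this (le_max_left ‖1 - u‖ κ)
  linarith

lemma abs_gg_le_sq (u : ℂ) (h : ‖u‖ ≤ 1 / 2) : |gg u| ≤ ‖u‖ ^ 2 := by
  have h1 := Complex.norm_log_one_add_sub_self_le (z := -u) (by rw [norm_neg]; linarith)
  rw [norm_neg] at h1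
  have h2 : ‖Complex.log (1 + -u) - -u‖ ≤ ‖u‖ ^ 2 := by
    refine h1.trans ?_
    have h3 : (1 - ‖u‖)⁻¹ ≤ 2 := by
      rw [inv_le_comm₀ (by linarith) (by norm_num)]; linarith
    have h4 : 0 ≤ ‖u‖ ^ 2 := by positivity
    nlinarith [mul_le_mul_of_nonneg_left h3 h4]
  have h5 : gg u = (Complex.log (1 + -u) - -u).re := by
    unfold gg
    rw [Complex.sub_re, Complex.neg_re, Complex.log_re, ← sub_eq_add_neg]; ring
  rw [h5]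
  exact (Complex.abs_re_le_norm _).trans h2

lemma half_le_norm (u : ℂ) (h : ‖u‖ ≤ 1 / 2) : 1 / 2 ≤ ‖1 - u‖ := by
  have := norm_sub_norm_le (1 : ℂ) u
  rw [norm_one] at this
  linarith

/-- the constant in the kernel bound -/
noncomputable def CK (κ : ℝ) : ℝ := 4 + 4 * Real.log κ⁻¹

lemma CK_pos (κ : ℝ) (hκ : 0 < κ) (hκ2 : κ ≤ 1 / 2) : 0 < CK κ := by
  unfold CK
  have : 0 ≤ Real.log κ⁻¹ := Real.log_nonneg (by rw [one_le_inv₀ hκ]; linarith)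
  linarith

lemma abs_gk_le (κ : ℝ) (hκ : 0 < κ) (hκ2 : κ ≤ 1 / 2) (u : ℂ) :
    |gk κ u| ≤ CK κ * min ‖u‖ (‖u‖ ^ 2) := by
  have hl : 0 ≤ Real.log κ⁻¹ := Real.log_nonneg (by rw [one_le_inv₀ hκ]; linarith)
  rcases le_or_gt ‖u‖ (1 / 2) with h | h
  · rw [gk_eq_gg κ u (hκ2.trans (half_le_norm u h))]
    have h1 := abs_gg_le_sq u h
    have h2 : min ‖u‖ (‖u‖ ^ 2) = ‖u‖ ^ 2 := by
      apply min_eq_right
      nlinarith [norm_nonneg u]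
    rw [h2]
    refine h1.trans ?_
    have : 1 ≤ CK κ := by unfold CK; linarith
    nlinarith [sq_nonneg ‖u‖]
  · have h1 : |Real.log (max ‖1 - u‖ κ)| ≤ ‖u‖ + Real.log κ⁻¹ := by
      rw [abs_le]
      constructor
      · have : Real.log κ ≤ Real.log (max ‖1 - u‖ κ) := Real.log_le_log hκ (le_max_right _ _)
        rw [Real.log_inv]
        linarith [norm_nonneg u]
      · have h2 : max ‖1 - u‖ κ ≤ 1 + ‖u‖ := by
          apply max_le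
          · calc ‖1 - u‖ ≤ ‖(1 : ℂ)‖ + ‖u‖ := norm_sub_le _ _
              _ = 1 + ‖u‖ := by rw [norm_one]
          · linarith
        have h3 : Real.log (max ‖1 - u‖ κ) ≤ Real.log (1 + ‖u‖) :=
          Real.log_le_log (lt_of_lt_of_le hκ (le_max_right _ _)) h2
        have h4 : Real.log (1 + ‖u‖) ≤ ‖u‖ := by
          have := Real.log_le_sub_one_of_pos (x := 1 + ‖u‖) (by positivity)
          linarith
        linarith
    have h2 : |gk κ u| ≤ 2 * ‖u‖ + Real.log κ⁻¹ := by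
      unfold gk
      calc |Real.log (max ‖1 - u‖ κ) + u.re| ≤ |Real.log (max ‖1 - u‖ κ)| + |u.re| := abs_add_le _ _
        _ ≤ (‖u‖ + Real.log κ⁻¹) + ‖u‖ := add_le_add h1 (Complex.abs_re_le_norm _)
        _ = _ := by ring
    have h3 : ‖u‖ / 2 ≤ min ‖u‖ (‖u‖ ^ 2) := by
      apply le_min
      · linarith
      · nlinarith
    calc |gk κ u| ≤ 2 * ‖u‖ + Real.log κ⁻¹ := h2
      _ ≤ (2 + 2 * Real.log κ⁻¹) * ‖u‖ := by nlinarith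
      _ = CK κ * (‖u‖ / 2) := by unfold CK; ring
      _ ≤ CK κ * min ‖u‖ (‖u‖ ^ 2) :=
          mul_le_mul_of_nonneg_left h3 (CK_pos κ hκ hκ2).le

lemma gk_lipschitz (κ : ℝ) (hκ : 0 < κ) (u v : ℂ) :
    |gk κ u - gk κ v| ≤ (κ⁻¹ + 1) * ‖u - v‖ := by
  have hlog : ∀ a b : ℝ, κ ≤ a → κ ≤ b → |Real.log a - Real.log b| ≤ κ⁻¹ * |a - b| := by
    intro a b ha hb
    have ha0 : 0 < a := lt_of_lt_of_le hκ ha
    have hb0 : 0 < b := lt_of_lt_of_le hκ hb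
    have key : ∀ a b : ℝ, κ ≤ a → κ ≤ b → 0 < a → 0 < b →
        Real.log a - Real.log b ≤ κ⁻¹ * |a - b| := by
      intro a b ha hb ha0 hb0
      rw [← Real.log_div ha0.ne' hb0.ne']
      have h1 := Real.log_le_sub_one_of_pos (x := a / b) (by positivity)
      have h2 : a / b - 1 = (a - b) / b := by field_simp
      rw [h2] at h1
      refine h1.trans ?_
      rw [div_eq_inv_mul]
      have h3 : b⁻¹ ≤ κ⁻¹ := inv_anti₀ hκ hb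
      calc b⁻¹ * (a - b) ≤ b⁻¹ * |a - b| := by gcongr; exact le_abs_self _
        _ ≤ κ⁻¹ * |a - b| := by gcongr
    rw [abs_le]
    constructor
    · have := key b a hb ha hb0 ha0
      rw [abs_sub_comm] at this
      linarith
    · exact key a b ha hb ha0 hb0
  unfold gk
  have h1 := hlog (max ‖1 - u‖ κ) (max ‖1 - v‖ κ) (le_max_right _ _) (le_max_right _ _)
  have h2 : |max ‖1 - u‖ κ - max ‖1 - v‖ κ| ≤ ‖u - v‖ := by
    refine (abs_max_sub_max_le_abs _ _ _).trans ?_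
    refine (abs_norm_sub_norm_le _ _).trans ?_
    rw [show (1 - u) - (1 - v) = v - u by ring, norm_sub_rev]
  have h3 : |u.re - v.re| ≤ ‖u - v‖ := by
    rw [← Complex.sub_re]; exact Complex.abs_re_le_norm _
  calc |Real.log (max ‖1 - u‖ κ) + u.re - (Real.log (max ‖1 - v‖ κ) + v.re)|
      = |(Real.log (max ‖1 - u‖ κ) - Real.log (max ‖1 - v‖ κ)) + (u.re - v.re)| := by ring_nf
    _ ≤ |Real.log (max ‖1 - u‖ κ) - Real.log (max ‖1 - v‖ κ)| + |u.re - v.re| := abs_add_le _ _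
    _ ≤ κ⁻¹ * |max ‖1 - u‖ κ - max ‖1 - v‖ κ| + ‖u - v‖ := add_le_add h1 h3
    _ ≤ κ⁻¹ * ‖u - v‖ + ‖u - v‖ := by gcongr
    _ = (κ⁻¹ + 1) * ‖u - v‖ := by ring

lemma continuous_gk (κ : ℝ) (hκ : 0 < κ) : Continuous (gk κ) := by
  unfold gk
  apply Continuous.add _ Complex.continuous_re
  apply Continuous.log
  · exact ((continuous_const.sub continuous_id).norm).max continuous_const
  · intro u; exact (lt_of_lt_of_le hκ (le_max_right _ _)).ne'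

/-- the weights -/
structure Wt (M : ℕ → ℕ) (w : ℝ → ℝ) : Prop where
  hM : ∀ k, M k ≤ 4 * (k + 1) ^ 3
  hw : ∀ x, |w x| ≤ 1
  hlim : ∀ y : ℝ, 0 < y →
    Tendsto (fun x : ℝ => (M ⌊x * y⌋₊ : ℝ) / x ^ 3 - w x * (4 * y ^ 3)) atTop (𝓝 0)

/-- block sum of the truncated kernel -/
noncomputable def bs (κ : ℝ) (e : ℂ) (M : ℕ → ℕ) (x : ℝ) (k : ℕ) : ℝ :=
  ∑ i ∈ Finset.range (M k), gk κ ((x : ℂ) ^ 3 * e / (rho k i : ℂ))

/-- the dominating function -/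
noncomputable def bb (y : ℝ) : ℝ := (1 + y ^ 2)⁻¹

lemma bb_integrable : IntegrableOn bb (Ioi 0) := by
  unfold bb
  exact integrable_inv_one_add_sq.integrableOn

lemma norm_arg (x : ℝ) (hx : 0 ≤ x) (e : ℂ) (he : ‖e‖ = 1) (k i : ℕ) :
    ‖(x : ℂ) ^ 3 * e / (rho k i : ℂ)‖ = x ^ 3 / rho k i := by
  rw [norm_div, norm_mul, norm_pow, he, mul_one, Complex.norm_real, Complex.norm_real,
    Real.norm_of_nonneg hx, Real.norm_of_nonneg (rho_pos k i).le]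

/-- elementary bound turning a kernel bound into a domination -/
lemma dom_aux (C : ℝ) (hC : 0 ≤ C) (x t : ℝ) (hx : 0 < x) (ht : 0 < t) :
    4 * (((⌊t⌋₊ : ℝ)) + 1) ^ 3 * (C * min (x ^ 3 / ((⌊t⌋₊ : ℝ) + 1) ^ 3)
      ((x ^ 3 / ((⌊t⌋₊ : ℝ) + 1) ^ 3) ^ 2)) ≤ x ^ 3 * (8 * C * bb (t / x)) := by
  set K : ℝ := (⌊t⌋₊ : ℝ) + 1 with hK
  have hK0 : 0 < K := by positivity
  have htK : t < K := Nat.lt_floor_add_one t
  have hbb : bb (t / x) = x ^ 2 / (x ^ 2 + t ^ 2) := by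
    unfold bb; field_simp
  rw [hbb]
  rcases le_or_gt t x with h | h
  · have h1 : min (x ^ 3 / K ^ 3) ((x ^ 3 / K ^ 3) ^ 2) ≤ x ^ 3 / K ^ 3 := min_le_left _ _
    have h2 : 1 / 2 ≤ x ^ 2 / (x ^ 2 + t ^ 2) := by
      rw [div_le_div_iff₀ (by norm_num) (by positivity)]
      nlinarith
    calc 4 * K ^ 3 * (C * min (x ^ 3 / K ^ 3) ((x ^ 3 / K ^ 3) ^ 2))
        ≤ 4 * K ^ 3 * (C * (x ^ 3 / K ^ 3)) := by gcongr
      _ = x ^ 3 * (8 * C * (1 / 2)) := by field_simp; ring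
      _ ≤ x ^ 3 * (8 * C * (x ^ 2 / (x ^ 2 + t ^ 2))) := by gcongr
  · have h1 : min (x ^ 3 / K ^ 3) ((x ^ 3 / K ^ 3) ^ 2) ≤ (x ^ 3 / K ^ 3) ^ 2 := min_le_right _ _
    have h2 : x ^ 3 / t ^ 3 ≤ 2 * (x ^ 2 / (x ^ 2 + t ^ 2)) := by
      rw [← mul_div_assoc, div_le_div_iff₀ (by positivity) (by positivity)]
      have h3 : x * (x ^ 2 + t ^ 2) ≤ 2 * t ^ 3 := by
        have h4 : x ^ 2 ≤ t ^ 2 := by nlinarith
        calc x * (x ^ 2 + t ^ 2) ≤ t * (t ^ 2 + t ^ 2) := by gcongr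
          _ = 2 * t ^ 3 := by ring
      nlinarith [pow_pos hx 2]
    have h5 : x ^ 3 / K ^ 3 ≤ x ^ 3 / t ^ 3 := by gcongr
    calc 4 * K ^ 3 * (C * min (x ^ 3 / K ^ 3) ((x ^ 3 / K ^ 3) ^ 2))
        ≤ 4 * K ^ 3 * (C * (x ^ 3 / K ^ 3) ^ 2) := by gcongr
      _ = x ^ 3 * (4 * C * (x ^ 3 / K ^ 3)) := by field_simp
      _ ≤ x ^ 3 * (4 * C * (2 * (x ^ 2 / (x ^ 2 + t ^ 2)))) := by
          gcongr
          exact h5.trans h2
      _ = x ^ 3 * (8 * C * (x ^ 2 / (x ^ 2 + t ^ 2))) := by ring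

lemma sum_kernel_bound (C : ℝ) (hC : 0 ≤ C) (M : ℕ → ℕ) (hM : ∀ k, M k ≤ 4 * (k + 1) ^ 3)
    (x : ℝ) (hx : 0 < x) (k : ℕ) (F : ℕ → ℝ)
    (hF : ∀ i, i < M k → |F i| ≤ C * min (x ^ 3 / rho k i) ((x ^ 3 / rho k i) ^ 2)) :
    |∑ i ∈ Finset.range (M k), F i| ≤
      4 * ((k : ℝ) + 1) ^ 3 * (C * min (x ^ 3 / ((k : ℝ) + 1) ^ 3)
        ((x ^ 3 / ((k : ℝ) + 1) ^ 3) ^ 2)) := by
  have hK : (0 : ℝ) < ((k : ℝ) + 1) ^ 3 := by positivity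
  have hbound : ∀ i ∈ Finset.range (M k), |F i| ≤ C * min (x ^ 3 / ((k : ℝ) + 1) ^ 3)
        ((x ^ 3 / ((k : ℝ) + 1) ^ 3) ^ 2) := by
    intro i hi
    refine (hF i (Finset.mem_range.mp hi)).trans ?_
    have h1 : x ^ 3 / rho k i ≤ x ^ 3 / ((k : ℝ) + 1) ^ 3 := by
      have := rho_ge k i
      gcongr
    have h0 : 0 ≤ x ^ 3 / rho k i := by have := rho_pos k i; positivity
    gcongr
  calc |∑ i ∈ Finset.range (M k), F i| ≤ ∑ i ∈ Finset.range (M k), |F i| :=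
        Finset.abs_sum_le_sum_abs _ _
    _ ≤ ∑ i ∈ Finset.range (M k), C * min (x ^ 3 / ((k : ℝ) + 1) ^ 3)
        ((x ^ 3 / ((k : ℝ) + 1) ^ 3) ^ 2) := Finset.sum_le_sum hbound
    _ = (M k : ℝ) * (C * min (x ^ 3 / ((k : ℝ) + 1) ^ 3)
        ((x ^ 3 / ((k : ℝ) + 1) ^ 3) ^ 2)) := by
          rw [Finset.sum_const, Finset.card_range, nsmul_eq_mul]
    _ ≤ _ := by
        have : (M k : ℝ) ≤ 4 * ((k : ℝ) + 1) ^ 3 := by exact_mod_cast hM k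
        gcongr

lemma bs_dom (κ : ℝ) (hκ : 0 < κ) (hκ2 : κ ≤ 1 / 2) (e : ℂ) (he : ‖e‖ = 1) (M : ℕ → ℕ)
    (hM : ∀ k, M k ≤ 4 * (k + 1) ^ 3) (x : ℝ) (hx : 0 < x) :
    Dom (fun y => 8 * CK κ * bb y) x (bs κ e M x) := by
  intro t ht _
  refine le_trans ?_ (dom_aux (CK κ) (CK_pos κ hκ hκ2).le x t hx ht)
  unfold bs
  refine sum_kernel_bound (CK κ) (CK_pos κ hκ hκ2).le M hM x hx _ _ ?_
  intro i hi
  have := abs_gk_le κ hκ hκ2 ((x : ℂ) ^ 3 * e / (rho ⌊t⌋₊ i : ℂ))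
  rwa [norm_arg x hx.le e he] at this

lemma tendsto_floor_div (y : ℝ) (hy : 0 < y) :
    Tendsto (fun x : ℝ => ((⌊x * y⌋₊ : ℝ) + 1) / x) atTop (𝓝 y) := by
  have h1 : Tendsto (fun x : ℝ => (⌊y * x⌋₊ : ℝ) / x) atTop (𝓝 y) :=
    tendsto_nat_floor_mul_div_atTop hy.le
  have h2 : Tendsto (fun x : ℝ => (1 : ℝ) / x) atTop (𝓝 0) := by
    simpa using tendsto_inv_atTop_zero
  have h3 := h1.add h2
  rw [add_zero] at h3
  refine h3.congr' ?_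
  filter_upwards with x
  rw [mul_comm y x, add_div]

/-- uniform closeness of the arguments in a block -/
lemma arg_close (y : ℝ) (hy : 0 < y) (δ : ℝ) (hδ : 0 < δ) :
    ∀ᶠ x : ℝ in atTop, ∀ i : ℕ, i < 4 * (⌊x * y⌋₊ + 1) ^ 3 →
      |x ^ 3 / rho ⌊x * y⌋₊ i - (y ^ 3)⁻¹| ≤ δ := by
  have h1 := tendsto_floor_div y hy
  have h2 : Tendsto (fun x : ℝ => ((((⌊x * y⌋₊ : ℝ) + 1) / x) ^ 3)⁻¹) atTop (𝓝 (y ^ 3)⁻¹) :=
    (h1.pow 3).inv₀ (by positivity)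
  have h3 : Tendsto (fun x : ℝ => ((((⌊x * y⌋₊ : ℝ) + 1) / x) ^ 3 + 1 / x ^ 3)⁻¹) atTop
      (𝓝 (y ^ 3)⁻¹) := by
    have h4 : Tendsto (fun x : ℝ => (1 : ℝ) / x ^ 3) atTop (𝓝 0) := by
      have h9 : Tendsto (fun x : ℝ => x ^ 3) atTop atTop := tendsto_pow_atTop (by norm_num)
      have := h9.inv_tendsto_atTop
      refine this.congr fun x => ?_
      simp
    have h5 := (h1.pow 3).add h4
    rw [add_zero] at h5
    exact h5.inv₀ (by positivity)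
  have e2 := (Metric.tendsto_nhds.mp h2) δ hδ
  have e3 := (Metric.tendsto_nhds.mp h3) δ hδ
  filter_upwards [e2, e3, eventually_gt_atTop 0] with x hx2 hx3 hx0 i hi
  rw [Real.dist_eq] at hx2 hx3
  have hK : (0 : ℝ) < (⌊x * y⌋₊ : ℝ) + 1 := by positivity
  have l1 : x ^ 3 / rho ⌊x * y⌋₊ i ≤ ((((⌊x * y⌋₊ : ℝ) + 1) / x) ^ 3)⁻¹ := by
    rw [div_pow, inv_div]
    have := rho_ge ⌊x * y⌋₊ i
    gcongr
  have l2 : ((((⌊x * y⌋₊ : ℝ) + 1) / x) ^ 3 + 1 / x ^ 3)⁻¹ ≤ x ^ 3 / rho ⌊x * y⌋₊ i := by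
    rw [div_pow, ← add_div, inv_div]
    have := (rho_lt ⌊x * y⌋₊ i hi).le
    have h0 := rho_pos ⌊x * y⌋₊ i
    gcongr
  rw [abs_lt] at hx2 hx3
  rw [abs_le]
  constructor <;> linarith [hx2.1, hx2.2, hx3.1, hx3.2]

/-- pointwise limit of blocks -/
lemma bs_tendsto (κ : ℝ) (hκ : 0 < κ) (e : ℂ) (he : ‖e‖ = 1) (M : ℕ → ℕ) (w : ℝ → ℝ)
    (hMw : Wt M w) (y : ℝ) (hy : 0 < y) :
    Tendsto (fun x : ℝ => bs κ e M x ⌊x * y⌋₊ / x ^ 3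
      - w x * (4 * y ^ 3 * gk κ (((y ^ 3)⁻¹ : ℝ) * e))) atTop (𝓝 0) := by
  set G : ℝ := gk κ (((y ^ 3)⁻¹ : ℝ) * e) with hG
  -- first: difference of block sum and M * G
  have hA : Tendsto (fun x : ℝ => bs κ e M x ⌊x * y⌋₊ / x ^ 3 - (M ⌊x * y⌋₊ : ℝ) / x ^ 3 * G)
      atTop (𝓝 0) := by
    have hbd : ∀ᶠ x : ℝ in atTop, (M ⌊x * y⌋₊ : ℝ) / x ^ 3 ≤ 4 * (y + 1) ^ 3 := by
      have h1 := tendsto_floor_div y hy
      filter_upwards [h1.eventually_lt_const (lt_add_one y), eventually_gt_atTop 0] with x hx hx0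
      have h2 : (M ⌊x * y⌋₊ : ℝ) ≤ 4 * ((⌊x * y⌋₊ : ℝ) + 1) ^ 3 := by
        exact_mod_cast hMw.hM ⌊x * y⌋₊
      calc (M ⌊x * y⌋₊ : ℝ) / x ^ 3 ≤ 4 * ((⌊x * y⌋₊ : ℝ) + 1) ^ 3 / x ^ 3 := by gcongr
        _ = 4 * (((⌊x * y⌋₊ : ℝ) + 1) / x) ^ 3 := by rw [div_pow]; ring
        _ ≤ 4 * (y + 1) ^ 3 := by gcongr
    rw [Metric.tendsto_nhds]
    intro ε hε
    set L : ℝ := (κ⁻¹ + 1) * (4 * (y + 1) ^ 3) with hL
    have hL0 : 0 < L := by positivity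
    have hclose := arg_close y hy (ε / (2 * L)) (by positivity)
    filter_upwards [hbd, hclose, eventually_gt_atTop 0] with x hx1 hx2 hx0
    rw [Real.dist_eq, sub_zero]
    have e1 : bs κ e M x ⌊x * y⌋₊ / x ^ 3 - (M ⌊x * y⌋₊ : ℝ) / x ^ 3 * G
        = (∑ i ∈ Finset.range (M ⌊x * y⌋₊),
          (gk κ ((x : ℂ) ^ 3 * e / (rho ⌊x * y⌋₊ i : ℂ)) - G)) / x ^ 3 := by
      rw [Finset.sum_sub_distrib, Finset.sum_const, Finset.card_range, nsmul_eq_mul]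
      unfold bs
      ring
    rw [e1, abs_div, abs_of_pos (show (0 : ℝ) < x ^ 3 by positivity)]
    have e2 : |∑ i ∈ Finset.range (M ⌊x * y⌋₊),
          (gk κ ((x : ℂ) ^ 3 * e / (rho ⌊x * y⌋₊ i : ℂ)) - G)|
        ≤ (M ⌊x * y⌋₊ : ℝ) * ((κ⁻¹ + 1) * (ε / (2 * L))) := by
      refine (Finset.abs_sum_le_sum_abs _ _).trans ?_
      rw [← nsmul_eq_mul, ← Finset.card_range (M ⌊x * y⌋₊), ← Finset.sum_const]
      rw [Finset.card_range]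
      refine Finset.sum_le_sum fun i hi => ?_
      have hi' : i < 4 * (⌊x * y⌋₊ + 1) ^ 3 :=
        lt_of_lt_of_le (Finset.mem_range.mp hi) (hMw.hM _)
      refine (gk_lipschitz κ hκ _ _).trans ?_
      have hcl := hx2 i hi'
      have e3 : (x : ℂ) ^ 3 * e / (rho ⌊x * y⌋₊ i : ℂ) - (((y ^ 3)⁻¹ : ℝ) : ℂ) * e
          = ((x ^ 3 / rho ⌊x * y⌋₊ i - (y ^ 3)⁻¹ : ℝ) : ℂ) * e := by
        push_cast; ring
      rw [e3, norm_mul, he, mul_one, Complex.norm_real, Real.norm_eq_abs]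
      gcongr
    calc |∑ i ∈ Finset.range (M ⌊x * y⌋₊),
          (gk κ ((x : ℂ) ^ 3 * e / (rho ⌊x * y⌋₊ i : ℂ)) - G)| / x ^ 3
        ≤ (M ⌊x * y⌋₊ : ℝ) * ((κ⁻¹ + 1) * (ε / (2 * L))) / x ^ 3 := by gcongr
      _ = (M ⌊x * y⌋₊ : ℝ) / x ^ 3 * ((κ⁻¹ + 1) * (ε / (2 * L))) := by ring
      _ ≤ 4 * (y + 1) ^ 3 * ((κ⁻¹ + 1) * (ε / (2 * L))) := by gcongr
      _ = L * (ε / (2 * L)) := by rw [hL]; ring
      _ = ε / 2 := by field_simp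
      _ < ε := by linarith
  have hB := (hMw.hlim y hy).mul_const G
  rw [zero_mul] at hB
  have hC := hA.add hB
  rw [add_zero] at hC
  refine hC.congr' ?_
  filter_upwards with x
  ring

/-- the limit integrand -/
noncomputable def qk (κ : ℝ) (e : ℂ) (y : ℝ) : ℝ := 4 * y ^ 3 * gk κ (((y ^ 3)⁻¹ : ℝ) * e)

lemma abs_qk_le (κ : ℝ) (hκ : 0 < κ) (hκ2 : κ ≤ 1 / 2) (e : ℂ) (he : ‖e‖ = 1) (y : ℝ)
    (hy : 0 < y) : |qk κ e y| ≤ 8 * CK κ * bb y := by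
  unfold qk
  have h1 := abs_gk_le κ hκ hκ2 (((y ^ 3)⁻¹ : ℝ) * e)
  have h2 : ‖(((y ^ 3)⁻¹ : ℝ) : ℂ) * e‖ = (y ^ 3)⁻¹ := by
    rw [norm_mul, he, mul_one, Complex.norm_real, Real.norm_of_nonneg (by positivity)]
  rw [h2] at h1
  have hC := CK_pos κ hκ hκ2
  rw [abs_mul, abs_of_pos (show (0 : ℝ) < 4 * y ^ 3 by positivity)]
  have h3 : y ^ 3 * min (y ^ 3)⁻¹ ((y ^ 3)⁻¹ ^ 2) ≤ 2 * bb y := by
    unfold bb
    rcases le_or_gt y 1 with h | h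
    · calc y ^ 3 * min (y ^ 3)⁻¹ ((y ^ 3)⁻¹ ^ 2) ≤ y ^ 3 * (y ^ 3)⁻¹ := by
            gcongr; exact min_le_left _ _
        _ = 1 := by field_simp
        _ ≤ 2 * (1 + y ^ 2)⁻¹ := by
            rw [← div_eq_mul_inv, le_div_iff₀ (by positivity)]; nlinarith
    · calc y ^ 3 * min (y ^ 3)⁻¹ ((y ^ 3)⁻¹ ^ 2) ≤ y ^ 3 * ((y ^ 3)⁻¹ ^ 2) := by
            gcongr; exact min_le_right _ _
        _ = (y ^ 3)⁻¹ := by field_simp
        _ ≤ 2 * (1 + y ^ 2)⁻¹ := by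
            rw [← div_eq_mul_inv, inv_eq_one_div, div_le_div_iff₀ (by positivity) (by positivity)]
            nlinarith [mul_pos (show (0:ℝ) < y by linarith) (show (0:ℝ) < y by linarith)]
  calc 4 * y ^ 3 * |gk κ (((y ^ 3)⁻¹ : ℝ) * e)|
      ≤ 4 * y ^ 3 * (CK κ * min (y ^ 3)⁻¹ ((y ^ 3)⁻¹ ^ 2)) := by gcongr
    _ = 4 * CK κ * (y ^ 3 * min (y ^ 3)⁻¹ ((y ^ 3)⁻¹ ^ 2)) := by ring
    _ ≤ 4 * CK κ * (2 * bb y) := by gcongr
    _ = 8 * CK κ * bb y := by ring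

lemma qk_measurable (κ : ℝ) (hκ : 0 < κ) (e : ℂ) : Measurable (qk κ e) := by
  unfold qk
  apply Measurable.mul (by fun_prop)
  apply (continuous_gk κ hκ).measurable.comp
  fun_prop

lemma qk_integrable (κ : ℝ) (hκ : 0 < κ) (hκ2 : κ ≤ 1 / 2) (e : ℂ) (he : ‖e‖ = 1) :
    IntegrableOn (qk κ e) (Ioi 0) := by
  refine (bb_integrable.const_mul (8 * CK κ)).mono'
    (qk_measurable κ hκ e).aestronglyMeasurable ?_
  rw [ae_restrict_iff' measurableSet_Ioi]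
  filter_upwards with y hy
  rw [Real.norm_eq_abs]
  exact abs_qk_le κ hκ hκ2 e he y hy

/-- the constants -/
noncomputable def QQ (κ : ℝ) (e : ℂ) : ℝ := ∫ y in Ioi (0 : ℝ), qk κ e y

/-- asymptotics of the truncated sum -/
theorem asym_trunc (κ : ℝ) (hκ : 0 < κ) (hκ2 : κ ≤ 1 / 2) (e : ℂ) (he : ‖e‖ = 1) (M : ℕ → ℕ)
    (w : ℝ → ℝ) (hMw : Wt M w) :
    Tendsto (fun x : ℝ => (∑' k, bs κ e M x k) / x ^ 4 - w x * QQ κ e) atTop (𝓝 0) := by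
  unfold QQ
  refine riemann_sum (fun x k => bs κ e M x k) w (qk κ e) (fun y => 8 * CK κ * bb y) hMw.hw
    (bb_integrable.const_mul _) (qk_integrable κ hκ hκ2 e he) ?_ ?_
  · filter_upwards [eventually_gt_atTop 0] with x hx
    exact bs_dom κ hκ hκ2 e he M hMw.hM x hx
  · intro y hy _
    exact bs_tendsto κ hκ e he M w hMw y hy

end Pool.Agent.H574Leontev
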