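import Pool.Agent.H574Leontev.Asym

set_option autoImplicit false
open Filter Topology MeasureTheory Set

namespace Pool.Agent.H574Leontev

lemma Q0_eq_H1 : Q0 = H1 := Q0_eq

lemma phi_pos_lower_ev (a : ℕ) (ε : ℝ) (hε : 0 < ε) :
    ∀ᶠ x : ℝ in atTop, (∀ k : ℕ, |((k : ℝ) + 1) - x| < 1 / 2 → Mw a k = 0) →
      Real.exp (x ^ 4 * (pw a x * H1 - ε)) ≤ ‖phi (Mw a) ((x : ℂ) ^ 3)‖ := by
  have h1 := asym_excl (Mw a) (pw a) (Mw_Wt a)
  rw [Q0_eq_H1] at h1
  filter_upwards [h1.eventually_const_lt (neg_lt_zero.mpr hε), eventually_ge_atTop 2] with x hx1 hx2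
    hfree
  rw [phi_exact_pos (Mw a) (Mw_le a) x hx2 hfree, Real.exp_le_exp]
  have hx0 : 0 < x := by linarith
  have hx4 : 0 < x ^ 4 := by positivity
  have e1 : ∑' k, bsx (Mw a) x k = x ^ 4 * ((∑' k, bsx (Mw a) x k) / x ^ 4) := by field_simp
  rw [e1]
  apply mul_le_mul_of_nonneg_left _ hx4.le
  linarith

lemma tendsto_log_err :
    Tendsto (fun x : ℝ => (4 * x ^ 3 * Real.log (8 * x ^ 6) + 3 * Real.log x) / x ^ 4) atTop (𝓝 0) := by
  have h1 : Tendsto (fun x : ℝ => Real.log x / x) atTop (𝓝 0) := by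
    have := Real.tendsto_pow_log_div_mul_add_atTop 1 0 1 one_ne_zero
    simpa using this
  have h2 : Tendsto (fun x : ℝ => x⁻¹) atTop (𝓝 0) := tendsto_inv_atTop_zero
  have h3 : Tendsto (fun x : ℝ => 4 * Real.log 8 * x⁻¹ + 24 * (Real.log x / x)
      + 3 * (Real.log x / x) * x⁻¹ ^ 3) atTop
      (𝓝 (4 * Real.log 8 * 0 + 24 * 0 + 3 * 0 * 0 ^ 3)) :=
    ((h2.const_mul _).add (h1.const_mul 24)).add ((h1.const_mul 3).mul (h2.pow 3))
  rw [show 4 * Real.log 8 * 0 + 24 * 0 + 3 * 0 * (0 : ℝ) ^ 3 = 0 by ring] at h3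
  refine h3.congr' ?_
  filter_upwards [eventually_gt_atTop 0] with x hx
  rw [Real.log_mul (by norm_num) (by positivity), Real.log_pow]
  push_cast
  field_simp
  ring

lemma deriv_phi_lower_ev (a : ℕ) (ε : ℝ) (hε : 0 < ε) :
    ∀ᶠ x : ℝ in atTop, ∀ k i : ℕ, i < Mw a k → x ^ 3 = rho k i →
      Real.exp (x ^ 4 * (pw a x * H1 - ε)) ≤ ‖deriv (phi (Mw a)) ((x : ℂ) ^ 3)‖ := by
  have h1 := asym_excl (Mw a) (pw a) (Mw_Wt a)
  rw [Q0_eq_H1] at h1
  filter_upwards [h1.eventually_const_lt (neg_lt_zero.mpr (half_pos hε)),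
    tendsto_log_err.eventually_lt_const (half_pos hε), eventually_ge_atTop 2] with x hx1 hx2 hx3
    k i hi hk
  refine le_trans ?_ (deriv_phi_lower (Mw a) (Mw_le a) x hx3 k i hi hk)
  have hx0 : 0 < x := by linarith
  have hx4 : 0 < x ^ 4 := by positivity
  have e0 : x ^ 3 = Real.exp (3 * Real.log x) := by
    rw [mul_comm, Real.exp_mul, Real.exp_log hx0]; norm_num
  rw [show Real.exp (1 + ∑' k, bsx (Mw a) x k - 4 * x ^ 3 * Real.log (8 * x ^ 6)) / x ^ 3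
    = Real.exp (1 + ∑' k, bsx (Mw a) x k - 4 * x ^ 3 * Real.log (8 * x ^ 6) - 3 * Real.log x) by
      rw [Real.exp_sub _ (3 * Real.log x), ← e0], Real.exp_le_exp]
  have e1 : ∑' k, bsx (Mw a) x k = x ^ 4 * ((∑' k, bsx (Mw a) x k) / x ^ 4) := by field_simp
  have e2 : 4 * x ^ 3 * Real.log (8 * x ^ 6) + 3 * Real.log x
      = x ^ 4 * ((4 * x ^ 3 * Real.log (8 * x ^ 6) + 3 * Real.log x) / x ^ 4) := by field_simp
  have e3 : x ^ 4 * (pw a x * H1 - ε) ≤ x ^ 4 * ((∑' k, bsx (Mw a) x k) / x ^ 4)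
      - x ^ 4 * ((4 * x ^ 3 * Real.log (8 * x ^ 6) + 3 * Real.log x) / x ^ 4) := by
    rw [← mul_sub]
    apply mul_le_mul_of_nonneg_left _ hx4.le
    linarith
  rw [← e1, ← e2] at e3
  linarith

/-- separation of blocks -/
lemma rho_block_inj (k l i j : ℕ) (hi : i < 4 * (k + 1) ^ 3) (hj : j < 4 * (l + 1) ^ 3)
    (h : rho k i = rho l j) : k = l := by
  have key : ∀ k l i j : ℕ, i < 4 * (k + 1) ^ 3 → k < l → rho k i < rho l j := by
    intro k l i j hi hkl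
    have h1 := rho_lt k i hi
    have h2 := rho_ge l j
    have h3 : (k : ℝ) + 1 ≤ l := by exact_mod_cast hkl
    have h4 : ((k : ℝ) + 1) ^ 3 + 1 ≤ ((l : ℝ) + 1) ^ 3 := by
      have h5 : ((k : ℝ) + 1 + 1) ^ 3 ≤ ((l : ℝ) + 1) ^ 3 := by gcongr
      have h6 : (0 : ℝ) ≤ k := Nat.cast_nonneg k
      nlinarith [pow_nonneg h6 2]
    linarith
  rcases lt_trichotomy k l with h1 | h1 | h1
  · exact absurd h (key k l i j hi h1).ne
  · exact h1
  · exact absurd h.symm (key l k j i hj h1).ne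

lemma deriv_phi_ne_zero (M : ℕ → ℕ) (hM : ∀ k, M k ≤ 4 * (k + 1) ^ 3) (k0 i0 : ℕ)
    (hi0 : i0 < M k0) : deriv (phi M) (rho k0 i0 : ℂ) ≠ 0 := by
  classical
  set j : (Σ k : ℕ, Fin (M k)) := ⟨k0, ⟨i0, hi0⟩⟩ with hj
  have hr := rho_pos k0 i0
  have hj0 : lamM M j ≠ 0 := by
    unfold lamM; rw [hj]; simp only
    exact_mod_cast hr.ne'
  have hinj : ∀ p, p ≠ j → lamM M j / lamM M p ≠ 1 := by
    rintro ⟨k, i⟩ hp heq
    unfold lamM at heq
    rw [hj] at heq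
    simp only at heq
    rw [div_eq_one_iff'] at heq
    have h' : rho k0 i0 = rho k i := by exact_mod_cast heq
    have hk : k0 = k := rho_block_inj k0 k i0 i (lt_of_lt_of_le hi0 (hM k0))
      (lt_of_lt_of_le i.2 (hM k)) h'
    subst hk
    have : i0 = (i : ℕ) := rho_inj_block k0 i0 i h'
    apply hp
    rw [hj]
    congr 1
    exact Fin.ext this.symm
  have key := norm_deriv_WW (sqSummable_lamM M hM) j hj0 hinj
  have : 0 < ‖deriv (WW (lamM M)) (lamM M j)‖ := by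
    rw [key]
    have : 0 < ‖lamM M j‖ := norm_pos_iff.mpr hj0
    positivity
  exact norm_pos_iff.mp this

/-- the other three factors -/
noncomputable def GG (b : ℕ) (u : ℂ) : ℂ :=
  phi (Mw (b + 1)) (-Complex.I * u) * phi (Mw (b + 2)) (-u) * phi (Mw (b + 3)) (Complex.I * u)

lemma FF_eq (b : ℕ) : FF b = fun u => phi (Mw b) u * GG b u := by
  funext u; unfold FF GG; ring

lemma GG_differentiable (b : ℕ) : Differentiable ℂ (GG b) := by
  unfold GG
  have h : ∀ a, Differentiable ℂ (phi (Mw a)) := fun a => phi_differentiable _ (Mw_le a)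
  exact (((h (b + 1)).comp (differentiable_id.const_mul _)).mul
    ((h (b + 2)).comp differentiable_id.neg)).mul ((h (b + 3)).comp (differentiable_id.const_mul _))

lemma phi_ne_zero_of_im (M : ℕ → ℕ) (hM : ∀ k, M k ≤ 4 * (k + 1) ^ 3) (z : ℂ) (h : z.im ≠ 0) :
    phi M z ≠ 0 := by
  intro h0
  obtain ⟨k, i, _, rfl⟩ := (phi_eq_zero_iff M hM z).mp h0
  exact h (Complex.ofReal_im _)

lemma phi_ne_zero_of_neg (M : ℕ → ℕ) (hM : ∀ k, M k ≤ 4 * (k + 1) ^ 3) (r : ℝ) (h : r < 0) :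
    phi M (r : ℂ) ≠ 0 := by
  intro h0
  obtain ⟨k, i, _, h1⟩ := (phi_eq_zero_iff M hM _).mp h0
  have h2 : r = rho k i := by exact_mod_cast h1
  have := rho_pos k i
  linarith

lemma GG_ne_zero (b : ℕ) (r : ℝ) (hr : 0 < r) : GG b (r : ℂ) ≠ 0 := by
  unfold GG
  refine mul_ne_zero (mul_ne_zero ?_ ?_) ?_
  · apply phi_ne_zero_of_im _ (Mw_le _)
    simp; exact hr.ne'
  · rw [← Complex.ofReal_neg]
    exact phi_ne_zero_of_neg _ (Mw_le _) _ (by linarith)
  · apply phi_ne_zero_of_im _ (Mw_le _)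
    simp; exact hr.ne'

lemma deriv_FF_zero (b : ℕ) (u : ℂ) (h : phi (Mw b) u = 0) :
    deriv (FF b) u = deriv (phi (Mw b)) u * GG b u := by
  rw [FF_eq, deriv_fun_mul (phi_differentiable _ (Mw_le b) u) (GG_differentiable b u), h, zero_mul,
    add_zero]

/-- lower bound for the derivative at zeros on the ray -/
theorem FF_deriv_lower (b : ℕ) (ε : ℝ) (hε : 0 < ε) :
    ∀ᶠ x : ℝ in atTop, FF b ((x : ℂ) ^ 3) = 0 →
      Real.exp (x ^ 4 * (H1 - ε)) ≤ ‖deriv (FF b) ((x : ℂ) ^ 3)‖ := by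
  have hε4 : 0 < ε / 4 := by positivity
  have l0 := deriv_phi_lower_ev b (ε / 4) hε4
  have l1 := phi_lower_ev (b + 1) (1 / 2) (by norm_num) le_rfl (-Complex.I) (by simp)
    (fun s _ => sep_of_im _ _ (by simp) (by norm_num) (by norm_num) s) (ε / 4) hε4
  have l2 := phi_lower_ev (b + 2) (1 / 2) (by norm_num) le_rfl (-1) (by simp)
    (fun s hs => sep_neg_one _ le_rfl s hs) (ε / 4) hε4
  have l3 := phi_lower_ev (b + 3) (1 / 2) (by norm_num) le_rfl Complex.I (by simp)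
    (fun s _ => sep_of_im _ _ (by simp) (by norm_num) (by norm_num) s) (ε / 4) hε4
  filter_upwards [l0, l1, l2, l3, th_slow (1 / 4) (by norm_num) (1 / 8) (by norm_num),
    eventually_ge_atTop 4] with x h0 h1 h2 h3 hth hx4 hzero
  have hx0 : 0 < x := by linarith
  have hGG : GG b ((x : ℂ) ^ 3) ≠ 0 := by
    have := GG_ne_zero b (x ^ 3) (by positivity)
    push_cast at this
    exact this
  have hphi : phi (Mw b) ((x : ℂ) ^ 3) = 0 := by
    rw [FF_eq] at hzero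
    exact (mul_eq_zero.mp hzero).resolve_right hGG
  obtain ⟨k, i, hi, hk⟩ := (phi_eq_zero_iff _ (Mw_le b) _).mp hphi
  have hk' : x ^ 3 = rho k i := by exact_mod_cast hk
  have hi' : i < 4 * (k + 1) ^ 3 := lt_of_lt_of_le hi (Mw_le b k)
  have hnear := near_block x (by linarith) k i hi' hk'
  have hnear' := abs_lt.mp hnear
  -- weight of opposite ray vanishes
  have hp : 0 < pw b k := pw_pos_of_Mw b k (lt_of_le_of_lt (Nat.zero_le _) hi)
  have hcos : 1 / 2 < Real.cos (th k - b * (Real.pi / 2)) := tau_pos _ hp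
  have hthx : |th k - th x| ≤ 1 / 8 := by
    apply hth
    · linarith [hnear'.1]
    · linarith
    · linarith [hnear'.2]
    · linarith
  have hcos2 : 0 < Real.cos (th x - b * (Real.pi / 2)) := by
    have := Real.abs_cos_sub_cos_le (th k - b * (Real.pi / 2)) (th x - b * (Real.pi / 2))
    rw [show th k - b * (Real.pi / 2) - (th x - b * (Real.pi / 2)) = th k - th x by ring] at this
    have h5 := (abs_le.mp (this.trans hthx)).2
    linarith
  have hpw2 : pw (b + 2) x = 0 := by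
    unfold pw
    rw [cos_shift2]
    exact tau_zero _ (by linarith)
  have hs := pw_sum b x
  rw [deriv_FF_zero b _ hphi, norm_mul]
  unfold GG
  rw [norm_mul, norm_mul]
  have g0 := h0 k i hi hk'
  rw [QQ_I _ le_rfl (-Complex.I) (Or.inr rfl)] at h1
  rw [QQ_I _ le_rfl Complex.I (Or.inl rfl)] at h3
  have e1 : -Complex.I * (x : ℂ) ^ 3 = (x : ℂ) ^ 3 * -Complex.I := by ring
  have e2 : -(x : ℂ) ^ 3 = (x : ℂ) ^ 3 * (-1) := by ring
  have e3 : Complex.I * (x : ℂ) ^ 3 = (x : ℂ) ^ 3 * Complex.I := by ring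
  rw [e1, e2, e3]
  calc Real.exp (x ^ 4 * (H1 - ε))
      = Real.exp (x ^ 4 * (pw b x * H1 - ε / 4)) * (Real.exp (x ^ 4 * (pw (b + 1) x * H1 - ε / 4))
        * Real.exp (x ^ 4 * (pw (b + 2) x * QQ (1 / 2) (-1) - ε / 4))
        * Real.exp (x ^ 4 * (pw (b + 3) x * H1 - ε / 4))) := by
        rw [← Real.exp_add, ← Real.exp_add, ← Real.exp_add, hpw2]
        congr 1
        have e4 : pw b x = 1 - pw (b + 1) x - pw (b + 3) x := by linarith
        rw [e4]; ring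
    _ ≤ _ := by gcongr

lemma FF_zero_iff (b : ℕ) (x : ℝ) (hx : 0 < x) :
    FF b ((x : ℂ) ^ 3) = 0 ↔ ∃ k i, i < Mw b k ∧ x ^ 3 = rho k i := by
  have hGG : GG b ((x : ℂ) ^ 3) ≠ 0 := by
    have := GG_ne_zero b (x ^ 3) (by positivity)
    push_cast at this
    exact this
  rw [FF_eq]
  simp only [mul_eq_zero, hGG, or_false]
  rw [phi_eq_zero_iff _ (Mw_le b)]
  constructor
  · rintro ⟨k, i, hi, h⟩
    exact ⟨k, i, hi, by exact_mod_cast h⟩
  · rintro ⟨k, i, hi, h⟩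
    exact ⟨k, i, hi, by rw [← h]; push_cast; ring⟩

lemma FF_simple (b : ℕ) (x : ℝ) (hx : 0 < x) (h : FF b ((x : ℂ) ^ 3) = 0) :
    deriv (FF b) ((x : ℂ) ^ 3) ≠ 0 := by
  obtain ⟨k, i, hi, hk⟩ := (FF_zero_iff b x hx).mp h
  have hk' : (x : ℂ) ^ 3 = (rho k i : ℂ) := by rw [← hk]; push_cast; ring
  have hphi : phi (Mw b) ((x : ℂ) ^ 3) = 0 := (phi_eq_zero_iff _ (Mw_le b) _).mpr ⟨k, i, hi, hk'⟩
  rw [deriv_FF_zero b _ hphi]
  refine mul_ne_zero ?_ ?_
  · rw [hk']; exact deriv_phi_ne_zero _ (Mw_le b) k i hi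
  · have := GG_ne_zero b (x ^ 3) (by positivity)
    push_cast at this
    exact this

/-- all zeros are on the four rays -/
lemma FF_zero_ray (z : ℂ) (h : FF 0 z = 0) : ∃ b x, 0 < x ∧ z = Complex.I ^ b * ((x : ℝ) : ℂ) ^ 3
    ∧ b < 4 := by
  have hcube : ∀ k i, ∃ x : ℝ, 0 < x ∧ (rho k i : ℂ) = ((x : ℝ) : ℂ) ^ 3 := by
    intro k i
    refine ⟨(rho k i) ^ ((1 : ℝ) / 3), by have := rho_pos k i; positivity, ?_⟩
    have h1 : ((rho k i) ^ ((1 : ℝ) / 3)) ^ 3 = rho k i := by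
      rw [← Real.rpow_natCast, ← Real.rpow_mul (rho_pos k i).le]; norm_num
    rw [← Complex.ofReal_pow, h1]
  unfold FF at h
  rcases mul_eq_zero.mp h with h | h
  · rcases mul_eq_zero.mp h with h | h
    · rcases mul_eq_zero.mp h with h | h
      · obtain ⟨k, i, _, hz⟩ := (phi_eq_zero_iff _ (Mw_le _) _).mp h
        obtain ⟨x, hx, hx2⟩ := hcube k i
        exact ⟨0, x, hx, by rw [hz, hx2]; simp, by norm_num⟩
      · obtain ⟨k, i, _, hz⟩ := (phi_eq_zero_iff _ (Mw_le _) _).mp h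
        obtain ⟨x, hx, hx2⟩ := hcube k i
        refine ⟨1, x, hx, ?_, by norm_num⟩
        rw [← hx2, ← hz, pow_one, ← mul_assoc, mul_neg, Complex.I_mul_I]; ring
    · obtain ⟨k, i, _, hz⟩ := (phi_eq_zero_iff _ (Mw_le _) _).mp h
      obtain ⟨x, hx, hx2⟩ := hcube k i
      refine ⟨2, x, hx, ?_, by norm_num⟩
      rw [← hx2, ← hz, Complex.I_sq]; ring
  · obtain ⟨k, i, _, hz⟩ := (phi_eq_zero_iff _ (Mw_le _) _).mp h
    obtain ⟨x, hx, hx2⟩ := hcube k i
    refine ⟨3, x, hx, ?_, by norm_num⟩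
    rw [← hx2, ← hz, ← mul_assoc, Complex.I_pow_three, neg_mul, Complex.I_mul_I]; ring

end Pool.Agent.H574Leontev
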