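import Pool.Agent.H574Leontev.Lower

set_option autoImplicit false
open Filter Topology MeasureTheory Set

namespace Pool.Agent.H574Leontev

/-- at a pure point the weights are constant in a neighbourhood -/
lemma pure_window (b : ℕ) : ∀ᶠ x : ℝ in atTop, Real.cos (th x - b * (Real.pi / 2)) = 1 →
    ∀ t : ℝ, x / 4 ≤ t → t ≤ 4 * x → 9 / 10 ≤ Real.cos (th t - b * (Real.pi / 2)) := by
  filter_upwards [th_slow (1 / 4) (by norm_num) (1 / 10) (by norm_num), eventually_gt_atTop 0] with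
    x hx hx0 hc t ht1 ht2
  have h1 := hx t x (by linarith) (by linarith) (by linarith) (by linarith)
  have h2 := Real.abs_cos_sub_cos_le (th t - b * (Real.pi / 2)) (th x - b * (Real.pi / 2))
  rw [show th t - b * (Real.pi / 2) - (th x - b * (Real.pi / 2)) = th t - th x by ring, hc] at h2
  have := (abs_le.mp (h2.trans h1)).1
  linarith

lemma frequently_pure (b : ℕ) : ∃ᶠ x : ℝ in atTop, Real.cos (th x - b * (Real.pi / 2)) = 1 := by
  rw [frequently_atTop]
  intro X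
  obtain ⟨x, hx, _, hc⟩ := exists_pure b X
  exact ⟨x, hx, hc⟩

lemma pure_weights (b : ℕ) (t : ℝ) (h : 9 / 10 ≤ Real.cos (th t - b * (Real.pi / 2))) :
    pw b t = 1 ∧ pw (b + 1) t = 0 ∧ pw (b + 2) t = 0 ∧ pw (b + 3) t = 0 := by
  have h1 : pw b t = 1 := tau_one _ h
  have h2 := pw_sum b t
  have p1 := pw_nonneg (b + 1) t
  have p2 := pw_nonneg (b + 2) t
  have p3 := pw_nonneg (b + 3) t
  refine ⟨h1, ?_, ?_, ?_⟩ <;> linarith

/-- positivity of the constant in directions at angle between 45 and 90 degrees -/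
lemma QQ_pos (v : ℂ) (hv : ‖v‖ = 1) (h0 : 0 ≤ v.re) (h1 : v.re ^ 2 ≤ 1 / 2) (κ : ℝ) (hκ : 0 < κ)
    (hκ2 : κ ≤ 1 / 2) : 0 < QQ κ v := by
  unfold QQ
  refine integral_pos_of_pos _ (qk_integrable κ hκ hκ2 v hv) fun y hy => ?_
  unfold qk
  set s : ℝ := (y ^ 3)⁻¹ with hs
  have hs0 : 0 < s := by positivity
  have hn : v.re ^ 2 + v.im ^ 2 = 1 := by
    have := Complex.sq_norm_sub_sq_re v
    rw [hv] at this
    linarith
  have him : 1 / 2 ≤ |v.im| := by
    have : (1 / 2 : ℝ) ^ 2 ≤ |v.im| ^ 2 := by rw [sq_abs]; nlinarith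
    exact le_of_sq_le_sq this (abs_nonneg _) |>.trans le_rfl
  have hsep := sep_of_im κ v hv (hκ2.trans him) hκ.le s
  rw [gk_eq_gg κ _ hsep]
  have e1 : ‖1 - (s : ℂ) * v‖ ^ 2 = 1 - 2 * (s * v.re) + s ^ 2 := by
    rw [← Complex.normSq_eq_norm_sq, Complex.normSq_apply]
    simp
    have : v.im ^ 2 = 1 - v.re ^ 2 := by linarith
    calc (1 - s * v.re) * (1 - s * v.re) + s * v.im * (s * v.im)
        = 1 - 2 * (s * v.re) + s ^ 2 * (v.re ^ 2 + v.im ^ 2) := by ring
      _ = _ := by rw [hn, mul_one]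
  have hpos : 0 < ‖1 - (s : ℂ) * v‖ := lt_of_lt_of_le hκ hsep
  have e2 : gg ((s : ℂ) * v) = 1 / 2 * Real.log (1 - 2 * (s * v.re) + s ^ 2) + s * v.re := by
    unfold gg
    rw [← e1, Real.log_pow]
    simp
  rw [e2]
  set t : ℝ := 2 * (s * v.re) with ht
  have ht0 : 0 ≤ t := by positivity
  have htl : t ^ 2 / 2 ≤ s ^ 2 := by
    rw [ht]
    nlinarith [sq_nonneg s, mul_nonneg hs0.le h0, mul_le_mul_of_nonneg_left h1 (sq_nonneg s)]
  have hexp : Real.exp (-t) < 1 - t + s ^ 2 := by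
    rcases eq_or_lt_of_le ht0 with h | h
    · rw [← h]; simp; positivity
    · -- exp(-t) < 1 - t + t^2/2
      have h3 : Real.exp (-t) < 1 - t + t ^ 2 / 2 := by
        have h4 := Real.quadratic_le_exp_of_nonneg ht0
        have h5 : Real.exp (-t) = 1 / Real.exp t := by rw [Real.exp_neg, one_div]
        rw [h5, div_lt_iff₀ (Real.exp_pos t)]
        have h6 : 0 < 1 - t + t ^ 2 / 2 := by nlinarith [sq_nonneg (t - 1)]
        have h7 : (1 - t + t ^ 2 / 2) * (1 + t + t ^ 2 / 2) ≤ (1 - t + t ^ 2 / 2) * Real.exp t := by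
          gcongr
        have h8 : (1 - t + t ^ 2 / 2) * (1 + t + t ^ 2 / 2) = 1 + t ^ 4 / 4 := by ring
        have h9 : 0 < t ^ 4 := by positivity
        linarith
      linarith
  have hlog : -t < Real.log (1 - t + s ^ 2) := by
    rw [Real.lt_log_iff_exp_lt (lt_trans (Real.exp_pos _) hexp)]
    exact hexp
  have : 0 < 1 / 2 * Real.log (1 - t + s ^ 2) + s * v.re := by
    have : s * v.re = t / 2 := by rw [ht]; ring
    rw [this]; linarith
  positivity

/-- lower bound in a direction `I^b * v` -/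
lemma FF_lower_generic (b : ℕ) (v : ℂ) (hv : ‖v‖ = 1) (h0 : 0 < v.re) (h1 : v.re ^ 2 ≤ 1 / 2) :
    ∃ c : ℝ, 0 < c ∧ ∃ᶠ x : ℝ in atTop, Real.exp (c * x ^ 4) ≤ ‖FF b ((x : ℂ) ^ 3 * v)‖ := by
  set κ : ℝ := min (1 / 2) v.re with hκd
  have hκ : 0 < κ := lt_min (by norm_num) h0
  have hκ2 : κ ≤ 1 / 2 := min_le_left _ _
  have hκ3 : κ ≤ v.re := min_le_right _ _
  have hn : v.re ^ 2 + v.im ^ 2 = 1 := by
    have := Complex.sq_norm_sub_sq_re v
    rw [hv] at this
    linarith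
  have him : 1 / 2 ≤ |v.im| := by
    have : (1 / 2 : ℝ) ^ 2 ≤ |v.im| ^ 2 := by rw [sq_abs]; nlinarith
    exact le_of_sq_le_sq this (abs_nonneg _) |>.trans le_rfl
  have hQ := QQ_pos v hv h0.le h1 κ hκ hκ2
  set ε : ℝ := QQ κ v / 8 with hε
  have hε0 : 0 < ε := by positivity
  have l0 := phi_lower_ev b κ hκ hκ2 v hv
    (fun s _ => sep_of_im κ v hv (hκ2.trans him) hκ.le s) ε hε0
  have l1 := phi_lower_ev (b + 1) κ hκ hκ2 (-Complex.I * v) (by simp [hv])
    (fun s _ => sep_of_im κ _ (by simp [hv]) (by simp; exact hκ3.trans (le_abs_self _)) hκ.le s) ε hε0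
  have l2 := phi_lower_ev (b + 2) κ hκ hκ2 (-v) (by simp [hv])
    (fun s _ => sep_of_im κ _ (by simp [hv]) (by simp; exact hκ2.trans (by simpa using him)) hκ.le s)
    ε hε0
  have l3 := phi_lower_ev (b + 3) κ hκ hκ2 (Complex.I * v) (by simp [hv])
    (fun s _ => sep_of_im κ _ (by simp [hv]) (by simp; exact hκ3.trans (le_abs_self _)) hκ.le s) ε hε0
  refine ⟨ε, hε0, ?_⟩
  refine ((frequently_pure b).and_eventually (l0.and (l1.and (l2.and (l3.and
    ((pure_window b).and (eventually_gt_atTop 0))))))).mono ?_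
  rintro x ⟨hc, g0, g1, g2, g3, hw, hx0⟩
  have hcos := hw hc x (by linarith) (by linarith)
  obtain ⟨p0, p1, p2, p3⟩ := pure_weights b x hcos
  rw [p0] at g0
  rw [p1] at g1
  rw [p2] at g2
  rw [p3] at g3
  unfold FF
  rw [norm_mul, norm_mul, norm_mul]
  have e1 : -Complex.I * ((x : ℂ) ^ 3 * v) = (x : ℂ) ^ 3 * (-Complex.I * v) := by ring
  have e2 : -((x : ℂ) ^ 3 * v) = (x : ℂ) ^ 3 * (-v) := by ring
  have e3 : Complex.I * ((x : ℂ) ^ 3 * v) = (x : ℂ) ^ 3 * (Complex.I * v) := by ring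
  rw [e1, e2, e3]
  calc Real.exp (ε * x ^ 4) ≤ Real.exp (x ^ 4 * (1 * QQ κ v - ε))
        * Real.exp (x ^ 4 * (0 * QQ κ (-Complex.I * v) - ε))
        * Real.exp (x ^ 4 * (0 * QQ κ (-v) - ε)) * Real.exp (x ^ 4 * (0 * QQ κ (Complex.I * v) - ε)) := by
        rw [← Real.exp_add, ← Real.exp_add, ← Real.exp_add, Real.exp_le_exp]
        have hx4 : 0 < x ^ 4 := by positivity
        have : QQ κ v = 8 * ε := by rw [hε]; ring
        rw [this]
        nlinarith
    _ ≤ _ := by gcongr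

/-- lower bound on the rays -/
lemma FF_lower_ray (b : ℕ) :
    ∃ c : ℝ, 0 < c ∧ ∃ᶠ x : ℝ in atTop, Real.exp (c * x ^ 4) ≤ ‖FF b ((x : ℂ) ^ 3)‖ := by
  set ε : ℝ := H1 / 8 with hε
  have hε0 : 0 < ε := by have := H1_pos; positivity
  have l0 := phi_pos_lower_ev b ε hε0
  have l1 := phi_lower_ev (b + 1) (1 / 2) (by norm_num) le_rfl (-Complex.I) (by simp)
    (fun s _ => sep_of_im _ _ (by simp) (by norm_num) (by norm_num) s) ε hε0
  have l2 := phi_lower_ev (b + 2) (1 / 2) (by norm_num) le_rfl (-1) (by simp)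
    (fun s hs => sep_neg_one _ le_rfl s hs) ε hε0
  have l3 := phi_lower_ev (b + 3) (1 / 2) (by norm_num) le_rfl Complex.I (by simp)
    (fun s _ => sep_of_im _ _ (by simp) (by norm_num) (by norm_num) s) ε hε0
  refine ⟨ε, hε0, ?_⟩
  refine ((frequently_pure (b + 1)).and_eventually (l0.and (l1.and (l2.and (l3.and
    ((pure_window (b + 1)).and (eventually_ge_atTop 4))))))).mono ?_
  rintro x ⟨hc, g0, g1, g2, g3, hw, hx4⟩
  have hx0 : 0 < x := by linarith
  have hcos := hw hc x (by linarith) (by linarith)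
  obtain ⟨p1, p2, p3, p0⟩ := pure_weights (b + 1) x hcos
  rw [show b + 1 + 3 = b + 4 by ring, pw_periodic] at p0
  rw [show b + 1 + 1 = b + 2 by ring] at p2
  rw [show b + 1 + 2 = b + 3 by ring] at p3
  have hfree : ∀ k : ℕ, |((k : ℝ) + 1) - x| < 1 / 2 → Mw b k = 0 := by
    intro k hk
    have hk' := abs_lt.mp hk
    have hcosk := hw hc k (by linarith [hk'.1]) (by linarith [hk'.2])
    obtain ⟨_, _, _, q0⟩ := pure_weights (b + 1) k hcosk
    rw [show b + 1 + 3 = b + 4 by ring, pw_periodic] at q0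
    exact Mw_eq_zero b k q0
  have g0' := g0 hfree
  rw [p0] at g0'
  rw [p1, QQ_I _ le_rfl (-Complex.I) (Or.inr rfl)] at g1
  rw [p2] at g2
  rw [p3] at g3
  unfold FF
  rw [norm_mul, norm_mul, norm_mul]
  have e1 : -Complex.I * (x : ℂ) ^ 3 = (x : ℂ) ^ 3 * -Complex.I := by ring
  have e2 : -(x : ℂ) ^ 3 = (x : ℂ) ^ 3 * (-1) := by ring
  have e3 : Complex.I * (x : ℂ) ^ 3 = (x : ℂ) ^ 3 * Complex.I := by ring
  rw [e1, e2, e3]
  calc Real.exp (ε * x ^ 4) ≤ Real.exp (x ^ 4 * (0 * H1 - ε))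
        * Real.exp (x ^ 4 * (1 * H1 - ε))
        * Real.exp (x ^ 4 * (0 * QQ (1 / 2) (-1) - ε)) * Real.exp (x ^ 4 * (0 * QQ (1 / 2) Complex.I - ε)) := by
        rw [← Real.exp_add, ← Real.exp_add, ← Real.exp_add, Real.exp_le_exp]
        have hx4 : 0 < x ^ 4 := by positivity
        have : H1 = 8 * ε := by rw [hε]; ring
        rw [this]
        nlinarith
    _ ≤ _ := by gcongr

/-- every direction is `I^b` times a direction at 45 to 90 degrees -/
lemma exists_rot (e : ℂ) (he : ‖e‖ = 1) :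
    ∃ (b : ℕ) (v : ℂ), e = Complex.I ^ b * v ∧ ‖v‖ = 1 ∧ 0 ≤ v.re ∧ v.re ^ 2 ≤ 1 / 2 := by
  have hn : e.re ^ 2 + e.im ^ 2 = 1 := by
    have := Complex.sq_norm_sub_sq_re e
    rw [he] at this
    linarith
  have rot : ∀ (b : ℕ) (v : ℂ), Complex.I ^ b * v = e → ‖v‖ = 1 := by
    intro b v h
    have : ‖Complex.I ^ b * v‖ = ‖v‖ := by simp
    rw [← this, h, he]
  rcases le_or_gt (e.re ^ 2) (1 / 2) with h | h
  · rcases le_or_gt 0 e.re with h2 | h2
    · exact ⟨0, e, by simp, he, h2, h⟩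
    · refine ⟨2, -e, ?_, by simpa using he, ?_, ?_⟩
      · rw [Complex.I_sq]; ring
      · simp; linarith
      · simp; linarith
  · have h3 : e.im ^ 2 ≤ 1 / 2 := by linarith
    rcases le_or_gt 0 e.im with h2 | h2
    · refine ⟨1, -Complex.I * e, ?_, by simp [he], ?_, ?_⟩
      · rw [pow_one, ← mul_assoc, mul_neg, Complex.I_mul_I]; ring
      · simp; exact h2
      · simp; linarith
    · refine ⟨3, Complex.I * e, ?_, by simp [he], ?_, ?_⟩
      · rw [← mul_assoc, Complex.I_pow_three, neg_mul, Complex.I_mul_I]; ring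
      · simp; linarith
      · simp; linarith

/-- positivity in every direction -/
theorem FF_lower (e : ℂ) (he : ‖e‖ = 1) :
    ∃ c : ℝ, 0 < c ∧ ∃ᶠ x : ℝ in atTop, Real.exp (c * x ^ 4) ≤ ‖FF 0 ((x : ℂ) ^ 3 * e)‖ := by
  obtain ⟨b, v, hev, hv, h0, h1⟩ := exists_rot e he
  rcases eq_or_lt_of_le h0 with h | h
  · -- v = ± I
    have hn : v.re ^ 2 + v.im ^ 2 = 1 := by
      have := Complex.sq_norm_sub_sq_re v
      rw [hv] at this
      linarith
    rw [← h] at hn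
    have him : v.im = 1 ∨ v.im = -1 := by
      have : v.im ^ 2 = 1 := by linarith
      have h9 : (v.im - 1) * (v.im + 1) = 0 := by ring_nf; linarith
      rcases mul_eq_zero.mp h9 with h9 | h9
      · exact Or.inl (by linarith)
      · exact Or.inr (by linarith)
    rcases him with h2 | h2
    · have hvI : v = Complex.I := Complex.ext (by simp [← h]) (by simp [h2])
      obtain ⟨c, hc, hf⟩ := FF_lower_ray (b + 1)
      refine ⟨c, hc, hf.mono fun x hx => ?_⟩
      rw [hev, hvI, ← pow_succ, mul_comm ((x : ℂ) ^ 3), FF_pow]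
      exact hx
    · have hvI : v = Complex.I ^ 3 := by
        rw [Complex.I_pow_three]
        exact Complex.ext (by simp [← h]) (by simp [h2])
      obtain ⟨c, hc, hf⟩ := FF_lower_ray (b + 3)
      refine ⟨c, hc, hf.mono fun x hx => ?_⟩
      rw [hev, hvI, ← pow_add, mul_comm ((x : ℂ) ^ 3), FF_pow]
      exact hx
  · obtain ⟨c, hc, hf⟩ := FF_lower_generic b v hv h h1
    refine ⟨c, hc, hf.mono fun x hx => ?_⟩
    rw [hev, show (x : ℂ) ^ 3 * (Complex.I ^ b * v) = Complex.I ^ b * ((x : ℂ) ^ 3 * v) by ring,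
      FF_pow]
    exact hx

/-- decay on the negative axis in long windows -/
theorem FF_decay : ∃ᶠ x : ℝ in atTop, 0 < x ∧ ∀ t : ℝ, x ≤ t → t ≤ 2 * x →
    ‖FF 2 ((t : ℂ) ^ 3)‖ ≤ Real.exp (t ^ 4 * (H2 / 2)) := by
  have hH2 := H2_neg
  have u := FF_upper 2 (-H2 / 2) (by linarith)
  rw [eventually_atTop] at u
  obtain ⟨X, hX⟩ := u
  refine ((frequently_pure 4).and_eventually ((pure_window 4).and
    ((eventually_gt_atTop 0).and (eventually_ge_atTop X)))).mono ?_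
  rintro x ⟨hc, hw, hx0, hxX⟩
  refine ⟨hx0, fun t ht1 ht2 => ?_⟩
  have h1 := hX t (by linarith) ((t : ℂ) ^ 3) (by simp)
  have hcos := hw hc t (by linarith) (by linarith)
  obtain ⟨p4, _, _, _⟩ := pure_weights 4 t hcos
  have e : H1 + (H2 - H1) * pw (2 + 2) t + -H2 / 2 = H2 / 2 := by
    rw [show 2 + 2 = 4 by norm_num, p4]; ring
  rw [e] at h1
  exact h1

end Pool.Agent.H574Leontev
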