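import Mathlib

set_option autoImplicit false
open Filter Topology

namespace Pool.Agent.H574Leontev

/-- elementary factor of genus one -/
noncomputable def E1 (u : ℂ) : ℂ := (1 - u) * Complex.exp u

/-- its log-modulus -/
noncomputable def gg (u : ℂ) : ℝ := Real.log ‖1 - u‖ + u.re

lemma E1_zero : E1 0 = 1 := by simp [E1]

lemma E1_one : E1 1 = 0 := by simp [E1]

lemma gg_zero : gg 0 = 0 := by simp [gg]

lemma E1_eq_zero_iff (u : ℂ) : E1 u = 0 ↔ u = 1 := by
  unfold E1
  constructor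
  · intro h
    rcases mul_eq_zero.mp h with h | h
    · exact (sub_eq_zero.mp h).symm
    · exact absurd h (Complex.exp_ne_zero u)
  · rintro rfl; simp

lemma norm_E1 (u : ℂ) (hu : u ≠ 1) : ‖E1 u‖ = Real.exp (gg u) := by
  unfold E1 gg
  rw [norm_mul, Complex.norm_exp, Real.exp_add, Real.exp_log]
  exact norm_pos_iff.mpr (sub_ne_zero.mpr (Ne.symm hu))

lemma log_norm_E1 (u : ℂ) (hu : u ≠ 1) : Real.log ‖E1 u‖ = gg u := by
  rw [norm_E1 u hu, Real.log_exp]

lemma E1_differentiable : Differentiable ℂ E1 := by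
  unfold E1; fun_prop

lemma E1_hasDerivAt (u : ℂ) : HasDerivAt E1 (-u * Complex.exp u) u := by
  unfold E1
  have h1 : HasDerivAt (fun u : ℂ => 1 - u) (-1) u := by
    simpa using (hasDerivAt_id u).const_sub 1
  exact (h1.mul (Complex.hasDerivAt_exp u)).congr_deriv (by ring)

lemma E1_sub_one_bound (u : ℂ) (hu : ‖u‖ ≤ 1) : ‖E1 u - 1‖ ≤ 3 * ‖u‖ ^ 2 := by
  have h1 : E1 u - 1 = (1 - u) * (Complex.exp u - 1 - u) - u ^ 2 := by
    unfold E1; ring
  rw [h1]
  have h2 := Complex.norm_exp_sub_one_sub_id_le hu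
  have h3 : ‖1 - u‖ ≤ 2 := by
    calc ‖1 - u‖ ≤ ‖(1 : ℂ)‖ + ‖u‖ := norm_sub_le _ _
      _ ≤ 2 := by rw [norm_one]; linarith
  calc ‖(1 - u) * (Complex.exp u - 1 - u) - u ^ 2‖
      ≤ ‖(1 - u) * (Complex.exp u - 1 - u)‖ + ‖u ^ 2‖ := norm_sub_le _ _
    _ = ‖1 - u‖ * ‖Complex.exp u - 1 - u‖ + ‖u‖ ^ 2 := by rw [norm_mul, norm_pow]
    _ ≤ 2 * ‖u‖ ^ 2 + ‖u‖ ^ 2 := by
        gcongr
    _ = 3 * ‖u‖ ^ 2 := by ring

variable {ι : Type*}

/-- canonical product of genus one; points `lam i = 0` give the factor one -/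
noncomputable def WW (lam : ι → ℂ) (z : ℂ) : ℂ := ∏' i, E1 (z / lam i)

/-- summability hypothesis -/
def SqSummable (lam : ι → ℂ) : Prop := Summable fun i => ‖(lam i)⁻¹‖ ^ 2

lemma SqSummable.eventually_small {lam : ι → ℂ} (hs : SqSummable lam) (R : ℝ) (hR : 0 ≤ R) :
    ∀ᶠ i in cofinite, ∀ z : ℂ, ‖z‖ ≤ R → ‖z / lam i‖ ≤ 1 := by
  have h := hs.tendsto_cofinite_zero
  have h2 : ∀ᶠ i in cofinite, ‖(lam i)⁻¹‖ ^ 2 < (1 / (R + 1)) ^ 2 :=
    h.eventually_lt_const (by positivity)
  filter_upwards [h2] with i hi z hz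
  have h3 : ‖(lam i)⁻¹‖ < 1 / (R + 1) := lt_of_pow_lt_pow_left₀ 2 (by positivity) hi
  rw [div_eq_mul_inv, norm_mul]
  calc ‖z‖ * ‖(lam i)⁻¹‖ ≤ R * (1 / (R + 1)) := by gcongr
    _ ≤ 1 := by rw [mul_one_div, div_le_one (by positivity)]; linarith

lemma SqSummable.summable_norm {lam : ι → ℂ} (hs : SqSummable lam) (z : ℂ) :
    Summable fun i => ‖E1 (z / lam i) - 1‖ := by
  have h := hs.eventually_small ‖z‖ (norm_nonneg z)
  refine Summable.of_norm_bounded_eventually (g := fun i => 3 * ‖z‖ ^ 2 * ‖(lam i)⁻¹‖ ^ 2)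
    (hs.mul_left _) ?_
  filter_upwards [h] with i hi
  rw [norm_norm]
  calc ‖E1 (z / lam i) - 1‖ ≤ 3 * ‖z / lam i‖ ^ 2 := E1_sub_one_bound _ (hi z le_rfl)
    _ = 3 * ‖z‖ ^ 2 * ‖(lam i)⁻¹‖ ^ 2 := by
        rw [div_eq_mul_inv, norm_mul]; ring

lemma SqSummable.hasProdLocallyUniformlyOn {lam : ι → ℂ} (hs : SqSummable lam) :
    HasProdLocallyUniformlyOn (fun i z => E1 (z / lam i)) (WW lam) Set.univ := by
  have key : HasProdLocallyUniformlyOn (fun i z => 1 + (E1 (z / lam i) - 1))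
      (fun z => ∏' i, (1 + (E1 (z / lam i) - 1))) Set.univ := by
    apply hasProdLocallyUniformlyOn_of_forall_compact isOpen_univ
    intro K _ hK
    obtain ⟨R, hR⟩ := hK.isBounded.exists_norm_le
    have hR' : ∀ z ∈ K, ‖z‖ ≤ max R 0 := fun z hz => (hR z hz).trans (le_max_left _ _)
    refine Summable.hasProdUniformlyOn_one_add hK
      (u := fun i => 3 * (max R 0) ^ 2 * ‖(lam i)⁻¹‖ ^ 2) (hs.mul_left _) ?_ ?_
    · filter_upwards [hs.eventually_small (max R 0) (le_max_right _ _)] with i hi z hz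
      calc ‖E1 (z / lam i) - 1‖ ≤ 3 * ‖z / lam i‖ ^ 2 := E1_sub_one_bound _ (hi z (hR' z hz))
        _ = 3 * ‖z‖ ^ 2 * ‖(lam i)⁻¹‖ ^ 2 := by
            rw [div_eq_mul_inv, norm_mul]; ring
        _ ≤ 3 * (max R 0) ^ 2 * ‖(lam i)⁻¹‖ ^ 2 := by
            gcongr
            exact hR' z hz
    · intro i
      have : Continuous fun z : ℂ => E1 (z / lam i) - 1 :=
        (E1_differentiable.continuous.comp (continuous_id.div_const _)).sub continuous_const
      exact this.continuousOn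
  have e1 : (fun (i : ι) (z : ℂ) => 1 + (E1 (z / lam i) - 1)) = fun i z => E1 (z / lam i) := by
    funext i z; ring
  have e2 : (fun z => ∏' i, (1 + (E1 (z / lam i) - 1))) = WW lam := by
    funext z
    unfold WW
    congr 1
    funext i; ring
  rw [e1, e2] at key
  exact key

lemma SqSummable.differentiable {lam : ι → ℂ} (hs : SqSummable lam) :
    Differentiable ℂ (WW lam) := by
  rw [← differentiableOn_univ]
  have h := hs.hasProdLocallyUniformlyOn
  rw [hasProdLocallyUniformlyOn_iff_tendstoLocallyUniformlyOn] at h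
  refine h.differentiableOn ?_ isOpen_univ
  filter_upwards with s
  apply DifferentiableOn.fun_finsetProd
  intro i _
  exact (E1_differentiable.comp (differentiable_id.div_const _)).differentiableOn

lemma SqSummable.multipliable {lam : ι → ℂ} (hs : SqSummable lam) (z : ℂ) :
    Multipliable fun i => E1 (z / lam i) := by
  have := multipliable_one_add_of_summable (f := fun i => E1 (z / lam i) - 1) (hs.summable_norm z)
  simpa using this

lemma WW_ne_zero {lam : ι → ℂ} (hs : SqSummable lam) (z : ℂ)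
    (hz : ∀ i, z / lam i ≠ 1) : WW lam z ≠ 0 := by
  have := tprod_one_add_ne_zero_of_summable (f := fun i => E1 (z / lam i) - 1)
    (fun i => by
      have : (1 : ℂ) + (E1 (z / lam i) - 1) = E1 (z / lam i) := by ring
      rw [this]
      intro h
      exact hz i ((E1_eq_zero_iff _).mp h)) (hs.summable_norm z)
  unfold WW
  simpa using this

lemma WW_eq_zero {lam : ι → ℂ} {z : ℂ} (i : ι) (hz : z / lam i = 1) : WW lam z = 0 := by
  unfold WW
  apply tprod_of_exists_eq_zero
  exact ⟨i, by rw [hz, E1_one]⟩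

lemma WW_eq_zero_iff {lam : ι → ℂ} (hs : SqSummable lam) (z : ℂ) :
    WW lam z = 0 ↔ ∃ i, z / lam i = 1 := by
  constructor
  · intro h
    by_contra hcon
    push Not at hcon
    exact WW_ne_zero hs z hcon h
  · rintro ⟨i, hi⟩; exact WW_eq_zero i hi

lemma summable_gg {lam : ι → ℂ} (hs : SqSummable lam) (z : ℂ) (hz : ∀ i, z / lam i ≠ 1) :
    Summable fun i => gg (z / lam i) := by
  have h := (hs.summable_norm z).summable_log_norm_one_add
  refine h.congr fun i => ?_
  rw [show (1 : ℂ) + (E1 (z / lam i) - 1) = E1 (z / lam i) by ring, log_norm_E1 _ (hz i)]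

lemma norm_WW {lam : ι → ℂ} (hs : SqSummable lam) (z : ℂ) (hz : ∀ i, z / lam i ≠ 1) :
    ‖WW lam z‖ = Real.exp (∑' i, gg (z / lam i)) := by
  unfold WW
  rw [(hs.multipliable z).norm_tprod]
  have h1 : ∀ i, 0 < ‖E1 (z / lam i)‖ := fun i => by
    rw [norm_E1 _ (hz i)]; exact Real.exp_pos _
  rw [← Real.rexp_tsum_eq_tprod h1]
  · congr 1
    exact tsum_congr fun i => log_norm_E1 _ (hz i)
  · exact (summable_gg hs z hz).congr fun i => (log_norm_E1 _ (hz i)).symm

lemma norm_WW_le {lam : ι → ℂ} (hs : SqSummable lam) (z : ℂ) (B : ι → ℝ) (hB : Summable B)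
    (h : ∀ i, ‖E1 (z / lam i)‖ ≤ Real.exp (B i)) : ‖WW lam z‖ ≤ Real.exp (∑' i, B i) := by
  by_cases hz : ∀ i, z / lam i ≠ 1
  · rw [norm_WW hs z hz, Real.exp_le_exp]
    refine (summable_gg hs z hz).tsum_le_tsum (fun i => ?_) hB
    have := h i
    rw [norm_E1 _ (hz i), Real.exp_le_exp] at this
    exact this
  · push Not at hz
    obtain ⟨i, hi⟩ := hz
    rw [WW_eq_zero i hi, norm_zero]
    exact (Real.exp_pos _).le

lemma SqSummable.update {lam : ι → ℂ} [DecidableEq ι] (hs : SqSummable lam) (j : ι) :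
    SqSummable (Function.update lam j 0) := by
  unfold SqSummable
  refine Summable.of_nonneg_of_le (fun i => by positivity) (fun i => ?_) hs
  by_cases h : i = j
  · subst h; simp
  · rw [Function.update_of_ne h]

lemma WW_split {lam : ι → ℂ} [DecidableEq ι] (hs : SqSummable lam) (j : ι) (z : ℂ) :
    WW lam z = E1 (z / lam j) * WW (Function.update lam j 0) z := by
  unfold WW
  have hm : Multipliable (Function.update (fun i => E1 (z / lam i)) j 1) := by
    have := (hs.update j).multipliable z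
    refine this.congr fun i => ?_
    by_cases h : i = j
    · subst h; simp [E1_zero]
    · rw [Function.update_of_ne h, Function.update_of_ne h]
  rw [hm.tprod_eq_mul_tprod_ite']
  congr 1
  refine tprod_congr fun i => ?_
  by_cases h : i = j
  · subst h; simp [E1_zero]
  · rw [Function.update_of_ne h, if_neg h]

lemma hasDerivAt_WW_zero {lam : ι → ℂ} [DecidableEq ι] (hs : SqSummable lam) (j : ι)
    (hj : lam j ≠ 0) :
    HasDerivAt (WW lam) ((-(Complex.exp 1) / lam j) * WW (Function.update lam j 0) (lam j))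
      (lam j) := by
  have h1 : WW lam = fun z => E1 (z / lam j) * WW (Function.update lam j 0) z := by
    funext z; exact WW_split hs j z
  rw [h1]
  have h2 : HasDerivAt (fun z : ℂ => E1 (z / lam j)) (-(Complex.exp 1) / lam j) (lam j) := by
    have h3 : HasDerivAt (fun z : ℂ => z / lam j) (1 / lam j) (lam j) :=
      (hasDerivAt_id (lam j)).div_const (lam j)
    have h4 : HasDerivAt E1 (-(lam j / lam j) * Complex.exp (lam j / lam j)) (lam j / lam j) :=
      E1_hasDerivAt _
    have h5 := HasDerivAt.comp (h₂ := E1) (h := fun z : ℂ => z / lam j) (lam j) h4 h3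
    rw [div_self hj] at h5
    exact h5.congr_deriv (by ring)
  have h6 := h2.mul ((hs.update j).differentiable (lam j)).hasDerivAt
  refine h6.congr_deriv ?_
  rw [div_self hj, E1_one, zero_mul, add_zero]

lemma norm_deriv_WW {lam : ι → ℂ} [DecidableEq ι] (hs : SqSummable lam) (j : ι)
    (hj : lam j ≠ 0) (hinj : ∀ i, i ≠ j → lam j / lam i ≠ 1) :
    ‖deriv (WW lam) (lam j)‖ =
      Real.exp (1 + ∑' i, gg (lam j / Function.update lam j 0 i)) / ‖lam j‖ := by
  rw [(hasDerivAt_WW_zero hs j hj).deriv, norm_mul, norm_div, norm_neg, Complex.norm_exp,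
    norm_WW (hs.update j), Real.exp_add]
  · simp; ring
  · intro i
    by_cases h : i = j
    · subst h; simp
    · rw [Function.update_of_ne h]; exact hinj i h

end Pool.Agent.H574Leontev
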