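import Pool.Agent.H574Leontev.Const

set_option autoImplicit false
open Filter Topology MeasureTheory Set

namespace Pool.Agent.H574Leontev

/-- the zeros on one ray -/
noncomputable def lamM (M : ℕ → ℕ) (p : Σ k : ℕ, Fin (M k)) : ℂ := (rho p.1 p.2 : ℂ)

lemma summable_K3 : Summable fun k : ℕ => 4 * (1 / ((k : ℝ) + 1) ^ 3) := by
  apply Summable.mul_left
  have h := (Real.summable_one_div_nat_pow (p := 3)).mpr (by norm_num)
  have h2 := (summable_nat_add_iff 1).mpr h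
  refine h2.congr fun k => ?_
  push_cast; rfl

lemma summable_rho (M : ℕ → ℕ) (hM : ∀ k, M k ≤ 4 * (k + 1) ^ 3) :
    Summable fun p : (Σ k : ℕ, Fin (M k)) => (1 : ℝ) / rho p.1 p.2 ^ 2 := by
  rw [summable_sigma_of_nonneg (fun p => by positivity)]
  constructor
  · intro k; exact Summable.of_finite
  · refine Summable.of_nonneg_of_le (fun k => tsum_nonneg fun i => by positivity) (fun k => ?_)
      summable_K3
    rw [tsum_fintype]
    have hK : (0 : ℝ) < ((k : ℝ) + 1) ^ 3 := by positivity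
    calc ∑ i : Fin (M k), (1 : ℝ) / rho k i ^ 2
        ≤ ∑ _i : Fin (M k), (1 : ℝ) / (((k : ℝ) + 1) ^ 3) ^ 2 := by
          apply Finset.sum_le_sum
          intro i _
          have := rho_ge k i
          gcongr
      _ = (M k : ℝ) * (1 / (((k : ℝ) + 1) ^ 3) ^ 2) := by
          rw [Finset.sum_const, Finset.card_univ, Fintype.card_fin, nsmul_eq_mul]
      _ ≤ (4 * ((k : ℝ) + 1) ^ 3) * (1 / (((k : ℝ) + 1) ^ 3) ^ 2) := by
          have : (M k : ℝ) ≤ 4 * ((k : ℝ) + 1) ^ 3 := by exact_mod_cast hM k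
          gcongr
      _ = 4 * (1 / ((k : ℝ) + 1) ^ 3) := by field_simp

lemma sqSummable_lamM (M : ℕ → ℕ) (hM : ∀ k, M k ≤ 4 * (k + 1) ^ 3) : SqSummable (lamM M) := by
  unfold SqSummable
  refine (summable_rho M hM).congr fun p => ?_
  unfold lamM
  rw [norm_inv, Complex.norm_real, Real.norm_of_nonneg (rho_pos _ _).le, one_div, inv_pow]

/-- the one-ray canonical product -/
noncomputable def phi (M : ℕ → ℕ) (z : ℂ) : ℂ := WW (lamM M) z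

lemma phi_differentiable (M : ℕ → ℕ) (hM : ∀ k, M k ≤ 4 * (k + 1) ^ 3) :
    Differentiable ℂ (phi M) := (sqSummable_lamM M hM).differentiable

lemma div_eq_one_iff' (z : ℂ) (k i : ℕ) : z / (rho k i : ℂ) = 1 ↔ z = (rho k i : ℂ) := by
  have : (rho k i : ℂ) ≠ 0 := by exact_mod_cast (rho_pos k i).ne'
  rw [div_eq_one_iff_eq this]

lemma phi_eq_zero_iff (M : ℕ → ℕ) (hM : ∀ k, M k ≤ 4 * (k + 1) ^ 3) (z : ℂ) :
    phi M z = 0 ↔ ∃ k i, i < M k ∧ z = (rho k i : ℂ) := by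
  unfold phi
  rw [WW_eq_zero_iff (sqSummable_lamM M hM)]
  constructor
  · rintro ⟨⟨k, i⟩, h⟩
    exact ⟨k, i, i.2, (div_eq_one_iff' z k i).mp h⟩
  · rintro ⟨k, i, hi, h⟩
    exact ⟨⟨k, ⟨i, hi⟩⟩, (div_eq_one_iff' z k i).mpr h⟩

lemma tsum_sigma_range (M : ℕ → ℕ) (F : ℕ → ℕ → ℝ)
    (hF : Summable fun p : (Σ k : ℕ, Fin (M k)) => F p.1 p.2) :
    ∑' p : (Σ k : ℕ, Fin (M k)), F p.1 p.2 = ∑' k, ∑ i ∈ Finset.range (M k), F k i := by
  rw [Summable.tsum_sigma' (fun k => Summable.of_finite) hF]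
  refine tsum_congr fun k => ?_
  rw [tsum_fintype]
  exact Fin.sum_univ_eq_sum_range (fun i => F k i) (M k)

lemma summable_gk (M : ℕ → ℕ) (hM : ∀ k, M k ≤ 4 * (k + 1) ^ 3) (κ : ℝ) (hκ : 0 < κ)
    (hκ2 : κ ≤ 1 / 2) (e : ℂ) (he : ‖e‖ = 1) (x : ℝ) (hx : 0 ≤ x) :
    Summable fun p : (Σ k : ℕ, Fin (M k)) => gk κ ((x : ℂ) ^ 3 * e / (rho p.1 p.2 : ℂ)) := by
  refine Summable.of_norm_bounded ((summable_rho M hM).mul_left (CK κ * x ^ 6)) fun p => ?_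
  rw [Real.norm_eq_abs]
  have h := abs_gk_le κ hκ hκ2 ((x : ℂ) ^ 3 * e / (rho p.1 p.2 : ℂ))
  rw [norm_arg x hx e he] at h
  have hC := CK_pos κ hκ hκ2
  calc |gk κ ((x : ℂ) ^ 3 * e / (rho p.1 p.2 : ℂ))|
      ≤ CK κ * min (x ^ 3 / rho p.1 p.2) ((x ^ 3 / rho p.1 p.2) ^ 2) := h
    _ ≤ CK κ * (x ^ 3 / rho p.1 p.2) ^ 2 := by gcongr; exact min_le_right _ _
    _ = CK κ * x ^ 6 * (1 / rho p.1 p.2 ^ 2) := by ring

lemma tsum_gk (M : ℕ → ℕ) (hM : ∀ k, M k ≤ 4 * (k + 1) ^ 3) (κ : ℝ) (hκ : 0 < κ)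
    (hκ2 : κ ≤ 1 / 2) (e : ℂ) (he : ‖e‖ = 1) (x : ℝ) (hx : 0 ≤ x) :
    ∑' p : (Σ k : ℕ, Fin (M k)), gk κ ((x : ℂ) ^ 3 * e / (rho p.1 p.2 : ℂ))
      = ∑' k, bs κ e M x k := by
  unfold bs
  exact tsum_sigma_range M (fun k i => gk κ ((x : ℂ) ^ 3 * e / (rho k i : ℂ)))
    (summable_gk M hM κ hκ hκ2 e he x hx)

lemma log_norm_one_add_le (ξ : ℂ) (h : 1 + ξ ≠ 0) :
    Real.log ‖1 + ξ‖ ≤ ξ.re + ‖ξ‖ ^ 2 / 2 := by
  have h0 : 0 < ‖1 + ξ‖ := norm_pos_iff.mpr h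
  have h1 : ‖1 + ξ‖ ^ 2 = 1 + 2 * ξ.re + ‖ξ‖ ^ 2 := by
    rw [← Complex.normSq_eq_norm_sq, ← Complex.normSq_eq_norm_sq, Complex.normSq_apply,
      Complex.normSq_apply]
    simp
    ring
  have h2 : Real.log (‖1 + ξ‖ ^ 2) ≤ ‖1 + ξ‖ ^ 2 - 1 := Real.log_le_sub_one_of_pos (by positivity)
  rw [Real.log_pow, h1] at h2
  push_cast at h2
  linarith

/-- perturbation inequality for the elementary factor -/
lemma E1_perturb (κ : ℝ) (hκ : 0 < κ) (hκ2 : κ ≤ 1 / 2) (u v : ℂ) :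
    ‖E1 u‖ ≤ Real.exp (gk κ v + 2 / κ ^ 2 * (‖u - v‖ * ‖v‖ + ‖u - v‖ ^ 2)) := by
  by_cases hu : u = 1
  · subst hu
    rw [E1_one, norm_zero]
    exact (Real.exp_pos _).le
  rw [norm_E1 u hu, Real.exp_le_exp]
  set δ := ‖u - v‖ with hδ
  have hδ0 : 0 ≤ δ := norm_nonneg _
  set c : ℝ := κ⁻¹ with hc
  have hc2 : 2 ≤ c := by
    rw [hc, le_inv_comm₀ (by norm_num) hκ]; linarith
  have hcκ : 2 / κ ^ 2 = 2 * c ^ 2 := by rw [hc]; field_simp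
  rw [hcκ]
  have hv0 : 0 ≤ ‖v‖ := norm_nonneg v
  have hu1 : 0 < ‖1 - u‖ := norm_pos_iff.mpr (sub_ne_zero.mpr (Ne.symm hu))
  rcases le_or_gt κ ‖1 - v‖ with h | h
  · rw [gk_eq_gg κ v h]
    have hv1 : 0 < ‖1 - v‖ := lt_of_lt_of_le hκ h
    have hv1' : (1 : ℂ) - v ≠ 0 := norm_pos_iff.mp hv1
    set ξ : ℂ := -(u - v) / (1 - v) with hξ
    have e1 : 1 + ξ = (1 - u) / (1 - v) := by rw [hξ]; field_simp; ring
    have e2 : Real.log ‖1 + ξ‖ = Real.log ‖1 - u‖ - Real.log ‖1 - v‖ := by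
      rw [e1, norm_div, Real.log_div hu1.ne' hv1.ne']
    have hne : 1 + ξ ≠ 0 := by
      rw [e1]; exact div_ne_zero (norm_pos_iff.mp hu1) hv1'
    have e3 := log_norm_one_add_le ξ hne
    have hinv : 1 / ‖1 - v‖ ≤ c := by
      rw [hc, ← one_div]; exact one_div_le_one_div_of_le hκ h
    have e4 : ‖ξ‖ ≤ c * δ := by
      rw [hξ, norm_div, norm_neg]
      calc ‖u - v‖ / ‖1 - v‖ = (1 / ‖1 - v‖) * δ := by rw [hδ]; ring
        _ ≤ c * δ := by gcongr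
    have e5 : ξ.re + (u - v).re ≤ c * δ * ‖v‖ := by
      have e6 : ξ + (u - v) = (u - v) * (-v) / (1 - v) := by rw [hξ]; field_simp; ring
      have e7 : ξ.re + (u - v).re = (ξ + (u - v)).re := by rw [Complex.add_re]
      rw [e7, e6]
      refine (Complex.re_le_norm _).trans ?_
      rw [norm_div, norm_mul, norm_neg]
      calc ‖u - v‖ * ‖v‖ / ‖1 - v‖ = (1 / ‖1 - v‖) * (δ * ‖v‖) := by rw [hδ]; ring
        _ ≤ c * (δ * ‖v‖) := by gcongr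
        _ = c * δ * ‖v‖ := by ring
    have e8 : ‖ξ‖ ^ 2 ≤ (c * δ) ^ 2 := by gcongr
    have e9 : gg u - gg v ≤ c * δ * ‖v‖ + (c * δ) ^ 2 / 2 := by
      unfold gg
      rw [Complex.sub_re] at e5
      linarith
    have e10 : c * δ * ‖v‖ ≤ 2 * c ^ 2 * (δ * ‖v‖) := by
      have : c ≤ 2 * c ^ 2 := by nlinarith
      calc c * δ * ‖v‖ = c * (δ * ‖v‖) := by ring
        _ ≤ 2 * c ^ 2 * (δ * ‖v‖) := by gcongr
    have e11 : (c * δ) ^ 2 / 2 ≤ 2 * c ^ 2 * δ ^ 2 := by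
      nlinarith [sq_nonneg (c * δ)]
    nlinarith
  · have hgk : gk κ v = Real.log κ + v.re := by
      unfold gk; rw [max_eq_right h.le]
    rw [hgk]
    have e1 : ‖1 - u‖ ≤ κ + δ := by
      calc ‖1 - u‖ = ‖(1 - v) - (u - v)‖ := by ring_nf
        _ ≤ ‖1 - v‖ + ‖u - v‖ := norm_sub_le _ _
        _ ≤ κ + δ := by rw [hδ]; linarith
    have e2 : Real.log ‖1 - u‖ ≤ Real.log κ + c * δ := by
      have e3 : Real.log ‖1 - u‖ ≤ Real.log (κ + δ) := Real.log_le_log hu1 e1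
      have e4 : Real.log (κ + δ) = Real.log κ + Real.log (1 + c * δ) := by
        rw [← Real.log_mul hκ.ne' (by positivity)]
        congr 1
        rw [hc]; field_simp
      have e5 : Real.log (1 + c * δ) ≤ c * δ := by
        have := Real.log_le_sub_one_of_pos (x := 1 + c * δ) (by positivity)
        linarith
      linarith
    have e6 : u.re ≤ v.re + δ := by
      have := Complex.re_le_norm (u - v)
      rw [Complex.sub_re] at this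
      linarith
    have hv : 1 / 2 ≤ ‖v‖ := by
      have := norm_sub_norm_le (1 : ℂ) (1 - v)
      rw [norm_one, show (1 : ℂ) - (1 - v) = v by ring] at this
      linarith
    have e7 : c * δ + δ ≤ 2 * c ^ 2 * (δ * ‖v‖) := by
      have h1 : δ ≤ 2 * (δ * ‖v‖) := by nlinarith
      have h2 : c * δ + δ ≤ 2 * c * δ := by nlinarith
      have h3 : 2 * c * δ ≤ 2 * c * (2 * (δ * ‖v‖)) := by gcongr
      have h4 : 2 * c * (2 * (δ * ‖v‖)) ≤ 2 * c ^ 2 * (δ * ‖v‖) := by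
        have h5 : 0 ≤ δ * ‖v‖ := by positivity
        have h6 : 2 * c * 2 ≤ 2 * c ^ 2 := by nlinarith
        calc 2 * c * (2 * (δ * ‖v‖)) = (2 * c * 2) * (δ * ‖v‖) := by ring
          _ ≤ _ := by gcongr
      linarith
    unfold gg
    have e8 : 0 ≤ 2 * c ^ 2 * δ ^ 2 := by positivity
    nlinarith

/-- the constant bounding the sum of inverse squares -/
noncomputable def SS (M : ℕ → ℕ) : ℝ := ∑' p : (Σ k : ℕ, Fin (M k)), (1 : ℝ) / rho p.1 p.2 ^ 2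

lemma SS_nonneg (M : ℕ → ℕ) : 0 ≤ SS M := tsum_nonneg fun p => by positivity

/-- upper bound for the product near a point -/
lemma phi_upper (M : ℕ → ℕ) (hM : ∀ k, M k ≤ 4 * (k + 1) ^ 3) (κ : ℝ) (hκ : 0 < κ)
    (hκ2 : κ ≤ 1 / 2) (e : ℂ) (he : ‖e‖ = 1) (x : ℝ) (hx : 0 ≤ x) (z : ℂ)
    (hz : ‖z - (x : ℂ) ^ 3 * e‖ ≤ 1) :
    ‖phi M z‖ ≤ Real.exp (∑' k, bs κ e M x k + 2 / κ ^ 2 * (x ^ 3 + 1) * SS M) := by
  have hs := sqSummable_lamM M hM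
  have h1 := summable_gk M hM κ hκ hκ2 e he x hx
  have h2 : Summable fun p : (Σ k : ℕ, Fin (M k)) =>
      2 / κ ^ 2 * (x ^ 3 + 1) * ((1 : ℝ) / rho p.1 p.2 ^ 2) := (summable_rho M hM).mul_left _
  have key := norm_WW_le hs z (fun p => gk κ ((x : ℂ) ^ 3 * e / (rho p.1 p.2 : ℂ))
      + 2 / κ ^ 2 * (x ^ 3 + 1) * ((1 : ℝ) / rho p.1 p.2 ^ 2)) (h1.add h2) ?_
  · rw [h1.tsum_add h2, tsum_mul_left, tsum_gk M hM κ hκ hκ2 e he x hx] at key
    exact key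
  · rintro ⟨k, i⟩
    unfold lamM
    simp only
    refine (E1_perturb κ hκ hκ2 (z / (rho k i : ℂ)) ((x : ℂ) ^ 3 * e / (rho k i : ℂ))).trans ?_
    rw [Real.exp_le_exp]
    have hr0 := rho_pos k i
    rw [norm_arg x hx e he]
    have e1 : ‖z / (rho k i : ℂ) - (x : ℂ) ^ 3 * e / (rho k i : ℂ)‖ ≤ 1 / rho k i := by
      rw [← sub_div, norm_div, Complex.norm_real, Real.norm_of_nonneg hr0.le]
      gcongr
    have e2 : ‖z / (rho k i : ℂ) - (x : ℂ) ^ 3 * e / (rho k i : ℂ)‖ * (x ^ 3 / rho k i)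
        + ‖z / (rho k i : ℂ) - (x : ℂ) ^ 3 * e / (rho k i : ℂ)‖ ^ 2
        ≤ (x ^ 3 + 1) * (1 / rho k i ^ 2) := by
      calc _ ≤ (1 / rho k i) * (x ^ 3 / rho k i) + (1 / rho k i) ^ 2 := by gcongr
        _ = (x ^ 3 + 1) * (1 / rho k i ^ 2) := by field_simp
    have e3 : 0 ≤ 2 / κ ^ 2 := by positivity
    nlinarith [mul_le_mul_of_nonneg_left e2 e3]

/-- exact formula away from the zeros -/
lemma phi_exact (M : ℕ → ℕ) (hM : ∀ k, M k ≤ 4 * (k + 1) ^ 3) (κ : ℝ) (hκ : 0 < κ)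
    (hκ2 : κ ≤ 1 / 2) (e : ℂ) (he : ‖e‖ = 1) (hsep : ∀ s : ℝ, 0 ≤ s → κ ≤ ‖1 - (s : ℂ) * e‖)
    (x : ℝ) (hx : 0 ≤ x) :
    ‖phi M ((x : ℂ) ^ 3 * e)‖ = Real.exp (∑' k, bs κ e M x k) := by
  have harg : ∀ k i, (x : ℂ) ^ 3 * e / (rho k i : ℂ) = ((x ^ 3 / rho k i : ℝ) : ℂ) * e := by
    intro k i; push_cast; ring
  have hsep' : ∀ k i, κ ≤ ‖1 - (x : ℂ) ^ 3 * e / (rho k i : ℂ)‖ := by
    intro k i
    rw [harg]
    exact hsep _ (by have := rho_pos k i; positivity)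
  have hne : ∀ p, (x : ℂ) ^ 3 * e / lamM M p ≠ 1 := by
    rintro ⟨k, i⟩ h
    have := hsep' k i
    unfold lamM at h
    simp only at h
    rw [h, sub_self, norm_zero] at this
    linarith
  unfold phi
  rw [norm_WW (sqSummable_lamM M hM) _ hne, ← tsum_gk M hM κ hκ hκ2 e he x hx]
  congr 1
  refine tsum_congr ?_
  rintro ⟨k, i⟩
  unfold lamM
  simp only
  exact (gk_eq_gg κ _ (hsep' k i)).symm

/-- growth bound -/
lemma phi_growth (M : ℕ → ℕ) (hM : ∀ k, M k ≤ 4 * (k + 1) ^ 3) (z : ℂ) :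
    ‖phi M z‖ ≤ Real.exp ((∫ y in Ioi (0 : ℝ), 8 * CK (1 / 2) * bb y) * ‖z‖ ^ ((4 : ℝ) / 3)) := by
  by_cases hz : z = 0
  · subst hz
    rw [norm_zero, Real.zero_rpow (by norm_num), mul_zero, Real.exp_zero]
    unfold phi WW
    simp [E1_zero]
  have hz0 : 0 < ‖z‖ := norm_pos_iff.mpr hz
  set x : ℝ := ‖z‖ ^ ((1 : ℝ) / 3) with hx
  have hx0 : 0 < x := by positivity
  have hx3 : x ^ 3 = ‖z‖ := by
    rw [hx, ← Real.rpow_natCast, ← Real.rpow_mul hz0.le]; norm_num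
  have hx4 : x ^ 4 = ‖z‖ ^ ((4 : ℝ) / 3) := by
    rw [hx, ← Real.rpow_natCast, ← Real.rpow_mul hz0.le]; norm_num
  set e : ℂ := z / ‖z‖ with he
  have hne : (‖z‖ : ℂ) ≠ 0 := by exact_mod_cast hz0.ne'
  have he1 : ‖e‖ = 1 := by
    rw [he, norm_div, Complex.norm_real, norm_norm, div_self hz0.ne']
  have hze : z = (x : ℂ) ^ 3 * e := by
    rw [← Complex.ofReal_pow, hx3, he]; field_simp
  have h1 := norm_WW_le (sqSummable_lamM M hM) z
    (fun p => gk (1 / 2) ((x : ℂ) ^ 3 * e / (rho p.1 p.2 : ℂ)))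
    (summable_gk M hM (1 / 2) (by norm_num) le_rfl e he1 x hx0.le) (by
      rintro ⟨k, i⟩
      rw [hze]
      exact norm_E1_le_gk (1 / 2) (by norm_num) _)
  rw [tsum_gk M hM (1 / 2) (by norm_num) le_rfl e he1 x hx0.le] at h1
  refine h1.trans ?_
  rw [Real.exp_le_exp, ← hx4, mul_comm]
  have hd := bs_dom (1 / 2) (by norm_num) le_rfl e he1 M hM x hx0
  refine le_trans ?_ (hd.tsum_abs_le hx0 (bb_integrable.const_mul _))
  have hsum := hd.summable hx0 (bb_integrable.const_mul _)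
  exact hsum.tsum_le_tsum (fun k => le_abs_self _) hsum.abs

end Pool.Agent.H574Leontev
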