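import Pool.Agent.H574Leontev.Ray

set_option autoImplicit false
open Filter Topology MeasureTheory Set

namespace Pool.Agent.H574Leontev

lemma sep_pos (x : ℝ) (hx : 2 ≤ x) (k i : ℕ) (hi : i < 4 * (k + 1) ^ 3)
    (hd : 1 / 2 ≤ |((k : ℝ) + 1) - x|) : rho k i ≠ x ^ 3 := by
  have h1 := rho_ge k i
  have h2 := rho_lt k i hi
  set K : ℝ := (k : ℝ) + 1 with hK
  have hK0 : 0 < K := by positivity
  rcases le_or_gt x K with h | h
  · rw [abs_of_nonneg (by linarith)] at hd
    have : x ^ 3 < K ^ 3 := by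
      have : x < K := by linarith
      gcongr
    linarith [h1]
  · rw [abs_of_neg (by linarith)] at hd
    have h3 : K ≤ x - 1 / 2 := by linarith
    have h4 : K ^ 3 ≤ (x - 1 / 2) ^ 3 := by gcongr
    have h5 : (x - 1 / 2) ^ 3 + 1 < x ^ 3 := by nlinarith
    linarith

lemma phi_exact_pos (M : ℕ → ℕ) (hM : ∀ k, M k ≤ 4 * (k + 1) ^ 3) (x : ℝ) (hx : 2 ≤ x)
    (hfree : ∀ k : ℕ, |((k : ℝ) + 1) - x| < 1 / 2 → M k = 0) :
    ‖phi M ((x : ℂ) ^ 3)‖ = Real.exp (∑' k, bsx M x k) := by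
  have hx0 : 0 < x := by linarith
  have hd : ∀ k i, i < M k → 1 / 2 ≤ |((k : ℝ) + 1) - x| := by
    intro k i hi
    by_contra h
    push Not at h
    rw [hfree k h] at hi
    omega
  have hne : ∀ p, (x : ℂ) ^ 3 / lamM M p ≠ 1 := by
    rintro ⟨k, i⟩ h
    unfold lamM at h
    simp only at h
    rw [div_eq_one_iff'] at h
    have h' : x ^ 3 = rho k i := by exact_mod_cast h
    exact sep_pos x hx k i (lt_of_lt_of_le i.2 (hM k)) (hd k i i.2) h'.symm
  have hsum := summable_gg (sqSummable_lamM M hM) ((x : ℂ) ^ 3) hne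
  unfold phi
  rw [norm_WW (sqSummable_lamM M hM) _ hne]
  congr 1
  have h1 := tsum_sigma_range M (fun k i => gg ((x : ℂ) ^ 3 / (rho k i : ℂ))) hsum
  have h2 : (∑' p : (Σ k : ℕ, Fin (M k)), gg ((x : ℂ) ^ 3 / lamM M p))
      = ∑' p : (Σ k : ℕ, Fin (M k)), gg ((x : ℂ) ^ 3 / (rho p.1 p.2 : ℂ)) := rfl
  rw [h2, h1]
  refine tsum_congr fun k => ?_
  unfold bsx
  split_ifs with h
  · rw [hfree k h]; simp
  · rfl

lemma rho_inj_block (k i j : ℕ) (h : rho k i = rho k j) : i = j := by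
  unfold rho at h
  have hK : (0 : ℝ) < 4 * ((k : ℝ) + 1) ^ 3 := by positivity
  have h1 : (i : ℝ) / (4 * ((k : ℝ) + 1) ^ 3) = j / (4 * ((k : ℝ) + 1) ^ 3) := by linarith
  rw [div_left_inj' hK.ne'] at h1
  exact_mod_cast h1

/-- if `x^3` is a zero in block `k0`, then `x` is close to `k0+1` and far from other blocks -/
lemma near_block (x : ℝ) (hx : 2 ≤ x) (k0 i0 : ℕ) (hi0 : i0 < 4 * (k0 + 1) ^ 3)
    (h : x ^ 3 = rho k0 i0) : |((k0 : ℝ) + 1) - x| < 1 / 2 := by
  by_contra hcon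
  push Not at hcon
  exact sep_pos x hx k0 i0 hi0 hcon h.symm

lemma far_block (x : ℝ) (hx : 2 ≤ x) (k0 i0 : ℕ) (hi0 : i0 < 4 * (k0 + 1) ^ 3)
    (h : x ^ 3 = rho k0 i0) (k : ℕ) (hk : k ≠ k0) : 1 / 2 ≤ |((k : ℝ) + 1) - x| := by
  have h1 := near_block x hx k0 i0 hi0 h
  have h2 : (1 : ℝ) ≤ |(k : ℝ) - k0| := by
    rcases lt_or_gt_of_ne hk with h3 | h3
    · have : (k : ℝ) + 1 ≤ k0 := by exact_mod_cast h3
      rw [abs_of_neg (by linarith)]; linarith
    · have : (k0 : ℝ) + 1 ≤ k := by exact_mod_cast h3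
      rw [abs_of_pos (by linarith)]; linarith
  have h3 : |(k : ℝ) - k0| ≤ |((k : ℝ) + 1) - x| + |((k0 : ℝ) + 1) - x| := by
    rw [show (k : ℝ) - k0 = (((k : ℝ) + 1) - x) - (((k0 : ℝ) + 1) - x) by ring]
    exact abs_sub _ _
  linarith

lemma deriv_phi_lower (M : ℕ → ℕ) (hM : ∀ k, M k ≤ 4 * (k + 1) ^ 3) (x : ℝ) (hx : 2 ≤ x)
    (k0 i0 : ℕ) (hi0 : i0 < M k0) (h : x ^ 3 = rho k0 i0) :
    Real.exp (1 + ∑' k, bsx M x k - 4 * x ^ 3 * Real.log (8 * x ^ 6)) / x ^ 3
      ≤ ‖deriv (phi M) ((x : ℂ) ^ 3)‖ := by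
  classical
  have hx0 : 0 < x := by linarith
  have hi0' : i0 < 4 * (k0 + 1) ^ 3 := lt_of_lt_of_le hi0 (hM k0)
  set j : (Σ k : ℕ, Fin (M k)) := ⟨k0, ⟨i0, hi0⟩⟩ with hj
  have hlamj : lamM M j = (x : ℂ) ^ 3 := by
    unfold lamM; rw [hj]; simp only
    rw [← h]; push_cast; ring
  have hj0 : lamM M j ≠ 0 := by
    rw [hlamj]; exact pow_ne_zero _ (by exact_mod_cast hx0.ne')
  have hs := sqSummable_lamM M hM
  have hinj : ∀ p, p ≠ j → lamM M j / lamM M p ≠ 1 := by
    rintro ⟨k, i⟩ hp heq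
    rw [hlamj] at heq
    unfold lamM at heq
    simp only at heq
    rw [div_eq_one_iff'] at heq
    have h' : x ^ 3 = rho k i := by exact_mod_cast heq
    by_cases hk : k = k0
    · subst hk
      have : (i : ℕ) = i0 := rho_inj_block k i i0 (by rw [← h', h])
      apply hp
      rw [hj]
      congr 1
      exact Fin.ext this
    · exact sep_pos x hx k i (lt_of_lt_of_le i.2 (hM k)) (far_block x hx k0 i0 hi0' h k hk) h'.symm
  have key := norm_deriv_WW hs j hj0 hinj
  have hsum := summable_gg (hs.update j) (lamM M j) (by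
    intro p
    by_cases hp : p = j
    · subst hp; simp
    · rw [Function.update_of_ne hp]; exact hinj p hp)
  -- rewrite the sum
  set F : ℕ → ℕ → ℝ := fun k i => if k = k0 ∧ i = i0 then 0 else gg ((x : ℂ) ^ 3 / (rho k i : ℂ))
    with hF
  have hFeq : ∀ p : (Σ k : ℕ, Fin (M k)),
      gg (lamM M j / Function.update (lamM M) j 0 p) = F p.1 p.2 := by
    rintro ⟨k, i⟩
    by_cases hp : (⟨k, i⟩ : Σ k : ℕ, Fin (M k)) = j
    · rw [hp, Function.update_self, div_zero, gg_zero, hF, hj]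
      simp
    · rw [Function.update_of_ne hp, hlamj, hF]
      simp only
      rw [if_neg]
      · rfl
      · rintro ⟨rfl, hi⟩
        apply hp
        rw [hj]
        congr 1
        exact Fin.ext hi
  have hsumF : Summable fun p : (Σ k : ℕ, Fin (M k)) => F p.1 p.2 := hsum.congr hFeq
  have e1 : (∑' p, gg (lamM M j / Function.update (lamM M) j 0 p))
      = ∑' k, ∑ i ∈ Finset.range (M k), F k i := by
    rw [← tsum_sigma_range M F hsumF]
    exact tsum_congr hFeq
  set C : ℝ := ∑ i ∈ Finset.range (M k0), F k0 i with hC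
  have hnear := near_block x hx k0 i0 hi0' h
  have e2 : ∀ k, ∑ i ∈ Finset.range (M k), F k i = bsx M x k + (if k = k0 then C else 0) := by
    intro k
    by_cases hk : k = k0
    · subst hk
      unfold bsx
      rw [if_pos hnear, if_pos rfl, zero_add]
    · unfold bsx
      rw [if_neg (not_lt.mpr (far_block x hx k0 i0 hi0' h k hk)), if_neg hk, add_zero]
      refine Finset.sum_congr rfl fun i _ => ?_
      rw [hF]
      simp only
      rw [if_neg (fun h => hk h.1)]
  have hbsx : Summable (bsx M x) := (bsx_dom M hM x hx).summable hx0 b1_integrable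
  have e3 : (∑' k, ∑ i ∈ Finset.range (M k), F k i) = (∑' k, bsx M x k) + C := by
    rw [tsum_congr e2, hbsx.tsum_add ((hasSum_ite_eq k0 C).summable), tsum_ite_eq]
  -- lower bound for C
  have hKx : ((k0 : ℝ) + 1) ^ 3 ≤ x ^ 3 := by rw [h]; exact rho_ge k0 i0
  have hK1 : (1 : ℝ) ≤ ((k0 : ℝ) + 1) ^ 3 := by
    have : (1 : ℝ) ≤ (k0 : ℝ) + 1 := by
      have : (0 : ℝ) ≤ k0 := Nat.cast_nonneg k0
      linarith
    exact one_le_pow₀ this
  have hlog : 0 ≤ Real.log (8 * x ^ 6) := by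
    apply Real.log_nonneg
    have : (1 : ℝ) ≤ x ^ 6 := one_le_pow₀ (by linarith)
    linarith
  have hterm : ∀ i ∈ Finset.range (M k0), -Real.log (8 * x ^ 6) ≤ F k0 i := by
    intro i hi
    rw [hF]
    simp only
    split_ifs with hc
    · linarith
    · have hne : i ≠ i0 := fun h' => hc (by simp [h'])
      have hi' : i < 4 * (k0 + 1) ^ 3 := lt_of_lt_of_le (Finset.mem_range.mp hi) (hM k0)
      rw [arg_real, gg_real]
      have hr0 := rho_pos k0 i
      have hs0 : 0 ≤ x ^ 3 / rho k0 i := by positivity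
      have hdist : 1 / (8 * x ^ 6) ≤ |1 - x ^ 3 / rho k0 i| := by
        have e4 : 1 - x ^ 3 / rho k0 i = (rho k0 i - rho k0 i0) / rho k0 i := by
          rw [h]; field_simp
        have e5 : rho k0 i - rho k0 i0 = ((i : ℝ) - i0) / (4 * ((k0 : ℝ) + 1) ^ 3) := by
          unfold rho; ring
        have e6 : (1 : ℝ) ≤ |(i : ℝ) - i0| := by
          rcases lt_or_gt_of_ne hne with h3 | h3
          · have : (i : ℝ) + 1 ≤ i0 := by exact_mod_cast h3
            rw [abs_of_neg (by linarith)]; linarith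
          · have : (i0 : ℝ) + 1 ≤ i := by exact_mod_cast h3
            rw [abs_of_pos (by linarith)]; linarith
        have e7 := (rho_lt k0 i hi').le
        rw [e4, e5, abs_div, abs_div, abs_of_pos hr0,
          abs_of_pos (show (0 : ℝ) < 4 * ((k0 : ℝ) + 1) ^ 3 by positivity), div_div]
        calc 1 / (8 * x ^ 6) ≤ 1 / (4 * ((k0 : ℝ) + 1) ^ 3 * rho k0 i) := by
              apply one_div_le_one_div_of_le (by positivity)
              calc 4 * ((k0 : ℝ) + 1) ^ 3 * rho k0 i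
                  ≤ 4 * x ^ 3 * (x ^ 3 + 1) := by
                    gcongr
                    linarith
                _ ≤ 4 * x ^ 3 * (x ^ 3 + x ^ 3) := by
                    gcongr
                    linarith
                _ = 8 * x ^ 6 := by ring
          _ ≤ |(i : ℝ) - i0| / (4 * ((k0 : ℝ) + 1) ^ 3 * rho k0 i) := by gcongr
      have e8 : -Real.log (8 * x ^ 6) ≤ Real.log |1 - x ^ 3 / rho k0 i| := by
        rw [← Real.log_inv, ← one_div]
        exact Real.log_le_log (by positivity) hdist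
      linarith
  have hClow : -(4 * x ^ 3 * Real.log (8 * x ^ 6)) ≤ C := by
    rw [hC]
    have h1 := Finset.card_nsmul_le_sum _ _ _ hterm
    rw [Finset.card_range, nsmul_eq_mul] at h1
    have h2 : (M k0 : ℝ) ≤ 4 * x ^ 3 := by
      have : (M k0 : ℝ) ≤ 4 * ((k0 : ℝ) + 1) ^ 3 := by exact_mod_cast hM k0
      linarith
    have h3 : (M k0 : ℝ) * Real.log (8 * x ^ 6) ≤ 4 * x ^ 3 * Real.log (8 * x ^ 6) := by gcongr
    linarith
  have key2 : ‖deriv (phi M) ((x : ℂ) ^ 3)‖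
      = Real.exp (1 + ((∑' k, bsx M x k) + C)) / x ^ 3 := by
    have : ‖deriv (WW (lamM M)) (lamM M j)‖ = ‖deriv (phi M) ((x : ℂ) ^ 3)‖ := by
      rw [hlamj]; rfl
    rw [← this, key, e1, e3, hlamj, norm_pow, Complex.norm_real, Real.norm_of_nonneg hx0.le]
  rw [key2]
  gcongr
  linarith

end Pool.Agent.H574Leontev
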