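import Pool.Agent.H574Leontev.RayPos

set_option autoImplicit false
open Filter Topology MeasureTheory Set

namespace Pool.Agent.H574Leontev

noncomputable def tau (u : ℝ) : ℝ := max 0 (min 1 (2 * (max u 0) ^ 2 - 1 / 2))
noncomputable def th (x : ℝ) : ℝ := Real.log (1 + Real.log (1 + x))
noncomputable def pw (a : ℕ) (x : ℝ) : ℝ := tau (Real.cos (th x - a * (Real.pi / 2)))
noncomputable def Mw (a : ℕ) (k : ℕ) : ℕ := ⌊4 * ((k : ℝ) + 1) ^ 3 * pw a k⌋₊

lemma tau_nonneg (u : ℝ) : 0 ≤ tau u := le_max_left _ _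
lemma tau_le_one (u : ℝ) : tau u ≤ 1 := max_le (by norm_num) (min_le_left _ _)

lemma tau_zero (u : ℝ) (h : u ≤ 1 / 2) : tau u = 0 := by
  unfold tau
  apply max_eq_left
  refine (min_le_right _ _).trans ?_
  have h1 : max u 0 ≤ 1 / 2 := max_le h (by norm_num)
  have h2 : 0 ≤ max u 0 := le_max_right _ _
  nlinarith

lemma tau_pos (u : ℝ) (h : 0 < tau u) : 1 / 2 < u := by
  by_contra hcon
  push Not at hcon
  rw [tau_zero u hcon] at h
  exact lt_irrefl _ h

lemma tau_one (u : ℝ) (h : 9 / 10 ≤ u) : tau u = 1 := by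
  unfold tau
  have h1 : max u 0 = u := max_eq_left (by linarith)
  rw [h1, min_eq_left (by nlinarith)]
  norm_num

lemma tau_lip (u v : ℝ) (hu : |u| ≤ 1) (hv : |v| ≤ 1) : |tau u - tau v| ≤ 4 * |u - v| := by
  unfold tau
  rw [max_comm 0, max_comm 0]
  refine (abs_max_sub_max_le_abs _ _ _).trans ?_
  rw [min_comm 1, min_comm 1]
  have h1 : |min (2 * (max u 0) ^ 2 - 1 / 2) 1 - min (2 * (max v 0) ^ 2 - 1 / 2) 1|
      ≤ |(2 * (max u 0) ^ 2 - 1 / 2) - (2 * (max v 0) ^ 2 - 1 / 2)| := by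
    have := abs_min_sub_min_le_max (2 * (max u 0) ^ 2 - 1 / 2) 1 (2 * (max v 0) ^ 2 - 1 / 2) 1
    rw [sub_self, abs_zero] at this
    exact this.trans (max_le le_rfl (abs_nonneg _))
  refine h1.trans ?_
  have h2 : |max u 0 - max v 0| ≤ |u - v| := abs_max_sub_max_le_abs _ _ _
  have hu1 := (abs_le.mp hu).2
  have hv1 := (abs_le.mp hv).2
  have m1 : 0 ≤ max u 0 := le_max_right _ _
  have m2 : max u 0 ≤ 1 := max_le hu1 (by norm_num)
  have n1 : 0 ≤ max v 0 := le_max_right _ _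
  have n2 : max v 0 ≤ 1 := max_le hv1 (by norm_num)
  have e : (2 * (max u 0) ^ 2 - 1 / 2) - (2 * (max v 0) ^ 2 - 1 / 2)
      = 2 * (max u 0 + max v 0) * (max u 0 - max v 0) := by ring
  rw [e, abs_mul, abs_of_nonneg (show 0 ≤ 2 * (max u 0 + max v 0) by positivity)]
  calc 2 * (max u 0 + max v 0) * |max u 0 - max v 0| ≤ 4 * |max u 0 - max v 0| := by
        gcongr; linarith
    _ ≤ 4 * |u - v| := by gcongr

lemma tau_pair (c : ℝ) : tau c + tau (-c) = max 0 (min 1 (2 * c ^ 2 - 1 / 2)) := by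
  rcases le_or_gt 0 c with h | h
  · rw [tau_zero (-c) (by linarith), add_zero]
    unfold tau; rw [max_eq_left h]
  · rw [tau_zero c (by linarith), zero_add]
    have h1 : max (-c) 0 = -c := max_eq_left (by linarith)
    unfold tau; rw [h1]; ring_nf

lemma tau_sum (c s : ℝ) (h : c ^ 2 + s ^ 2 = 1) : tau c + tau s + tau (-c) + tau (-s) = 1 := by
  have h1 := tau_pair c
  have h2 := tau_pair s
  have h3 : max 0 (min 1 (2 * c ^ 2 - 1 / 2)) + max 0 (min 1 (2 * s ^ 2 - 1 / 2)) = 1 := by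
    have h4 : 2 * s ^ 2 - 1 / 2 = 1 - (2 * c ^ 2 - 1 / 2) := by linarith
    rw [h4]
    set y := 2 * c ^ 2 - 1 / 2
    rcases le_or_gt y 0 with hy | hy
    · rw [max_eq_left ((min_le_right _ _).trans hy), min_eq_left (by linarith)]; norm_num
    · rcases le_or_gt y 1 with hy1 | hy1
      · rw [min_eq_right hy1, max_eq_right hy.le, min_eq_right (by linarith),
          max_eq_right (by linarith)]; ring
      · rw [min_eq_left hy1.le, max_eq_right (by norm_num), max_eq_left]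
        · norm_num
        · exact (min_le_right _ _).trans (by linarith)
  linarith

lemma pw_nonneg (a : ℕ) (x : ℝ) : 0 ≤ pw a x := tau_nonneg _
lemma pw_le_one (a : ℕ) (x : ℝ) : pw a x ≤ 1 := tau_le_one _

lemma cos_shift1 (x : ℝ) (a : ℕ) :
    Real.cos (x - ((a + 1 : ℕ) : ℝ) * (Real.pi / 2)) = Real.sin (x - a * (Real.pi / 2)) := by
  rw [← Real.cos_sub_pi_div_two]; congr 1; push_cast; ring

lemma cos_shift2 (x : ℝ) (a : ℕ) :
    Real.cos (x - ((a + 2 : ℕ) : ℝ) * (Real.pi / 2)) = -Real.cos (x - a * (Real.pi / 2)) := by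
  rw [← Real.cos_sub_pi]; congr 1; push_cast; ring

lemma cos_shift3 (x : ℝ) (a : ℕ) :
    Real.cos (x - ((a + 3 : ℕ) : ℝ) * (Real.pi / 2)) = -Real.sin (x - a * (Real.pi / 2)) := by
  rw [show a + 3 = (a + 1) + 2 by ring, cos_shift2, cos_shift1]

lemma pw_sum (a : ℕ) (x : ℝ) : pw a x + pw (a + 1) x + pw (a + 2) x + pw (a + 3) x = 1 := by
  unfold pw
  rw [cos_shift1, cos_shift2, cos_shift3]
  exact tau_sum _ _ (Real.cos_sq_add_sin_sq _)

lemma pw_periodic (a : ℕ) (x : ℝ) : pw (a + 4) x = pw a x := by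
  unfold pw
  rw [show a + 4 = (a + 2) + 2 by ring, cos_shift2, cos_shift2, neg_neg]

lemma Mw_periodic (a : ℕ) : Mw (a + 4) = Mw a := by
  funext k; unfold Mw; rw [pw_periodic]

lemma Mw_le (a k : ℕ) : Mw a k ≤ 4 * (k + 1) ^ 3 := by
  unfold Mw
  apply Nat.floor_le_of_le
  push_cast
  calc 4 * ((k : ℝ) + 1) ^ 3 * pw a k ≤ 4 * ((k : ℝ) + 1) ^ 3 * 1 := by
        gcongr; exact pw_le_one a k
    _ = _ := mul_one _

lemma pw_lip (a : ℕ) (s t : ℝ) : |pw a s - pw a t| ≤ 4 * |th s - th t| := by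
  unfold pw
  refine (tau_lip _ _ (Real.abs_cos_le_one _) (Real.abs_cos_le_one _)).trans ?_
  refine mul_le_mul_of_nonneg_left ?_ (by norm_num)
  refine (Real.abs_cos_sub_cos_le _ _).trans (le_of_eq ?_)
  congr 1; ring

lemma th_le (t s : ℝ) (ht : 0 ≤ t) (hts : t ≤ s) :
    th s - th t ≤ (Real.log (1 + s) - Real.log (1 + t)) / (1 + Real.log (1 + t)) := by
  unfold th
  have h1 : 0 ≤ Real.log (1 + t) := Real.log_nonneg (by linarith)
  have h2 : Real.log (1 + t) ≤ Real.log (1 + s) := Real.log_le_log (by linarith) (by linarith)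
  rw [← Real.log_div (by linarith) (by linarith)]
  have h3 := Real.log_le_sub_one_of_pos
    (x := (1 + Real.log (1 + s)) / (1 + Real.log (1 + t))) (div_pos (by linarith) (by linarith))
  refine h3.trans (le_of_eq ?_)
  field_simp
  ring

lemma th_mono (t s : ℝ) (ht : 0 ≤ t) (hts : t ≤ s) : th t ≤ th s := by
  unfold th
  have h1 : 0 ≤ Real.log (1 + t) := Real.log_nonneg (by linarith)
  have h2 : Real.log (1 + t) ≤ Real.log (1 + s) := Real.log_le_log (by linarith) (by linarith)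
  exact Real.log_le_log (by linarith) (by linarith)

/-- slow variation, uniform version -/
lemma th_slow (c : ℝ) (hc : 0 < c) (ε : ℝ) (hε : 0 < ε) :
    ∀ᶠ x : ℝ in atTop, ∀ s t : ℝ, c * x ≤ s → c * x ≤ t → s ≤ x / c → t ≤ x / c →
      |th s - th t| ≤ ε := by
  have h1 : Tendsto (fun x : ℝ => 1 + Real.log (1 + c * x)) atTop atTop := by
    apply tendsto_atTop_add_const_left
    apply Real.tendsto_log_atTop.comp
    apply tendsto_atTop_add_const_left
    exact tendsto_id.const_mul_atTop hc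
  set D : ℝ := Real.log (1 + 1 / c ^ 2) with hD
  have hD0 : 0 ≤ D := Real.log_nonneg (by
    have : 0 < 1 / c ^ 2 := by positivity
    linarith)
  filter_upwards [h1.eventually_ge_atTop (D / ε + 1), eventually_gt_atTop 0] with x hx hx0
  have key : ∀ s t : ℝ, c * x ≤ t → t ≤ s → s ≤ x / c → th s - th t ≤ ε := by
    intro s t ht hts hs
    have hcx : 0 < c * x := by positivity
    have ht0 : 0 < t := by linarith
    refine (th_le t s ht0.le hts).trans ?_
    have h2 : Real.log (1 + s) - Real.log (1 + t) ≤ D := by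
      rw [← Real.log_div (by linarith) (by linarith), hD]
      apply Real.log_le_log (div_pos (by linarith) (by linarith))
      rw [div_le_iff₀ (by linarith)]
      have h3 : s ≤ 1 / c ^ 2 * t := by
        calc s ≤ x / c := hs
          _ = 1 / c ^ 2 * (c * x) := by field_simp
          _ ≤ 1 / c ^ 2 * t := by gcongr
      have h4 : 0 < 1 / c ^ 2 := by positivity
      nlinarith
    have h5 : D / ε ≤ 1 + Real.log (1 + t) := by
      have : Real.log (1 + c * x) ≤ Real.log (1 + t) := Real.log_le_log (by positivity) (by linarith)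
      linarith
    have h6 : 0 < 1 + Real.log (1 + t) := by
      have : 0 ≤ Real.log (1 + t) := Real.log_nonneg (by linarith)
      linarith
    rw [div_le_iff₀ h6]
    rw [div_le_iff₀ hε] at h5
    linarith
  intro s t hs1 ht1 hs2 ht2
  have hcx : 0 < c * x := by positivity
  rw [abs_le]
  rcases le_total s t with h | h
  · have := key t s hs1 h ht2
    have h2 := th_mono s t (by linarith) h
    constructor <;> linarith
  · have := key s t ht1 h hs2
    have h2 := th_mono t s (by linarith) h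
    constructor <;> linarith

lemma pw_floor_tendsto (a : ℕ) (y : ℝ) (hy : 0 < y) :
    Tendsto (fun x : ℝ => pw a (⌊x * y⌋₊ : ℝ) - pw a x) atTop (𝓝 0) := by
  rw [Metric.tendsto_nhds]
  intro ε hε
  set c : ℝ := min (1 / 2) (min (y / 2) (1 / (y + 1))) with hc
  have hc0 : 0 < c := lt_min (by norm_num) (lt_min (by positivity) (by positivity))
  have hc1 : c ≤ 1 / 2 := min_le_left _ _
  have hc2 : c ≤ y / 2 := (min_le_right _ _).trans (min_le_left _ _)
  have hc3 : c ≤ 1 / (y + 1) := (min_le_right _ _).trans (min_le_right _ _)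
  filter_upwards [th_slow c hc0 (ε / 8) (by positivity), eventually_gt_atTop 0,
    eventually_ge_atTop (2 / y)] with x hx hx0 hxy
  rw [Real.dist_eq, sub_zero]
  have hfl := Nat.floor_le (show 0 ≤ x * y by positivity)
  have hfl2 := Nat.lt_floor_add_one (x * y)
  have h1 : c * x ≤ (⌊x * y⌋₊ : ℝ) := by
    have : 2 ≤ x * y := by rwa [div_le_iff₀ hy] at hxy
    have h2 : c * x ≤ y / 2 * x := by gcongr
    nlinarith
  have h2 : (⌊x * y⌋₊ : ℝ) ≤ x / c := by
    rw [le_div_iff₀ hc0]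
    have h3 : (y + 1) * c ≤ 1 := by
      rw [le_div_iff₀ (by positivity)] at hc3; linarith
    calc (⌊x * y⌋₊ : ℝ) * c ≤ x * y * c := by gcongr
      _ = x * (y * c) := by ring
      _ ≤ x * 1 := by gcongr; nlinarith
      _ = x := mul_one _
  have h3 : c * x ≤ x := by nlinarith
  have h4 : x ≤ x / c := by
    rw [le_div_iff₀ hc0]; nlinarith
  have := hx _ _ h1 h3 h2 h4
  calc |pw a (⌊x * y⌋₊ : ℝ) - pw a x| ≤ 4 * |th (⌊x * y⌋₊ : ℝ) - th x| := pw_lip a _ _
    _ ≤ 4 * (ε / 8) := by gcongr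
    _ < ε := by linarith

theorem Mw_Wt (a : ℕ) : Wt (Mw a) (pw a) := by
  refine ⟨Mw_le a, fun x => ?_, fun y hy => ?_⟩
  · rw [abs_of_nonneg (pw_nonneg a x)]; exact pw_le_one a x
  · have h1 := tendsto_floor_div y hy
    have h2 : Tendsto (fun x : ℝ => (((⌊x * y⌋₊ : ℝ) + 1) / x) ^ 3 - y ^ 3) atTop (𝓝 0) := by
      have := (h1.pow 3).sub_const (y ^ 3)
      rwa [sub_self] at this
    have h3 := pw_floor_tendsto a y hy
    have h4 : Tendsto (fun x : ℝ => (1 : ℝ) / x ^ 3) atTop (𝓝 0) := by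
      have h9 : Tendsto (fun x : ℝ => x ^ 3) atTop atTop := tendsto_pow_atTop (by norm_num)
      have := h9.inv_tendsto_atTop
      refine this.congr fun x => ?_
      simp
    have h5 : Tendsto (fun x : ℝ => 4 * |(((⌊x * y⌋₊ : ℝ) + 1) / x) ^ 3 - y ^ 3|
        + 4 * y ^ 3 * |pw a (⌊x * y⌋₊ : ℝ) - pw a x| + 1 / x ^ 3) atTop (𝓝 0) := by
      have := ((h2.abs.const_mul 4).add (h3.abs.const_mul (4 * y ^ 3))).add h4
      simpa using this
    refine squeeze_zero_norm' ?_ h5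
    filter_upwards [eventually_gt_atTop 0] with x hx0
    rw [Real.norm_eq_abs]
    set k := ⌊x * y⌋₊ with hk
    set p : ℝ := pw a (k : ℝ) with hp
    have hp0 : 0 ≤ p := pw_nonneg a _
    have hp1 : p ≤ 1 := pw_le_one a _
    have hfl : (Mw a k : ℝ) ≤ 4 * ((k : ℝ) + 1) ^ 3 * p :=
      Nat.floor_le (by positivity)
    have hfl2 : 4 * ((k : ℝ) + 1) ^ 3 * p < Mw a k + 1 := Nat.lt_floor_add_one _
    have e1 : |(Mw a k : ℝ) / x ^ 3 - 4 * (((k : ℝ) + 1) / x) ^ 3 * p| ≤ 1 / x ^ 3 := by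
      rw [show (Mw a k : ℝ) / x ^ 3 - 4 * (((k : ℝ) + 1) / x) ^ 3 * p
        = ((Mw a k : ℝ) - 4 * ((k : ℝ) + 1) ^ 3 * p) / x ^ 3 by rw [div_pow]; ring, abs_div,
        abs_of_pos (show 0 < x ^ 3 by positivity)]
      gcongr
      rw [abs_le]; constructor <;> linarith
    have e2 : (Mw a k : ℝ) / x ^ 3 - pw a x * (4 * y ^ 3)
        = ((Mw a k : ℝ) / x ^ 3 - 4 * (((k : ℝ) + 1) / x) ^ 3 * p)
          + 4 * ((((k : ℝ) + 1) / x) ^ 3 - y ^ 3) * p + 4 * y ^ 3 * (p - pw a x) := by ring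
    rw [e2]
    refine (abs_add_le _ _).trans ?_
    refine (add_le_add_left (abs_add_le _ _) _).trans ?_
    have e3 : |4 * ((((k : ℝ) + 1) / x) ^ 3 - y ^ 3) * p|
        ≤ 4 * |(((k : ℝ) + 1) / x) ^ 3 - y ^ 3| := by
      rw [abs_mul, abs_mul, abs_of_nonneg hp0, abs_of_pos (by norm_num : (0 : ℝ) < 4)]
      calc 4 * |(((k : ℝ) + 1) / x) ^ 3 - y ^ 3| * p
          ≤ 4 * |(((k : ℝ) + 1) / x) ^ 3 - y ^ 3| * 1 := by gcongr
        _ = _ := mul_one _
    have e4 : |4 * y ^ 3 * (p - pw a x)| = 4 * y ^ 3 * |p - pw a x| := by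
      rw [abs_mul, abs_of_pos (show 0 < 4 * y ^ 3 by positivity)]
    rw [e4]
    linarith

lemma Mw_eq_zero (a k : ℕ) (h : pw a k = 0) : Mw a k = 0 := by
  unfold Mw; rw [h, mul_zero, Nat.floor_zero]

lemma pw_pos_of_Mw (a k : ℕ) (h : 0 < Mw a k) : 0 < pw a k := by
  by_contra hcon
  have : pw a k = 0 := le_antisymm (not_lt.mp hcon) (pw_nonneg a k)
  rw [Mw_eq_zero a k this] at h
  exact lt_irrefl _ h

lemma exists_pure (b : ℕ) (X : ℝ) : ∃ x : ℝ, X ≤ x ∧ 0 ≤ x ∧ Real.cos (th x - b * (Real.pi / 2)) = 1 := by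
  have h1 : Tendsto (fun m : ℕ => Real.exp (Real.exp (b * (Real.pi / 2) + m * (2 * Real.pi)) - 1) - 1)
      atTop atTop := by
    apply tendsto_atTop_add_const_right
    apply Real.tendsto_exp_atTop.comp
    apply tendsto_atTop_add_const_right
    apply Real.tendsto_exp_atTop.comp
    apply tendsto_atTop_add_const_left
    exact tendsto_natCast_atTop_atTop.atTop_mul_const (by positivity)
  obtain ⟨m, hm⟩ := (h1.eventually_ge_atTop (max X 0)).exists
  refine ⟨_, (le_max_left _ _).trans hm, (le_max_right _ _).trans hm, ?_⟩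
  unfold th
  have e1 : 1 + (Real.exp (Real.exp (b * (Real.pi / 2) + m * (2 * Real.pi)) - 1) - 1)
      = Real.exp (Real.exp (b * (Real.pi / 2) + m * (2 * Real.pi)) - 1) := by ring
  rw [e1, Real.log_exp]
  have e2 : 1 + (Real.exp (b * (Real.pi / 2) + m * (2 * Real.pi)) - 1)
      = Real.exp (b * (Real.pi / 2) + m * (2 * Real.pi)) := by ring
  rw [e2, Real.log_exp, add_sub_cancel_left]
  exact Real.cos_nat_mul_two_pi m

end Pool.Agent.H574Leontev
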